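import Mathlib

open MeasureTheory Filter Topology
open scoped ENNReal

namespace Pool.Agent.Work.MP_0c7e55_an

/-- The left shift on one-sided sequences. -/
def shift {Λ : Type*} (x : ℕ → Λ) : ℕ → Λ := fun n => x (n + 1)

/-- The cylinder `[B]` of sequences starting with the finite block `B`. -/
def cyl {Λ : Type*} (B : List Λ) : Set (ℕ → Λ) :=
  {x | ∀ (i : ℕ) (h : i < B.length), x i = B[i]}

open Classical in
/-- The number of occurrences of the block `B` in `x 0, ..., x (N - 1)`. -/
noncomputable def blockCount {Λ : Type*} (B : List Λ) (x : ℕ → Λ) (N : ℕ) : ℕ :=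
  ((Finset.range N).filter (fun i => i + B.length ≤ N ∧ shift^[i] x ∈ cyl B)).card

/-- `x` is generic for `μ` (`μ`-normal): every block has frequency `μ [B]`. -/
def IsGeneric {Λ : Type*} [MeasurableSpace Λ] (μ : Measure (ℕ → Λ)) (x : ℕ → Λ) : Prop :=
  ∀ B : List Λ, Tendsto (fun N : ℕ => (blockCount B x N : ℝ) / N) atTop (𝓝 (μ.real (cyl B)))

/-- `z` is simply `μ`-normal: every symbol has frequency `μ [a]`. -/
def IsSimplyNormal {Λ : Type*} [MeasurableSpace Λ] (μ : Measure (ℕ → Λ)) (z : ℕ → Λ) : Prop :=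
  ∀ a : Λ, Tendsto (fun N : ℕ => (blockCount [a] z N : ℝ) / N) atTop (𝓝 (μ.real (cyl [a])))

/-- The subsequence of `x` along the set `S`, listed in increasing order. -/
noncomputable def restrictTo {Λ : Type*} (S : Set ℕ) (x : ℕ → Λ) : ℕ → Λ :=
  fun k => x (Nat.nth (fun n => n ∈ S) k)

/-- `S` preserves simple `μ`-normality. -/
def PreservesSimpleNormality {Λ : Type*} [MeasurableSpace Λ] (μ : Measure (ℕ → Λ))
    (S : Set ℕ) : Prop :=
  ∀ x : ℕ → Λ, IsGeneric μ x → IsSimplyNormal μ (restrictTo S x)

/-- Shannon entropy of the (finite) partition given by the fibres of `P`. -/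
noncomputable def shannon {Ω ι : Type*} [MeasurableSpace Ω] [Fintype ι] (μ : Measure Ω)
    (P : Ω → ι) : ℝ := ∑ a, Real.negMulLog (μ.real (P ⁻¹' {a}))

/-- The `n`-step itinerary of a point with respect to the partition `P`. -/
def itinerary {Ω ι : Type*} (T : Ω → Ω) (P : Ω → ι) (n : ℕ) (x : Ω) : Fin n → ι :=
  fun i => P (T^[i] x)

/-- Entropy of `T` with respect to the partition `P`. -/
noncomputable def partitionEntropy {Ω ι : Type*} [MeasurableSpace Ω] [Fintype ι]
    (μ : Measure Ω) (T : Ω → Ω) (P : Ω → ι) : ℝ≥0∞ :=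
  limsup (fun n : ℕ => ENNReal.ofReal (shannon μ (itinerary T P n) / n)) atTop

/-- Kolmogorov-Sinai entropy: the supremum over all finite measurable partitions. -/
noncomputable def ksEntropy {Ω : Type*} [MeasurableSpace Ω] (μ : Measure Ω) (T : Ω → Ω) : ℝ≥0∞ :=
  ⨆ (k : ℕ) (P : Ω → Fin k) (_ : Measurable P), partitionEntropy μ T P

open Classical in
/-- The indicator sequence of `S`. -/
noncomputable def indicatorSeq (S : Set ℕ) : ℕ → Bool := fun n => decide (n ∈ S)

/-- The average of the point masses at `y, σ y, ..., σ^N y`. -/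
noncomputable def empirical (y : ℕ → Bool) (N : ℕ) : ProbabilityMeasure (ℕ → Bool) :=
  ⟨((N + 1 : ℕ) : ℝ≥0∞)⁻¹ • ∑ n ∈ Finset.range (N + 1), Measure.dirac (shift^[n] y), by
    constructor
    simp only [Measure.smul_apply, Measure.finsetSum_apply, measure_univ, Finset.sum_const,
      Finset.card_range, smul_eq_mul, nsmul_eq_mul, mul_one]
    exact ENNReal.inv_mul_cancel (by simp) (by simp)⟩

/-- `ν` is a measure derived from `S`: a shift-invariant weak limit point of the empirical
measures of the indicator sequence of `S`. -/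
def IsDerived (S : Set ℕ) (ν : ProbabilityMeasure (ℕ → Bool)) : Prop :=
  MeasurePreserving shift (ν : Measure (ℕ → Bool)) (ν : Measure (ℕ → Bool)) ∧
    MapClusterPt ν atTop (empirical (indicatorSeq S))

/-- `S` is deterministic: every measure derived from `S` has entropy zero. -/
def IsDeterministic (S : Set ℕ) : Prop :=
  ∀ ν : ProbabilityMeasure (ℕ → Bool), IsDerived S ν →
    ksEntropy (ν : Measure (ℕ → Bool)) shift = 0

end Pool.Agent.Work.MP_0c7e55_an
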