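import Mathlib

namespace Pool.Agent.Work.MP_0c7e55_an

section recur

variable {H K : Type*} [NormedAddCommGroup H] [NormedAddCommGroup K]
  (T V : H → H) (T' V' : K → K) (e : H → ℝ) (e' : K → ℝ) (ε : ℝ)

/-- the bilinear recursion -/
noncomputable def recI : ℕ → H → K → ℝ
  | 0, x, y => e x * e' y
  | L + 1, x, y => recI L (T x) (T' y) + ε * recI L (V x) (V' y)

@[simp] lemma recI_zero (x : H) (y : K) : recI T V T' V' e e' ε 0 x y = e x * e' y := rfl
lemma recI_succ (L : ℕ) (x : H) (y : K) : recI T V T' V' e e' ε (L + 1) x y =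
    recI T V T' V' e e' ε L (T x) (T' y) + ε * recI T V T' V' e e' ε L (V x) (V' y) := rfl

lemma two_cs (a b c d : ℝ) (ha : 0 ≤ a) (hb : 0 ≤ b) (hc : 0 ≤ c) (hd : 0 ≤ d) {x y : ℝ}
    (hx : 0 ≤ x) (hy : 0 ≤ y) (h1 : a ^ 2 + b ^ 2 ≤ x ^ 2) (h2 : c ^ 2 + d ^ 2 ≤ y ^ 2) :
    a * c + b * d ≤ x * y := by
  have h : (a * c + b * d) ^ 2 ≤ (x * y) ^ 2 := by
    calc (a * c + b * d) ^ 2 ≤ (a ^ 2 + b ^ 2) * (c ^ 2 + d ^ 2) := by
          nlinarith [sq_nonneg (a * d - b * c)]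
      _ ≤ x ^ 2 * y ^ 2 := by
          apply mul_le_mul h1 h2 (by positivity) (by positivity)
      _ = (x * y) ^ 2 := by ring
  exact abs_le_of_sq_le_sq' h (by positivity) |>.2

variable (hTV : ∀ x, ‖T x‖ ^ 2 + ‖V x‖ ^ 2 ≤ ‖x‖ ^ 2)
  (hTV' : ∀ x, ‖T' x‖ ^ 2 + ‖V' x‖ ^ 2 ≤ ‖x‖ ^ 2)
  (he : ∀ x, |e x| ≤ ‖x‖) (he' : ∀ x, |e' x| ≤ ‖x‖)
  (heT : ∀ x, e (T x) = e x) (heT' : ∀ x, e' (T' x) = e' x)
  (hε0 : 0 ≤ ε) (hε1 : ε ≤ 1)

include hTV hTV' he he' hε0 hε1 in
lemma recI_le (L : ℕ) (x : H) (y : K) : |recI T V T' V' e e' ε L x y| ≤ ‖x‖ * ‖y‖ := by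
  induction L generalizing x y with
  | zero =>
    rw [recI_zero, abs_mul]
    exact mul_le_mul (he x) (he' y) (abs_nonneg _) (norm_nonneg _)
  | succ L ih =>
    rw [recI_succ]
    calc |recI T V T' V' e e' ε L (T x) (T' y) + ε * recI T V T' V' e e' ε L (V x) (V' y)|
        ≤ |recI T V T' V' e e' ε L (T x) (T' y)| + |ε * recI T V T' V' e e' ε L (V x) (V' y)| :=
          abs_add_le _ _
      _ ≤ ‖T x‖ * ‖T' y‖ + ‖V x‖ * ‖V' y‖ := by
          apply add_le_add (ih _ _)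
          rw [abs_mul, abs_of_nonneg hε0]
          calc ε * |recI T V T' V' e e' ε L (V x) (V' y)| ≤ 1 * (‖V x‖ * ‖V' y‖) := by
                apply mul_le_mul hε1 (ih _ _) (abs_nonneg _) zero_le_one
            _ = _ := one_mul _
      _ ≤ ‖x‖ * ‖y‖ := two_cs _ _ _ _ (norm_nonneg _) (norm_nonneg _) (norm_nonneg _)
          (norm_nonneg _) (norm_nonneg _) (norm_nonneg _) (hTV x) (hTV' y)

include hTV in
lemma norm_iter_le (L : ℕ) (x : H) : ‖T^[L] x‖ ^ 2 ≤ ‖x‖ ^ 2 := by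
  induction L generalizing x with
  | zero => simp
  | succ L ih =>
    rw [Function.iterate_succ_apply]
    exact (ih (T x)).trans (by nlinarith [hTV x, sq_nonneg ‖V x‖])

include hTV hTV' he he' heT heT' hε0 hε1 in
/-- the covariance bound -/
lemma recI_cov (L : ℕ) (x : H) (y : K) :
    |recI T V T' V' e e' ε L x y - e x * e' y| ≤
      ε * (Real.sqrt (‖x‖ ^ 2 - ‖T^[L] x‖ ^ 2) * Real.sqrt (‖y‖ ^ 2 - ‖T'^[L] y‖ ^ 2)) := by
  induction L generalizing x y with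
  | zero => simp
  | succ L ih =>
    rw [recI_succ]
    have h1 := ih (T x) (T' y)
    rw [heT, heT'] at h1
    have h2 := recI_le T V T' V' e e' ε hTV hTV' he he' hε0 hε1 L (V x) (V' y)
    have hx : ‖T^[L] (T x)‖ ^ 2 ≤ ‖T x‖ ^ 2 := norm_iter_le T V hTV L (T x)
    have hy : ‖T'^[L] (T' y)‖ ^ 2 ≤ ‖T' y‖ ^ 2 := norm_iter_le T' V' hTV' L (T' y)
    rw [Function.iterate_succ_apply, Function.iterate_succ_apply]
    calc |recI T V T' V' e e' ε L (T x) (T' y) + ε * recI T V T' V' e e' ε L (V x) (V' y)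
          - e x * e' y|
        = |(recI T V T' V' e e' ε L (T x) (T' y) - e x * e' y)
            + ε * recI T V T' V' e e' ε L (V x) (V' y)| := by ring_nf
      _ ≤ |recI T V T' V' e e' ε L (T x) (T' y) - e x * e' y|
            + |ε * recI T V T' V' e e' ε L (V x) (V' y)| := abs_add_le _ _
      _ ≤ ε * (Real.sqrt (‖T x‖ ^ 2 - ‖T^[L] (T x)‖ ^ 2) *
            Real.sqrt (‖T' y‖ ^ 2 - ‖T'^[L] (T' y)‖ ^ 2)) + ε * (‖V x‖ * ‖V' y‖) := by
          apply add_le_add h1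
          rw [abs_mul, abs_of_nonneg hε0]
          exact mul_le_mul_of_nonneg_left h2 hε0
      _ = ε * (Real.sqrt (‖T x‖ ^ 2 - ‖T^[L] (T x)‖ ^ 2) *
            Real.sqrt (‖T' y‖ ^ 2 - ‖T'^[L] (T' y)‖ ^ 2) + ‖V x‖ * ‖V' y‖) := by ring
      _ ≤ _ := by
          apply mul_le_mul_of_nonneg_left _ hε0
          apply two_cs _ _ _ _ (Real.sqrt_nonneg _) (norm_nonneg _) (Real.sqrt_nonneg _)
            (norm_nonneg _) (Real.sqrt_nonneg _) (Real.sqrt_nonneg _)
          · rw [Real.sq_sqrt (by linarith), Real.sq_sqrt (by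
              have := hTV x; nlinarith [sq_nonneg ‖V x‖])]
            have := hTV x
            linarith
          · rw [Real.sq_sqrt (by linarith), Real.sq_sqrt (by
              have := hTV' y; nlinarith [sq_nonneg ‖V' y‖])]
            have := hTV' y
            linarith

include hTV hTV' he he' heT heT' hε0 hε1 in
lemma recI_cov' (L : ℕ) (x : H) (y : K) :
    |recI T V T' V' e e' ε L x y - e x * e' y| ≤ ε * (‖x‖ * ‖y‖) := by
  refine (recI_cov T V T' V' e e' ε hTV hTV' he he' heT heT' hε0 hε1 L x y).trans ?_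
  apply mul_le_mul_of_nonneg_left _ hε0
  apply mul_le_mul _ _ (Real.sqrt_nonneg _) (norm_nonneg _)
  · apply Real.sqrt_le_iff.2 ⟨norm_nonneg _, _⟩
    nlinarith [sq_nonneg ‖T^[L] x‖]
  · apply Real.sqrt_le_iff.2 ⟨norm_nonneg _, _⟩
    nlinarith [sq_nonneg ‖T'^[L] y‖]

include hTV hTV' he he' heT heT' hε0 hε1 in
/-- first order expansion with a quadratic error -/
lemma recI_second (L : ℕ) (x : H) (y : K) :
    |recI T V T' V' e e' ε L x y - e x * e' y
      - ε * ∑ n ∈ Finset.range L, e (V (T^[n] x)) * e' (V' (T'^[n] y))| ≤ ε ^ 2 * (‖x‖ * ‖y‖) := by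
  induction L generalizing x y with
  | zero => simp; positivity
  | succ L ih =>
    rw [recI_succ, Finset.sum_range_succ']
    have h1 := ih (T x) (T' y)
    rw [heT, heT'] at h1
    have h2 := recI_cov' T V T' V' e e' ε hTV hTV' he he' heT heT' hε0 hε1 L (V x) (V' y)
    simp only [Function.iterate_succ_apply, Function.iterate_zero, id_eq]
    set S := ∑ n ∈ Finset.range L, e (V (T^[n] (T x))) * e' (V' (T'^[n] (T' y)))
    set A := recI T V T' V' e e' ε L (T x) (T' y)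
    set B := recI T V T' V' e e' ε L (V x) (V' y)
    calc |A + ε * B - e x * e' y - ε * (S + e (V x) * e' (V' y))|
        = |(A - e x * e' y - ε * S) + ε * (B - e (V x) * e' (V' y))| := by ring_nf
      _ ≤ |A - e x * e' y - ε * S| + |ε * (B - e (V x) * e' (V' y))| := abs_add_le _ _
      _ ≤ ε ^ 2 * (‖T x‖ * ‖T' y‖) + ε * (ε * (‖V x‖ * ‖V' y‖)) := by
          apply add_le_add h1
          rw [abs_mul, abs_of_nonneg hε0]
          exact mul_le_mul_of_nonneg_left h2 hε0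
      _ = ε ^ 2 * (‖T x‖ * ‖T' y‖ + ‖V x‖ * ‖V' y‖) := by ring
      _ ≤ _ := by
          apply mul_le_mul_of_nonneg_left _ (sq_nonneg _)
          exact two_cs _ _ _ _ (norm_nonneg _) (norm_nonneg _) (norm_nonneg _)
            (norm_nonneg _) (norm_nonneg _) (norm_nonneg _) (hTV x) (hTV' y)

end recur

end Pool.Agent.Work.MP_0c7e55_an
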