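import Mathlib
import Pool.Agent.Work.MP_0c7e55_an.Recur

open MeasureTheory ENNReal InnerProductSpace

namespace Pool.Agent.Work.MP_0c7e55_an

section ops

variable {Ω : Type*} [MeasurableSpace Ω] (P : Measure Ω) [IsProbabilityMeasure P]

/-- a bounded measurable function is in L² -/
lemma memLp_of_bdd {f : Ω → ℝ} (hf : Measurable f) {C : ℝ} (hC : ∀ x, |f x| ≤ C) : MemLp f 2 P :=
  MemLp.of_bound hf.aestronglyMeasurable C (Filter.Eventually.of_forall hC)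

lemma inner_eq (f g : Lp ℝ 2 P) : ⟪f, g⟫_ℝ = ∫ x, f x * g x ∂P := by
  rw [L2.inner_def]
  simp [mul_comm]

/-- Koopman operator -/
noncomputable def Uop {Ω' : Type*} [MeasurableSpace Ω'] {Q : Measure Ω'} {P : Measure Ω}
    {σ : Ω → Ω'} (hσ : MeasurePreserving σ P Q) : Lp ℝ 2 Q →L[ℝ] Lp ℝ 2 P :=
  (Lp.compMeasurePreservingₗᵢ ℝ σ hσ).toContinuousLinearMap

lemma Uop_coe {Ω' : Type*} [MeasurableSpace Ω'] {Q : Measure Ω'} {P : Measure Ω}
    {σ : Ω → Ω'} (hσ : MeasurePreserving σ P Q) (f : Lp ℝ 2 Q) :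
    Uop hσ f =ᵐ[P] fun x => f (σ x) :=
  Lp.coeFn_compMeasurePreserving f hσ

lemma Uop_norm {Ω' : Type*} [MeasurableSpace Ω'] {Q : Measure Ω'} {P : Measure Ω}
    {σ : Ω → Ω'} (hσ : MeasurePreserving σ P Q) (f : Lp ℝ 2 Q) : ‖Uop hσ f‖ = ‖f‖ :=
  (Lp.compMeasurePreservingₗᵢ ℝ σ hσ).norm_map f

lemma Uop_inner {Ω' : Type*} [MeasurableSpace Ω'] {Q : Measure Ω'} {P : Measure Ω}
    {σ : Ω → Ω'} (hσ : MeasurePreserving σ P Q) (f g : Lp ℝ 2 Q) :
    ⟪Uop hσ f, Uop hσ g⟫_ℝ = ⟪f, g⟫_ℝ :=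
  (Lp.compMeasurePreservingₗᵢ ℝ σ hσ : Lp ℝ 2 Q →ₗᵢ[ℝ] Lp ℝ 2 P).inner_map_map f g

/-- adjoint of the Koopman operator -/
noncomputable def Top {Ω' : Type*} [MeasurableSpace Ω'] {Q : Measure Ω'} {P : Measure Ω}
    {σ : Ω → Ω'} (hσ : MeasurePreserving σ P Q) : Lp ℝ 2 P →L[ℝ] Lp ℝ 2 Q :=
  ContinuousLinearMap.adjoint (Uop hσ)

lemma Top_Uop {Ω' : Type*} [MeasurableSpace Ω'] {Q : Measure Ω'} {P : Measure Ω}
    {σ : Ω → Ω'} (hσ : MeasurePreserving σ P Q) (f : Lp ℝ 2 Q) : Top hσ (Uop hσ f) = f := by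
  apply ext_inner_right ℝ
  intro g
  rw [Top, ContinuousLinearMap.adjoint_inner_left, Uop_inner]

lemma Top_norm_le {Ω' : Type*} [MeasurableSpace Ω'] {Q : Measure Ω'} {P : Measure Ω}
    {σ : Ω → Ω'} (hσ : MeasurePreserving σ P Q) (f : Lp ℝ 2 P) : ‖Top hσ f‖ ≤ ‖f‖ := by
  have h : ‖Top hσ f‖ ^ 2 ≤ ‖f‖ * ‖Top hσ f‖ := by
    rw [← real_inner_self_eq_norm_sq]
    have h1 : ⟪Top hσ f, Top hσ f⟫_ℝ = ⟪f, Uop hσ (Top hσ f)⟫_ℝ :=
      ContinuousLinearMap.adjoint_inner_left (Uop hσ) (Top hσ f) f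
    rw [h1]
    refine (real_inner_le_norm _ _).trans ?_
    rw [Uop_norm]
  rcases (norm_nonneg (Top hσ f)).eq_or_lt with h0 | h0
  · rw [← h0]; exact norm_nonneg _
  · nlinarith

/-- the adjoint identity, tested against a bounded measurable function -/
lemma Top_integral {Ω' : Type*} [MeasurableSpace Ω'] {Q : Measure Ω'} [IsProbabilityMeasure Q]
    {σ : Ω → Ω'} (hσ : MeasurePreserving σ P Q) (f : Lp ℝ 2 P) {g : Ω' → ℝ} (hg : Measurable g)
    {C : ℝ} (hC : ∀ x, |g x| ≤ C) :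
    ∫ x, f x * g (σ x) ∂P = ∫ x, (Top hσ f) x * g x ∂Q := by
  set G : Lp ℝ 2 Q := (memLp_of_bdd Q hg hC).toLp g with hG
  have hGc : G =ᵐ[Q] g := MemLp.coeFn_toLp _
  have h1 : ⟪Top hσ f, G⟫_ℝ = ⟪f, Uop hσ G⟫_ℝ := by
    rw [Top, ContinuousLinearMap.adjoint_inner_left]
  rw [inner_eq, inner_eq] at h1
  have h2 : ∫ x, f x * (Uop hσ G) x ∂P = ∫ x, f x * g (σ x) ∂P := by
    apply integral_congr_ae
    filter_upwards [Uop_coe hσ G, hσ.quasiMeasurePreserving.ae_eq_comp hGc] with x hx hx'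
    rw [hx]
    simp only [Function.comp] at hx'
    rw [hx']
  have h3 : ∫ x, (Top hσ f) x * G x ∂Q = ∫ x, (Top hσ f) x * g x ∂Q := by
    apply integral_congr_ae
    filter_upwards [hGc] with x hx
    rw [hx]
  rw [← h2, ← h3, h1]

lemma mulMem {v : Ω → ℝ} (hv : Measurable v) (hv1 : ∀ x, |v x| ≤ 1) (f : Lp ℝ 2 P) :
    MemLp (fun x => v x * f x) 2 P :=
  MemLp.of_le_mul (c := 1) (Lp.memLp f) (hv.aestronglyMeasurable.mul (Lp.aestronglyMeasurable f))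
    (Filter.Eventually.of_forall (fun x => by
      rw [norm_mul]
      exact mul_le_mul_of_nonneg_right (hv1 x) (norm_nonneg _)))

/-- multiplication by a function bounded by one, as a linear map -/
noncomputable def Mlin {v : Ω → ℝ} (hv : Measurable v) (hv1 : ∀ x, |v x| ≤ 1) :
    Lp ℝ 2 P →ₗ[ℝ] Lp ℝ 2 P where
  toFun f := (mulMem P hv hv1 f).toLp (fun x => v x * f x)
  map_add' f g := by
    apply Lp.ext
    refine (MemLp.coeFn_toLp _).trans ?_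
    refine Filter.EventuallyEq.trans ?_ (Lp.coeFn_add _ _).symm
    filter_upwards [Lp.coeFn_add f g, MemLp.coeFn_toLp (mulMem P hv hv1 f),
      MemLp.coeFn_toLp (mulMem P hv hv1 g)] with x h1 h2 h3
    rw [h1, Pi.add_apply, Pi.add_apply, h2, h3]
    ring
  map_smul' c f := by
    apply Lp.ext
    refine (MemLp.coeFn_toLp _).trans ?_
    refine Filter.EventuallyEq.trans ?_ (Lp.coeFn_smul _ _).symm
    filter_upwards [Lp.coeFn_smul c f, MemLp.coeFn_toLp (mulMem P hv hv1 f)] with x h1 h2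
    rw [h1, Pi.smul_apply, Pi.smul_apply, h2]
    simp only [smul_eq_mul, RingHom.id_apply]
    ring

lemma Mlin_coe {v : Ω → ℝ} (hv : Measurable v) (hv1 : ∀ x, |v x| ≤ 1) (f : Lp ℝ 2 P) :
    Mlin P hv hv1 f =ᵐ[P] fun x => v x * f x :=
  MemLp.coeFn_toLp (mulMem P hv hv1 f)

lemma Mlin_norm_le {v : Ω → ℝ} (hv : Measurable v) (hv1 : ∀ x, |v x| ≤ 1) (f : Lp ℝ 2 P) :
    ‖Mlin P hv hv1 f‖ ≤ ‖f‖ := by
  apply Lp.norm_le_norm_of_ae_le
  filter_upwards [Mlin_coe P hv hv1 f] with x hx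
  rw [hx, norm_mul]
  calc ‖v x‖ * ‖f x‖ ≤ 1 * ‖f x‖ := mul_le_mul_of_nonneg_right (hv1 x) (norm_nonneg _)
    _ = ‖f x‖ := one_mul _

/-- multiplication by a function bounded by one -/
noncomputable def Mop {v : Ω → ℝ} (hv : Measurable v) (hv1 : ∀ x, |v x| ≤ 1) :
    Lp ℝ 2 P →L[ℝ] Lp ℝ 2 P :=
  LinearMap.mkContinuous (Mlin P hv hv1) 1 (fun f => by
    rw [one_mul]; exact Mlin_norm_le P hv hv1 f)

lemma Mop_coe {v : Ω → ℝ} (hv : Measurable v) (hv1 : ∀ x, |v x| ≤ 1) (f : Lp ℝ 2 P) :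
    Mop P hv hv1 f =ᵐ[P] fun x => v x * f x :=
  Mlin_coe P hv hv1 f

lemma Mop_norm_le {v : Ω → ℝ} (hv : Measurable v) (hv1 : ∀ x, |v x| ≤ 1) (f : Lp ℝ 2 P) :
    ‖Mop P hv hv1 f‖ ≤ ‖f‖ := by
  apply Lp.norm_le_norm_of_ae_le
  filter_upwards [Mop_coe P hv hv1 f] with x hx
  rw [hx, norm_mul]
  calc ‖v x‖ * ‖f x‖ ≤ 1 * ‖f x‖ := mul_le_mul_of_nonneg_right (hv1 x) (norm_nonneg _)
    _ = ‖f x‖ := one_mul _

/-- expectation as a functional on L² -/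
noncomputable def eop (f : Lp ℝ 2 P) : ℝ := ∫ x, f x ∂P

/-- the constant function one -/
noncomputable def one2 : Lp ℝ 2 P := (memLp_of_bdd P (measurable_const (a := (1 : ℝ))) (C := 1) (by simp)).toLp _

lemma one2_coe : one2 P =ᵐ[P] fun _ => (1 : ℝ) := MemLp.coeFn_toLp _

lemma eop_eq_inner (f : Lp ℝ 2 P) : eop P f = ⟪f, one2 P⟫_ℝ := by
  rw [inner_eq, eop]
  apply integral_congr_ae
  filter_upwards [one2_coe P] with x hx
  rw [hx, mul_one]

lemma eop_add (f g : Lp ℝ 2 P) : eop P (f + g) = eop P f + eop P g := by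
  rw [eop_eq_inner, eop_eq_inner, eop_eq_inner, inner_add_left]

lemma eop_smul (c : ℝ) (f : Lp ℝ 2 P) : eop P (c • f) = c * eop P f := by
  rw [eop_eq_inner, eop_eq_inner, inner_smul_left]
  simp

lemma one2_norm : ‖one2 P‖ = 1 := by
  have h : ⟪one2 P, one2 P⟫_ℝ = 1 := by
    rw [← eop_eq_inner, eop, integral_congr_ae (one2_coe P)]
    simp
  rw [real_inner_self_eq_norm_sq] at h
  nlinarith [norm_nonneg (one2 P)]

lemma eop_le (f : Lp ℝ 2 P) : |eop P f| ≤ ‖f‖ := by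
  rw [eop_eq_inner]
  refine (abs_real_inner_le_norm _ _).trans ?_
  rw [one2_norm, mul_one]

lemma eop_Top {Ω' : Type*} [MeasurableSpace Ω'] {Q : Measure Ω'} [IsProbabilityMeasure Q]
    {σ : Ω → Ω'} (hσ : MeasurePreserving σ P Q) (f : Lp ℝ 2 P) : eop Q (Top hσ f) = eop P f := by
  have := Top_integral P hσ f (measurable_const (a := (1 : ℝ))) (C := 1) (by simp)
  simp only [mul_one] at this
  exact this.symm

lemma Uop_one {Ω' : Type*} [MeasurableSpace Ω'] {Q : Measure Ω'} [IsProbabilityMeasure Q]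
    {σ : Ω → Ω'} (hσ : MeasurePreserving σ P Q) : Uop hσ (one2 Q) = one2 P := by
  apply Lp.ext
  filter_upwards [Uop_coe hσ (one2 Q), one2_coe P, hσ.quasiMeasurePreserving.ae_eq_comp (one2_coe Q)]
    with x h1 h2 h3
  rw [h1, h2]
  exact h3


section centred

variable {σ : Ω → Ω} (hσ : MeasurePreserving σ P P) {v : Ω → ℝ} (hv : Measurable v)
  (hv1 : ∀ x, |v x| ≤ 1)

/-- the operator `U^* M_v` -/
noncomputable def Vop : Lp ℝ 2 P →L[ℝ] Lp ℝ 2 P := (Top hσ).comp (Mop P hv hv1)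

lemma Vop_apply (f : Lp ℝ 2 P) : Vop P hσ hv hv1 f = Top hσ (Mop P hv hv1 f) := rfl

/-- `v` is centred given the future -/
def Centred (P : Measure Ω) (σ : Ω → Ω) (v : Ω → ℝ) : Prop :=
  ∀ k : Ω → ℝ, Integrable k P → ∫ ω, v ω * k (σ ω) ∂P = 0

lemma Vop_Uop (hc : Centred P σ v) (g : Lp ℝ 2 P) : Vop P hσ hv hv1 (Uop hσ g) = 0 := by
  apply ext_inner_right ℝ
  intro h
  rw [inner_zero_left, Vop_apply, Top, ContinuousLinearMap.adjoint_inner_left, inner_eq]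
  have h1 : Integrable (fun x => g x * h x) P := (Lp.memLp g).integrable_mul (Lp.memLp h)
  rw [← hc _ h1]
  apply integral_congr_ae
  filter_upwards [Mop_coe P hv hv1 (Uop hσ g), Uop_coe hσ g, Uop_coe hσ h] with x h1 h2 h3
  rw [h1, h2, h3]
  ring

lemma TV_contr (hc : Centred P σ v) (f : Lp ℝ 2 P) :
    ‖Top hσ f‖ ^ 2 + ‖Vop P hσ hv hv1 f‖ ^ 2 ≤ ‖f‖ ^ 2 := by
  set g := f - Uop hσ (Top hσ f) with hg
  have h1 : Vop P hσ hv hv1 f = Vop P hσ hv hv1 g := by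
    rw [hg, map_sub, Vop_Uop P hσ hv hv1 hc, sub_zero]
  have h2 : ‖Vop P hσ hv hv1 g‖ ≤ ‖g‖ := by
    rw [Vop_apply]
    refine (Top_norm_le hσ _).trans ?_
    exact Mlin_norm_le P hv hv1 g
  have h3 : ‖g‖ ^ 2 = ‖f‖ ^ 2 - ‖Top hσ f‖ ^ 2 := by
    rw [hg, norm_sub_sq_real, Uop_norm]
    have : ⟪f, Uop hσ (Top hσ f)⟫_ℝ = ‖Top hσ f‖ ^ 2 := by
      rw [← real_inner_self_eq_norm_sq]
      exact (ContinuousLinearMap.adjoint_inner_left (Uop hσ) (Top hσ f) f).symm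
    rw [this]
    ring
  rw [h1]
  have h4 : ‖Vop P hσ hv hv1 g‖ ^ 2 ≤ ‖g‖ ^ 2 := pow_le_pow_left₀ (norm_nonneg _) h2 2
  linarith

/-- `v` as an element of L² -/
noncomputable def vL : Lp ℝ 2 P := (memLp_of_bdd P hv hv1).toLp v

lemma vL_coe : vL P hv hv1 =ᵐ[P] v := MemLp.coeFn_toLp _

lemma Mop_one : Mop P hv hv1 (one2 P) = vL P hv hv1 := by
  apply Lp.ext
  filter_upwards [Mop_coe P hv hv1 (one2 P), one2_coe P, vL_coe P hv hv1] with x h1 h2 h3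
  rw [h1, h2, h3, mul_one]

lemma inner_vL_Uop (hc : Centred P σ v) (g : Lp ℝ 2 P) : ⟪vL P hv hv1, Uop hσ g⟫_ℝ = 0 := by
  rw [inner_eq]
  have h1 : Integrable (fun x => g x) P := (Lp.memLp g).integrable (by norm_num)
  rw [← hc _ h1]
  apply integral_congr_ae
  filter_upwards [vL_coe P hv hv1, Uop_coe hσ g] with x h1 h2
  rw [h1, h2]

lemma Vop_one (hc : Centred P σ v) : Vop P hσ hv hv1 (one2 P) = 0 := by
  rw [Vop_apply, Mop_one]
  apply ext_inner_right ℝ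
  intro h
  rw [inner_zero_left, Top, ContinuousLinearMap.adjoint_inner_left, inner_vL_Uop P hσ hv hv1 hc]

lemma Top_one : Top hσ (one2 P) = one2 P := by
  conv_lhs => rw [← Uop_one P hσ]
  exact Top_Uop hσ _

lemma eop_Vop (f : Lp ℝ 2 P) : eop P (Vop P hσ hv hv1 f) = ⟪vL P hv hv1, f⟫_ℝ := by
  rw [Vop_apply, eop_Top P hσ, eop, inner_eq]
  apply integral_congr_ae
  filter_upwards [Mop_coe P hv hv1 f, vL_coe P hv hv1] with x h1 h2
  rw [h1, h2]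

lemma inner_iter_Top (n : ℕ) (a f : Lp ℝ 2 P) : ⟪a, (Top hσ)^[n] f⟫_ℝ = ⟪(Uop hσ)^[n] a, f⟫_ℝ := by
  induction n generalizing a f with
  | zero => simp
  | succ n ih =>
    rw [Function.iterate_succ_apply, ih, Function.iterate_succ_apply']
    exact ContinuousLinearMap.adjoint_inner_right (Uop hσ) _ _

lemma eop_Vop_iter (n : ℕ) (f : Lp ℝ 2 P) :
    eop P (Vop P hσ hv hv1 ((Top hσ)^[n] f)) = ⟪(Uop hσ)^[n] (vL P hv hv1), f⟫_ℝ := by
  rw [eop_Vop, inner_iter_Top]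

lemma Uop_iter_inner (n : ℕ) (a b : Lp ℝ 2 P) :
    ⟪(Uop hσ)^[n] a, (Uop hσ)^[n] b⟫_ℝ = ⟪a, b⟫_ℝ := by
  induction n with
  | zero => simp
  | succ n ih =>
    rw [Function.iterate_succ_apply', Function.iterate_succ_apply', ← ih, Uop_inner]

/-- the coefficient sequence -/
noncomputable def coef (f : Lp ℝ 2 P) (n : ℕ) : ℝ := ⟪(Uop hσ)^[n] (vL P hv hv1), f⟫_ℝ

lemma inner_lag (hc : Centred P σ v) (f : Lp ℝ 2 P) (m n : ℕ) :
    ⟪(Uop hσ)^[n] (vL P hv hv1), (Uop hσ)^[m] f⟫_ℝ =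
      if m ≤ n then coef P hσ hv hv1 f (n - m) else 0 := by
  split_ifs with h
  · obtain ⟨k, rfl⟩ := Nat.exists_eq_add_of_le h
    rw [Function.iterate_add_apply, Uop_iter_inner, coef, Nat.add_sub_cancel_left]
  · obtain ⟨k, rfl⟩ : ∃ k, m = n + (k + 1) := ⟨m - n - 1, by omega⟩
    rw [Function.iterate_add_apply, Uop_iter_inner, Function.iterate_succ_apply',
      inner_vL_Uop P hσ hv hv1 hc]

lemma coef_summable (hc : Centred P σ v) (f : Lp ℝ 2 P) :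
    Summable (fun n => coef P hσ hv hv1 f n ^ 2) := by
  by_cases h0 : ‖vL P hv hv1‖ = 0
  · have h1 : vL P hv hv1 = 0 := norm_eq_zero.1 h0
    have h2 : ∀ n, coef P hσ hv hv1 f n = 0 := by
      intro n
      rw [coef, h1]
      have : (Uop hσ)^[n] (0 : Lp ℝ 2 P) = 0 := iterate_map_zero (Uop hσ) n
      rw [this, inner_zero_left]
    simp [h2, summable_zero]
  · have hn : ∀ n, ‖(Uop hσ)^[n] (vL P hv hv1)‖ = ‖vL P hv hv1‖ := by
      intro n
      have h := Uop_iter_inner P hσ n (vL P hv hv1) (vL P hv hv1)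
      rw [real_inner_self_eq_norm_sq, real_inner_self_eq_norm_sq] at h
      exact (sq_eq_sq₀ (norm_nonneg _) (norm_nonneg _)).1 h
    have hon : Orthonormal ℝ (fun n : ℕ => (‖vL P hv hv1‖⁻¹ : ℝ) • (Uop hσ)^[n] (vL P hv hv1)) := by
      constructor
      · intro j
        rw [norm_smul, hn, norm_inv, norm_norm, inv_mul_cancel₀ h0]
      · intro i j hij
        have hlt : ∀ i j : ℕ, i < j →
            ⟪(Uop hσ)^[i] (vL P hv hv1), (Uop hσ)^[j] (vL P hv hv1)⟫_ℝ = 0 := by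
          intro i j hij
          rw [inner_lag P hσ hv hv1 hc, if_neg (by omega)]
        show ⟪(‖vL P hv hv1‖⁻¹ : ℝ) • (Uop hσ)^[i] (vL P hv hv1),
          (‖vL P hv hv1‖⁻¹ : ℝ) • (Uop hσ)^[j] (vL P hv hv1)⟫_ℝ = 0
        rw [inner_smul_left, inner_smul_right]
        rcases lt_or_gt_of_ne hij with h' | h'
        · rw [hlt i j h']; simp
        · rw [real_inner_comm, hlt j i h']; simp
    have h1 := hon.inner_products_summable (x := f)
    have h2 := h1.mul_left (‖vL P hv hv1‖ ^ 2)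
    refine h2.congr fun n => ?_
    rw [inner_smul_left, coef]
    simp only [conj_trivial, Real.norm_eq_abs, sq_abs]
    rw [mul_pow, inv_pow]
    field_simp

end centred

end ops


end Pool.Agent.Work.MP_0c7e55_an
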