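import Mathlib
import Pool.Agent.Work.MP_0c7e55_an.Ops

open MeasureTheory ENNReal InnerProductSpace

namespace Pool.Agent.Work.MP_0c7e55_an

section coupling

variable {Ω Ω' : Type*} [MeasurableSpace Ω] [MeasurableSpace Ω']

/-- the coupling density -/
noncomputable def W (ε : ℝ) (σ : Ω → Ω) (v : Ω → ℝ) (τ : Ω' → Ω') (w : Ω' → ℝ) : ℕ → Ω → Ω' → ℝ
  | 0, _, _ => 1
  | L + 1, x, y => (1 + ε * (v x * w y)) * W ε σ v τ w L (σ x) (τ y)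

variable {ε : ℝ} {σ : Ω → Ω} {v : Ω → ℝ} {τ : Ω' → Ω'} {w : Ω' → ℝ}

lemma W_succ (L : ℕ) (x : Ω) (y : Ω') : W ε σ v τ w (L + 1) x y =
    (1 + ε * (v x * w y)) * W ε σ v τ w L (σ x) (τ y) := rfl

lemma factor_bd (hε0 : 0 ≤ ε) (hε1 : ε ≤ 1) {a b : ℝ} (ha : |a| ≤ 1) (hb : |b| ≤ 1) :
    0 ≤ 1 + ε * (a * b) ∧ 1 + ε * (a * b) ≤ 2 := by
  have h : |ε * (a * b)| ≤ 1 := by
    rw [abs_mul, abs_mul, abs_of_nonneg hε0]
    have : |a| * |b| ≤ 1 := mul_le_one₀ ha (abs_nonneg _) hb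
    calc ε * (|a| * |b|) ≤ 1 * 1 := mul_le_mul hε1 this (by positivity) zero_le_one
      _ = 1 := one_mul 1
  rw [abs_le] at h
  constructor <;> linarith [h.1, h.2]

lemma W_bd (hε0 : 0 ≤ ε) (hε1 : ε ≤ 1) (hv1 : ∀ x, |v x| ≤ 1) (hw1 : ∀ x, |w x| ≤ 1)
    (L : ℕ) (x : Ω) (y : Ω') : 0 ≤ W ε σ v τ w L x y ∧ W ε σ v τ w L x y ≤ 2 ^ L := by
  induction L generalizing x y with
  | zero => simp [W]
  | succ L ih =>
    rw [W_succ]
    obtain ⟨h1, h2⟩ := factor_bd hε0 hε1 (hv1 x) (hw1 y)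
    obtain ⟨h3, h4⟩ := ih (σ x) (τ y)
    refine ⟨mul_nonneg h1 h3, ?_⟩
    rw [pow_succ, mul_comm (2 ^ L)]
    exact mul_le_mul h2 h4 h3 (by norm_num)

lemma W_abs (hε0 : 0 ≤ ε) (hε1 : ε ≤ 1) (hv1 : ∀ x, |v x| ≤ 1) (hw1 : ∀ x, |w x| ≤ 1)
    (L : ℕ) (x : Ω) (y : Ω') : |W ε σ v τ w L x y| ≤ 2 ^ L := by
  have := W_bd (σ := σ) (τ := τ) hε0 hε1 hv1 hw1 L x y
  rw [abs_of_nonneg this.1]
  exact this.2

lemma W_meas (hw : Measurable w) (hτ : Measurable τ) (L : ℕ) (x : Ω) :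
    Measurable (fun y => W ε σ v τ w L x y) := by
  induction L generalizing x with
  | zero => exact measurable_const
  | succ L ih =>
    have h1 := (ih (σ x)).comp hτ
    simp only [W_succ]
    exact ((hw.const_mul (v x)).const_mul ε |>.const_add 1).mul h1

variable (P : Measure Ω) (Q : Measure Ω') [IsProbabilityMeasure P] [IsProbabilityMeasure Q]

/-- integral of the density against a function of the second variable -/
noncomputable def Gf (ε : ℝ) (σ : Ω → Ω) (v : Ω → ℝ) (τ : Ω' → Ω') (w : Ω' → ℝ) (L : ℕ)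
    (Ψ : Ω' → ℝ) (x : Ω) : ℝ := ∫ y, Ψ y * W ε σ v τ w L x y ∂Q

variable (hε0 : 0 ≤ ε) (hε1 : ε ≤ 1) (hσ : MeasurePreserving σ P P) (hτ : MeasurePreserving τ Q Q)
  (hv : Measurable v) (hw : Measurable w) (hv1 : ∀ x, |v x| ≤ 1) (hw1 : ∀ x, |w x| ≤ 1)

include hε0 hε1 hv1 in
lemma Gf_succ (L : ℕ) (Ψ : Lp ℝ 2 Q) (x : Ω) :
    Gf Q ε σ v τ w (L + 1) Ψ x = Gf Q ε σ v τ w L (Top hτ Ψ) (σ x) +
      ε * (v x * Gf Q ε σ v τ w L (Vop Q hτ hw hw1 Ψ) (σ x)) := by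
  have hb := W_abs (σ := σ) (τ := τ) hε0 hε1 hv1 hw1 L (σ x)
  have hm := W_meas (ε := ε) (σ := σ) (v := v) hw hτ.measurable L (σ x)
  have h1 := Top_integral Q hτ Ψ hm hb
  have h2 := Top_integral Q hτ (Mop Q hw hw1 Ψ) hm hb
  unfold Gf
  rw [← h1, Vop_apply, ← h2]
  have i1 : Integrable (fun y => Ψ y * W ε σ v τ w L (σ x) (τ y)) Q := by
    have hi : Integrable Ψ Q := (Lp.memLp Ψ).integrable (by norm_num)
    exact hi.mul_bdd (hm.comp hτ.measurable).aestronglyMeasurable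
      (Filter.Eventually.of_forall fun y => hb (τ y))
  have i2 : Integrable (fun y => (Mop Q hw hw1 Ψ) y * W ε σ v τ w L (σ x) (τ y)) Q := by
    have hi : Integrable (Mop Q hw hw1 Ψ) Q := (Lp.memLp _).integrable (by norm_num)
    exact hi.mul_bdd (hm.comp hτ.measurable).aestronglyMeasurable
      (Filter.Eventually.of_forall fun y => hb (τ y))
  rw [← integral_const_mul, ← integral_const_mul, ← integral_add i1 ((i2.const_mul _).const_mul _)]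
  apply integral_congr_ae
  filter_upwards [Mop_coe Q hw hw1 Ψ] with y hy
  rw [W_succ, hy]
  ring

lemma Gf_zero (Ψ : Ω' → ℝ) (x : Ω) : Gf Q ε σ v τ w 0 Ψ x = ∫ y, Ψ y ∂Q := by
  simp [Gf, W]

include hε0 hε1 hτ hw hv1 hw1 hσ hv in
lemma Gf_meas (L : ℕ) (Ψ : Lp ℝ 2 Q) : Measurable (Gf Q ε σ v τ w L Ψ) := by
  induction L generalizing Ψ with
  | zero =>
    have : Gf Q ε σ v τ w 0 Ψ = fun _ => ∫ y, Ψ y ∂Q := funext fun x => Gf_zero Q _ x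
    rw [this]
    exact measurable_const
  | succ L ih =>
    have : Gf Q ε σ v τ w (L + 1) Ψ = fun x => Gf Q ε σ v τ w L (Top hτ Ψ) (σ x) +
      ε * (v x * Gf Q ε σ v τ w L (Vop Q hτ hw hw1 Ψ) (σ x)) :=
      funext fun x => Gf_succ Q hε0 hε1 hτ hw hv1 hw1 L Ψ x
    rw [this]
    exact ((ih _).comp hσ.measurable).add ((hv.mul ((ih _).comp hσ.measurable)).const_mul ε)

include hε0 hε1 hv1 hw1 in
lemma Gf_bd (L : ℕ) (Ψ : Lp ℝ 2 Q) (x : Ω) :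
    |Gf Q ε σ v τ w L Ψ x| ≤ 2 ^ L * ∫ y, |Ψ y| ∂Q := by
  unfold Gf
  rw [← integral_const_mul, ← Real.norm_eq_abs]
  have hi : Integrable Ψ Q := (Lp.memLp Ψ).integrable (by norm_num)
  refine norm_integral_le_of_norm_le (hi.abs.const_mul _) (Filter.Eventually.of_forall fun y => ?_)
  rw [norm_mul, mul_comm]
  exact mul_le_mul_of_nonneg_right (W_abs hε0 hε1 hv1 hw1 L x y) (norm_nonneg _)

/-- the bilinear form of the coupling -/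
noncomputable def II (ε : ℝ) (L : ℕ) (Φ : Lp ℝ 2 P) (Ψ : Lp ℝ 2 Q) : ℝ :=
  recI (Top hσ) (Vop P hσ hv hv1) (Top hτ) (Vop Q hτ hw hw1) (eop P) (eop Q) ε L Φ Ψ

include hε0 hε1 in
/-- the recursion computes the integral of the coupling density -/
lemma II_eq (L : ℕ) (Φ : Lp ℝ 2 P) (Ψ : Lp ℝ 2 Q) :
    II P Q hσ hτ hv hw hv1 hw1 ε L Φ Ψ = ∫ x, Φ x * Gf Q ε σ v τ w L Ψ x ∂P := by
  induction L generalizing Φ Ψ with
  | zero =>
    rw [II, recI_zero]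
    simp only [Gf_zero]
    rw [integral_mul_const]
    rfl
  | succ L ih =>
    rw [II, recI_succ]
    have e1 := ih (Top hσ Φ) (Top hτ Ψ)
    have e2 := ih (Vop P hσ hv hv1 Φ) (Vop Q hτ hw hw1 Ψ)
    rw [II] at e1 e2
    rw [e1, e2]
    have m1 := Gf_meas P Q hε0 hε1 hσ hτ hv hw hv1 hw1 L (Top hτ Ψ)
    have m2 := Gf_meas P Q hε0 hε1 hσ hτ hv hw hv1 hw1 L (Vop Q hτ hw hw1 Ψ)
    have b1 := Gf_bd (σ := σ) (τ := τ) Q hε0 hε1 hv1 hw1 L (Top hτ Ψ)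
    have b2 := Gf_bd (σ := σ) (τ := τ) Q hε0 hε1 hv1 hw1 L (Vop Q hτ hw hw1 Ψ)
    rw [← Top_integral P hσ Φ m1 b1, Vop_apply,
      ← Top_integral P hσ (Mop P hv hv1 Φ) m2 b2, ← integral_const_mul]
    rw [← integral_add]
    · apply integral_congr_ae
      filter_upwards [Mop_coe P hv hv1 Φ] with x hx
      rw [Gf_succ Q hε0 hε1 hτ hw hv1 hw1, hx]
      ring
    · have hi : Integrable Φ P := (Lp.memLp Φ).integrable (by norm_num)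
      exact hi.mul_bdd (m1.comp hσ.measurable).aestronglyMeasurable
        (Filter.Eventually.of_forall fun y => b1 (σ y))
    · have hi : Integrable (Mop P hv hv1 Φ) P := (Lp.memLp _).integrable (by norm_num)
      refine Integrable.const_mul ?_ _
      exact hi.mul_bdd (m2.comp hσ.measurable).aestronglyMeasurable
        (Filter.Eventually.of_forall fun y => b2 (σ y))

lemma II_add_right (L : ℕ) (Φ : Lp ℝ 2 P) (Ψ Ψ' : Lp ℝ 2 Q) :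
    II P Q hσ hτ hv hw hv1 hw1 ε L Φ (Ψ + Ψ') =
      II P Q hσ hτ hv hw hv1 hw1 ε L Φ Ψ + II P Q hσ hτ hv hw hv1 hw1 ε L Φ Ψ' := by
  unfold II
  induction L generalizing Φ Ψ Ψ' with
  | zero =>
    rw [recI_zero, recI_zero, recI_zero, eop_add]
    ring
  | succ L ih =>
    rw [recI_succ, recI_succ, recI_succ, map_add, map_add, ih, ih]
    ring

lemma II_smul_right (L : ℕ) (c : ℝ) (Φ : Lp ℝ 2 P) (Ψ : Lp ℝ 2 Q) :
    II P Q hσ hτ hv hw hv1 hw1 ε L Φ (c • Ψ) = c * II P Q hσ hτ hv hw hv1 hw1 ε L Φ Ψ := by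
  unfold II
  induction L generalizing Φ Ψ with
  | zero =>
    rw [recI_zero, recI_zero, eop_smul]
    ring
  | succ L ih =>
    rw [recI_succ, recI_succ, map_smul, map_smul, ih, ih]
    ring

lemma II_add_left (L : ℕ) (Φ Φ' : Lp ℝ 2 P) (Ψ : Lp ℝ 2 Q) :
    II P Q hσ hτ hv hw hv1 hw1 ε L (Φ + Φ') Ψ =
      II P Q hσ hτ hv hw hv1 hw1 ε L Φ Ψ + II P Q hσ hτ hv hw hv1 hw1 ε L Φ' Ψ := by
  unfold II
  induction L generalizing Φ Φ' Ψ with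
  | zero =>
    rw [recI_zero, recI_zero, recI_zero, eop_add]
    ring
  | succ L ih =>
    rw [recI_succ, recI_succ, recI_succ, map_add, map_add, ih, ih]
    ring

lemma II_smul_left (L : ℕ) (c : ℝ) (Φ : Lp ℝ 2 P) (Ψ : Lp ℝ 2 Q) :
    II P Q hσ hτ hv hw hv1 hw1 ε L (c • Φ) Ψ = c * II P Q hσ hτ hv hw hv1 hw1 ε L Φ Ψ := by
  unfold II
  induction L generalizing Φ Ψ with
  | zero =>
    rw [recI_zero, recI_zero, eop_smul]
    ring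
  | succ L ih =>
    rw [recI_succ, recI_succ, map_smul, map_smul, ih, ih]
    ring

lemma II_zero_left (L : ℕ) (Ψ : Lp ℝ 2 Q) : II P Q hσ hτ hv hw hv1 hw1 ε L 0 Ψ = 0 := by
  have := II_smul_left (ε := ε) P Q hσ hτ hv hw hv1 hw1 L 0 0 Ψ
  simpa using this

lemma II_zero_right (L : ℕ) (Φ : Lp ℝ 2 P) : II P Q hσ hτ hv hw hv1 hw1 ε L Φ 0 = 0 := by
  have := II_smul_right (ε := ε) P Q hσ hτ hv hw hv1 hw1 L 0 Φ 0
  simpa using this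

lemma II_one_left (hc : Centred P σ v) (L : ℕ) (Ψ : Lp ℝ 2 Q) :
    II P Q hσ hτ hv hw hv1 hw1 ε L (one2 P) Ψ = eop Q Ψ := by
  induction L generalizing Ψ with
  | zero =>
    rw [II, recI_zero, eop_eq_inner, real_inner_self_eq_norm_sq, one2_norm]
    ring
  | succ L ih =>
    rw [II, recI_succ, Top_one, Vop_one P hσ hv hv1 hc]
    have e1 := ih (Top hτ Ψ)
    have e2 := II_zero_left (ε := ε) P Q hσ hτ hv hw hv1 hw1 L (Vop Q hτ hw hw1 Ψ)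
    rw [II] at e1 e2
    rw [e1, e2, eop_Top Q hτ]
    ring

include hε0 hε1 in
/-- covariance bound -/
lemma II_cov (hc : Centred P σ v) (hc' : Centred Q τ w) (L : ℕ) (Φ : Lp ℝ 2 P) (Ψ : Lp ℝ 2 Q) :
    |II P Q hσ hτ hv hw hv1 hw1 ε L Φ Ψ - eop P Φ * eop Q Ψ| ≤
      Real.sqrt (‖Φ‖ ^ 2 - ‖(Top hσ)^[L] Φ‖ ^ 2) * ‖Ψ‖ := by
  have h := recI_cov (Top hσ) (Vop P hσ hv hv1) (Top hτ) (Vop Q hτ hw hw1) (eop P) (eop Q) ε
    (TV_contr P hσ hv hv1 hc) (TV_contr Q hτ hw hw1 hc') (eop_le P) (eop_le Q)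
    (eop_Top P hσ) (eop_Top Q hτ) hε0 hε1 L Φ Ψ
  refine h.trans ?_
  have h2 : Real.sqrt (‖Ψ‖ ^ 2 - ‖(Top hτ)^[L] Ψ‖ ^ 2) ≤ ‖Ψ‖ := by
    apply Real.sqrt_le_iff.2 ⟨norm_nonneg _, _⟩
    nlinarith [sq_nonneg ‖(Top hτ)^[L] Ψ‖]
  calc ε * (Real.sqrt (‖Φ‖ ^ 2 - ‖(Top hσ)^[L] Φ‖ ^ 2) * Real.sqrt (‖Ψ‖ ^ 2 - ‖(Top hτ)^[L] Ψ‖ ^ 2))
      ≤ 1 * (Real.sqrt (‖Φ‖ ^ 2 - ‖(Top hσ)^[L] Φ‖ ^ 2) * ‖Ψ‖) := by
        apply mul_le_mul hε1 _ (by positivity) zero_le_one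
        exact mul_le_mul_of_nonneg_left h2 (Real.sqrt_nonneg _)
    _ = _ := one_mul _

include hε0 hε1 in
/-- first order expansion -/
lemma II_second (hc : Centred P σ v) (hc' : Centred Q τ w) (L : ℕ) (Φ : Lp ℝ 2 P) (Ψ : Lp ℝ 2 Q) :
    |II P Q hσ hτ hv hw hv1 hw1 ε L Φ Ψ - eop P Φ * eop Q Ψ
      - ε * ∑ n ∈ Finset.range L, ⟪(Uop hσ)^[n] (vL P hv hv1), Φ⟫_ℝ *
        ⟪(Uop hτ)^[n] (vL Q hw hw1), Ψ⟫_ℝ| ≤ ε ^ 2 * (‖Φ‖ * ‖Ψ‖) := by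
  have h := recI_second (Top hσ) (Vop P hσ hv hv1) (Top hτ) (Vop Q hτ hw hw1) (eop P) (eop Q) ε
    (TV_contr P hσ hv hv1 hc) (TV_contr Q hτ hw hw1 hc') (eop_le P) (eop_le Q)
    (eop_Top P hσ) (eop_Top Q hτ) hε0 hε1 L Φ Ψ
  simp only [eop_Vop_iter] at h
  exact h

end coupling

end Pool.Agent.Work.MP_0c7e55_an
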