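import Mathlib
import Pool.Agent.Work.MP_0c7e55_an.Coupling

open MeasureTheory ENNReal InnerProductSpace

namespace Pool.Agent.Work.MP_0c7e55_an

section toL2

variable {X : Type*} [MeasurableSpace X]

open Classical in
/-- the L² class of a function (zero if it is not square integrable) -/
noncomputable def toL2 (μ : Measure X) (φ : X → ℝ) : Lp ℝ 2 μ :=
  if h : MemLp φ 2 μ then h.toLp φ else 0

variable {μ : Measure X}

lemma toL2_coe {φ : X → ℝ} (h : MemLp φ 2 μ) : toL2 μ φ =ᵐ[μ] φ := by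
  rw [toL2, dif_pos h]
  exact MemLp.coeFn_toLp h

lemma eq_toL2 {f : Lp ℝ 2 μ} {φ : X → ℝ} (h : MemLp φ 2 μ) (hf : f =ᵐ[μ] φ) : f = toL2 μ φ :=
  Lp.ext (hf.trans (toL2_coe h).symm)

lemma toL2_add {φ ψ : X → ℝ} (h : MemLp φ 2 μ) (h' : MemLp ψ 2 μ) :
    toL2 μ (fun x => φ x + ψ x) = toL2 μ φ + toL2 μ ψ := by
  symm
  apply eq_toL2 (h.add h')
  filter_upwards [Lp.coeFn_add (toL2 μ φ) (toL2 μ ψ), toL2_coe h, toL2_coe h'] with x h1 h2 h3
  rw [h1, Pi.add_apply, h2, h3]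
  rfl

lemma toL2_smul (c : ℝ) {φ : X → ℝ} (h : MemLp φ 2 μ) :
    toL2 μ (fun x => c * φ x) = c • toL2 μ φ := by
  symm
  apply eq_toL2 (h.const_mul c)
  filter_upwards [Lp.coeFn_smul c (toL2 μ φ), toL2_coe h] with x h1 h2
  rw [h1, Pi.smul_apply, h2]
  rfl

lemma toL2_sum {ι : Type*} (s : Finset ι) (c : ι → ℝ) (φ : ι → X → ℝ)
    (h : ∀ i, MemLp (φ i) 2 μ) :
    toL2 μ (fun x => ∑ i ∈ s, c i * φ i x) = ∑ i ∈ s, c i • toL2 μ (φ i) := by
  classical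
  induction s using Finset.induction_on with
  | empty =>
    simp only [Finset.sum_empty]
    symm
    apply eq_toL2 (MemLp.zero' )
    exact Lp.coeFn_zero ℝ 2 μ
  | insert a s ha ih =>
    simp only [Finset.sum_insert ha]
    have h2 : MemLp (fun x => ∑ i ∈ s, c i * φ i x) 2 μ :=
      memLp_finsetSum s (fun i _ => (h i).const_mul (c i))
    rw [toL2_add ((h a).const_mul (c a)) h2, ih, toL2_smul _ (h a)]

lemma eop_toL2 [IsProbabilityMeasure μ] {φ : X → ℝ} (h : MemLp φ 2 μ) :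
    eop μ (toL2 μ φ) = ∫ x, φ x ∂μ := integral_congr_ae (toL2_coe h)

lemma norm_toL2_sq {φ : X → ℝ} (h : MemLp φ 2 μ) :
    ‖toL2 μ φ‖ ^ 2 = ∫ x, φ x ^ 2 ∂μ := by
  rw [← real_inner_self_eq_norm_sq, L2.inner_def]
  apply integral_congr_ae
  filter_upwards [toL2_coe h] with x hx
  rw [hx]
  simp [sq]

lemma norm_toL2_le_one [IsProbabilityMeasure μ] {φ : X → ℝ} (hφ : Measurable φ)
    (h1 : ∀ x, |φ x| ≤ 1) : ‖toL2 μ φ‖ ≤ 1 := by
  have h := norm_toL2_sq (memLp_of_bdd μ hφ h1)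
  have h2 : ∫ x, φ x ^ 2 ∂μ ≤ 1 := by
    have : ∫ x, φ x ^ 2 ∂μ ≤ ∫ x, (1 : ℝ) ∂μ := by
      apply integral_mono_of_nonneg (Filter.Eventually.of_forall fun x => sq_nonneg _)
        (integrable_const _)
      exact Filter.Eventually.of_forall fun x => by
        show φ x ^ 2 ≤ 1
        rw [← sq_abs]
        exact pow_le_one₀ (abs_nonneg _) (h1 x)
    simpa using this
  nlinarith [norm_nonneg (toL2 μ φ)]

lemma Uop_toL2 {Z : Type*} [MeasurableSpace Z] {Q : Measure Z} {π : X → Z}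
    (hπ : MeasurePreserving π μ Q) {φ : Z → ℝ} (h : MemLp φ 2 Q) :
    Uop hπ (toL2 Q φ) = toL2 μ (fun x => φ (π x)) := by
  apply eq_toL2 (h.comp_measurePreserving hπ)
  filter_upwards [Uop_coe hπ (toL2 Q φ), hπ.quasiMeasurePreserving.ae_eq_comp (toL2_coe h)]
    with x h1 h2
  rw [h1]
  exact h2

end toL2

section kernel

variable {X Y Ω Ω' ι : Type*} [MeasurableSpace X] [MeasurableSpace Y] [MeasurableSpace Ω]
  [MeasurableSpace Ω'] {μ : Measure X} {ν : Measure Y} {P : Measure Ω} {Q : Measure Ω'}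
  [IsProbabilityMeasure μ] [IsProbabilityMeasure ν] [IsProbabilityMeasure P]
  [IsProbabilityMeasure Q] {π : X → Ω} {π' : Y → Ω'} (hπ : MeasurePreserving π μ P)
  (hπ' : MeasurePreserving π' ν Q) {ε : ℝ} {σ : Ω → Ω} {v : Ω → ℝ} {τ : Ω' → Ω'} {w : Ω' → ℝ}
  (hε0 : 0 ≤ ε) (hε1 : ε ≤ 1) (hσ : MeasurePreserving σ P P) (hτ : MeasurePreserving τ Q Q)
  (hv : Measurable v) (hw : Measurable w) (hv1 : ∀ x, |v x| ≤ 1) (hw1 : ∀ x, |w x| ≤ 1)

/-- the bilinear form of the coupling, lifted to the extensions -/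
noncomputable def JJ (ε : ℝ) (L : ℕ) (Φ : Lp ℝ 2 μ) (Ψ : Lp ℝ 2 ν) : ℝ :=
  II P Q hσ hτ hv hw hv1 hw1 ε L (Top hπ Φ) (Top hπ' Ψ)

include hε0 hε1 in
lemma JJ_eq (L : ℕ) (Φ : Lp ℝ 2 μ) (Ψ : Lp ℝ 2 ν) :
    JJ hπ hπ' hσ hτ hv hw hv1 hw1 ε L Φ Ψ =
      ∫ x, Φ x * Gf Q ε σ v τ w L (Top hπ' Ψ) (π x) ∂μ := by
  rw [JJ, II_eq P Q hε0 hε1 hσ hτ hv hw hv1 hw1]
  symm
  exact Top_integral μ hπ Φ (Gf_meas P Q hε0 hε1 hσ hτ hv hw hv1 hw1 L (Top hπ' Ψ))
    (Gf_bd (σ := σ) (τ := τ) Q hε0 hε1 hv1 hw1 L (Top hπ' Ψ))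

include hε0 hε1 hτ hw hv1 hw1 in
lemma Gf_nonneg (L : ℕ) {ψ : Y → ℝ} (hψ : MemLp ψ 2 ν) (h0 : ∀ y, 0 ≤ ψ y) (z : Ω) :
    0 ≤ Gf Q ε σ v τ w L (Top hπ' (toL2 ν ψ)) z := by
  have hb := W_abs (σ := σ) (τ := τ) hε0 hε1 hv1 hw1 L z
  have hm := W_meas (ε := ε) (σ := σ) (v := v) hw hτ.measurable L z
  have h1 := Top_integral ν hπ' (toL2 ν ψ) hm hb
  unfold Gf
  rw [← h1]
  apply integral_nonneg_of_ae
  filter_upwards [toL2_coe hψ] with y hy
  rw [hy]
  exact mul_nonneg (h0 y) (W_bd hε0 hε1 hv1 hw1 L z (π' y)).1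

lemma memLp_indicator {s : Set Y} (hs : MeasurableSet s) :
    MemLp (s.indicator (fun _ => (1 : ℝ))) 2 ν :=
  memLp_of_bdd ν (measurable_const.indicator hs) (C := 1) (fun y => by
    by_cases h : y ∈ s <;> simp [h])

include hε0 hε1 in
/-- existence of the conditional measures of the coupling -/
theorem raw_kernel (hc : Centred P σ v) (L : ℕ) {R : Y → ι}
    (hR : ∀ i, MeasurableSet (R ⁻¹' {i})) :
    ∃ κ : ι → Measure X, (∀ i, IsProbabilityMeasure (κ i)) ∧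
      ∀ i (φ : X → ℝ), Measurable φ → (∃ C, ∀ x, |φ x| ≤ C) →
        ν.real (R ⁻¹' {i}) * ∫ x, φ x ∂(κ i) =
          JJ hπ hπ' hσ hτ hv hw hv1 hw1 ε L (toL2 μ φ)
            (toL2 ν ((R ⁻¹' {i}).indicator (fun _ => (1 : ℝ)))) := by
  classical
  have main : ∀ i, ∃ κ : Measure X, IsProbabilityMeasure κ ∧
      ∀ (φ : X → ℝ), Measurable φ → (∃ C, ∀ x, |φ x| ≤ C) →
        ν.real (R ⁻¹' {i}) * ∫ x, φ x ∂κ =
          JJ hπ hπ' hσ hτ hv hw hv1 hw1 ε L (toL2 μ φ)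
            (toL2 ν ((R ⁻¹' {i}).indicator (fun _ => (1 : ℝ)))) := by
    intro i
    set s := R ⁻¹' {i} with hs
    have hms : MeasurableSet s := hR i
    by_cases h0 : ν.real s = 0
    · refine ⟨μ, inferInstance, fun φ _ _ => ?_⟩
      have : toL2 ν (s.indicator (fun _ => (1 : ℝ))) = 0 := by
        symm
        apply eq_toL2 (memLp_indicator hms)
        have h1 : ν s = 0 := (measureReal_eq_zero_iff).1 h0
        have h2 : s.indicator (fun _ => (1 : ℝ)) =ᵐ[ν] 0 := by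
          have h3 : ∀ᵐ y ∂ν, y ∉ s := measure_eq_zero_iff_ae_notMem.1 h1
          filter_upwards [h3] with y hy
          simp [hy]
        exact (Lp.coeFn_zero ℝ 2 ν).trans h2.symm
      rw [h0, this, JJ, map_zero, II_zero_right, zero_mul]
    · set Ψ := toL2 ν (s.indicator (fun _ => (1 : ℝ))) with hΨ
      set d : X → ℝ := fun x => Gf Q ε σ v τ w L (Top hπ' Ψ) (π x) / ν.real s with hd
      have hpos : 0 < ν.real s := lt_of_le_of_ne measureReal_nonneg (Ne.symm h0)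
      have hdm : Measurable d :=
        ((Gf_meas P Q hε0 hε1 hσ hτ hv hw hv1 hw1 L (Top hπ' Ψ)).comp hπ.measurable).div_const _
      have hd0 : ∀ x, 0 ≤ d x := fun x => div_nonneg
        (Gf_nonneg hπ' hε0 hε1 hτ hw hv1 hw1 L (memLp_indicator hms)
          (fun y => Set.indicator_nonneg (fun _ _ => zero_le_one) y) _) hpos.le
      have hdb : ∃ C, ∀ x, |d x| ≤ C := by
        refine ⟨(2 ^ L * ∫ y, |(Top hπ' Ψ) y| ∂Q) / ν.real s, fun x => ?_⟩
        rw [hd, abs_div, abs_of_pos hpos]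
        apply div_le_div_of_nonneg_right _ hpos.le
        exact Gf_bd (σ := σ) (τ := τ) Q hε0 hε1 hv1 hw1 L (Top hπ' Ψ) (π x)
      obtain ⟨C, hC⟩ := hdb
      have hdi : Integrable d μ := Integrable.of_bound hdm.aestronglyMeasurable C
        (Filter.Eventually.of_forall hC)
      have hint : ∀ (φ : X → ℝ), Measurable φ → (∃ C, ∀ x, |φ x| ≤ C) →
          ν.real s * ∫ x, φ x ∂(μ.withDensity (fun x => ENNReal.ofReal (d x))) =
          JJ hπ hπ' hσ hτ hv hw hv1 hw1 ε L (toL2 μ φ) Ψ := by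
        rintro φ hφ ⟨C', hC'⟩
        rw [integral_withDensity_eq_integral_toReal_smul hdm.ennreal_ofReal
          (Filter.Eventually.of_forall fun x => ENNReal.ofReal_lt_top), JJ_eq hπ hπ' hε0 hε1,
          ← integral_const_mul]
        apply integral_congr_ae
        filter_upwards [toL2_coe (memLp_of_bdd μ hφ hC')] with x hx
        rw [hx, ENNReal.toReal_ofReal (hd0 x), hd, smul_eq_mul]
        field_simp
      refine ⟨μ.withDensity (fun x => ENNReal.ofReal (d x)), ⟨?_⟩, hint⟩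
      have hone : ∫ x, d x ∂μ = 1 := by
        have h1 := hint (fun _ => 1) measurable_const ⟨1, by simp⟩
        rw [integral_withDensity_eq_integral_toReal_smul hdm.ennreal_ofReal
          (Filter.Eventually.of_forall fun x => ENNReal.ofReal_lt_top)] at h1
        have h2 : toL2 μ (fun _ => (1 : ℝ)) = one2 μ :=
          (eq_toL2 (memLp_of_bdd μ measurable_const (C := 1) (by simp)) (one2_coe μ)).symm
        have h3 : Top hπ (one2 μ) = one2 P := by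
          rw [← Uop_one μ hπ]; exact Top_Uop hπ _
        rw [JJ, h2, h3, II_one_left P Q hσ hτ hv hw hv1 hw1 hc, eop_Top ν hπ',
          eop_toL2 (memLp_indicator hms), integral_indicator hms] at h1
        simp only [ENNReal.toReal_ofReal (hd0 _), smul_eq_mul, mul_one, integral_const,
          MeasurableSet.univ, measureReal_restrict_apply, Set.univ_inter] at h1
        have h4 : ν.real s * ∫ x, d x ∂μ = ν.real s * 1 := by rw [h1, mul_one]
        exact mul_left_cancel₀ h0 h4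
      rw [withDensity_apply _ MeasurableSet.univ, Measure.restrict_univ,
        ← ofReal_integral_eq_lintegral_ofReal hdi (Filter.Eventually.of_forall hd0), hone,
        ENNReal.ofReal_one]
  choose κ h1 h2 using main
  exact ⟨κ, h1, h2⟩


lemma JJ_sum_right (L : ℕ) (Φ : Lp ℝ 2 μ) {κ : Type*} (s : Finset κ) (c : κ → ℝ)
    (Ψ : κ → Lp ℝ 2 ν) :
    JJ hπ hπ' hσ hτ hv hw hv1 hw1 ε L Φ (∑ i ∈ s, c i • Ψ i) =
      ∑ i ∈ s, c i * JJ hπ hπ' hσ hτ hv hw hv1 hw1 ε L Φ (Ψ i) := by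
  classical
  induction s using Finset.induction_on with
  | empty => simp only [Finset.sum_empty]; rw [JJ, map_zero, II_zero_right]
  | insert a s ha ih =>
    rw [Finset.sum_insert ha, Finset.sum_insert ha, ← ih, JJ, map_add, II_add_right, map_smul,
      II_smul_right]
    rfl

variable [Fintype ι] [DecidableEq ι]

omit [Fintype ι] [IsProbabilityMeasure ν] in
lemma comp_eq_sum [Fintype ι] (R : Y → ι) (c : ι → ℝ) (y : Y) :
    c (R y) = ∑ i, c i * (R ⁻¹' {i}).indicator (fun _ => (1 : ℝ)) y := by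
  rw [Finset.sum_eq_single (R y)]
  · simp
  · intro b _ hb
    have : y ∉ R ⁻¹' {b} := fun h => hb (by simpa using h.symm)
    rw [Set.indicator_of_notMem this, mul_zero]
  · intro h; exact absurd (Finset.mem_univ _) h

lemma meas_comp_fin {R : Y → ι} (hR : ∀ i, MeasurableSet (R ⁻¹' {i})) (c : ι → ℝ) :
    Measurable (fun y => c (R y)) := by
  have : (fun y => c (R y)) = fun y => ∑ i, c i * (R ⁻¹' {i}).indicator (fun _ => (1 : ℝ)) y :=
    funext fun y => comp_eq_sum R c y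
  rw [this]
  exact Finset.measurable_sum _ (fun i _ => (measurable_const.indicator (hR i)).const_mul _)

lemma bdd_comp_fin (R : Y → ι) (c : ι → ℝ) : ∃ C, ∀ y, |c (R y)| ≤ C := by
  refine ⟨∑ i, |c i|, fun y => ?_⟩
  exact Finset.single_le_sum (f := fun i => |c i|) (fun i _ => abs_nonneg _) (Finset.mem_univ (R y))

lemma memLp_comp_fin {R : Y → ι} (hR : ∀ i, MeasurableSet (R ⁻¹' {i})) (c : ι → ℝ) :
    MemLp (fun y => c (R y)) 2 ν := by
  obtain ⟨C, hC⟩ := bdd_comp_fin R c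
  exact memLp_of_bdd ν (meas_comp_fin hR c) hC

lemma integral_comp_fin {R : Y → ι} (hR : ∀ i, MeasurableSet (R ⁻¹' {i})) (c : ι → ℝ) :
    ∫ y, c (R y) ∂ν = ∑ i, ν.real (R ⁻¹' {i}) * c i := by
  have : ∀ y, c (R y) = ∑ i, c i * (R ⁻¹' {i}).indicator (fun _ => (1 : ℝ)) y :=
    fun y => comp_eq_sum R c y
  simp_rw [this]
  rw [integral_finsetSum]
  · apply Finset.sum_congr rfl
    intro i _
    rw [integral_const_mul, integral_indicator (hR i)]
    simp [mul_comm]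
  · intro i _
    exact ((integrable_const (1 : ℝ)).indicator (hR i)).const_mul _

lemma sum_corr (L : ℕ) {R : Y → ι} (hR : ∀ i, MeasurableSet (R ⁻¹' {i})) {κ : ι → Measure X}
    (hκ : ∀ i (φ : X → ℝ), Measurable φ → (∃ C, ∀ x, |φ x| ≤ C) →
        ν.real (R ⁻¹' {i}) * ∫ x, φ x ∂(κ i) =
          JJ hπ hπ' hσ hτ hv hw hv1 hw1 ε L (toL2 μ φ)
            (toL2 ν ((R ⁻¹' {i}).indicator (fun _ => (1 : ℝ)))))
    {φ : X → ℝ} (hφ : Measurable φ) (hφb : ∃ C, ∀ x, |φ x| ≤ C) (c : ι → ℝ) :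
    ∑ i, ν.real (R ⁻¹' {i}) * (c i * (∫ x, φ x ∂(κ i) - ∫ x, φ x ∂μ)) =
      JJ hπ hπ' hσ hτ hv hw hv1 hw1 ε L (toL2 μ φ) (toL2 ν (fun y => c (R y))) -
        (∫ x, φ x ∂μ) * ∫ y, c (R y) ∂ν := by
  have h1 : toL2 ν (fun y => c (R y)) =
      ∑ i, c i • toL2 ν ((R ⁻¹' {i}).indicator (fun _ => (1 : ℝ))) := by
    rw [← toL2_sum _ _ _ (fun i => memLp_indicator (hR i))]
    congr 1
    funext y
    exact comp_eq_sum R c y
  rw [h1, JJ_sum_right, integral_comp_fin hR, Finset.mul_sum, ← Finset.sum_sub_distrib]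
  apply Finset.sum_congr rfl
  intro i _
  rw [← hκ i φ hφ hφb]
  ring

include hε0 hε1 in
lemma sum_sq_le (hc : Centred P σ v) (hc' : Centred Q τ w) (L : ℕ) {R : Y → ι}
    (hR : ∀ i, MeasurableSet (R ⁻¹' {i})) {κ : ι → Measure X}
    (hκ : ∀ i (φ : X → ℝ), Measurable φ → (∃ C, ∀ x, |φ x| ≤ C) →
        ν.real (R ⁻¹' {i}) * ∫ x, φ x ∂(κ i) =
          JJ hπ hπ' hσ hτ hv hw hv1 hw1 ε L (toL2 μ φ)
            (toL2 ν ((R ⁻¹' {i}).indicator (fun _ => (1 : ℝ)))))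
    {φ : X → ℝ} (hφ : Measurable φ) (hφb : ∃ C, ∀ x, |φ x| ≤ C) :
    ∑ i, ν.real (R ⁻¹' {i}) * (∫ x, φ x ∂(κ i) - ∫ x, φ x ∂μ) ^ 2 ≤
      ‖Top hπ (toL2 μ φ)‖ ^ 2 - ‖(Top hσ)^[L] (Top hπ (toL2 μ φ))‖ ^ 2 := by
  set r : ι → ℝ := fun i => ∫ x, φ x ∂(κ i) - ∫ x, φ x ∂μ with hr
  set S := ∑ i, ν.real (R ⁻¹' {i}) * r i ^ 2 with hS
  set q := ‖Top hπ (toL2 μ φ)‖ ^ 2 - ‖(Top hσ)^[L] (Top hπ (toL2 μ φ))‖ ^ 2 with hq
  have hq0 : 0 ≤ q := by
    have := norm_iter_le (Top hσ) (Vop P hσ hv hv1) (TV_contr P hσ hv hv1 hc) L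
      (Top hπ (toL2 μ φ))
    linarith
  have hS0 : 0 ≤ S := Finset.sum_nonneg fun i _ => mul_nonneg measureReal_nonneg (sq_nonneg _)
  obtain ⟨C, hC⟩ := hφb
  have h1 := sum_corr hπ hπ' hσ hτ hv hw hv1 hw1 L hR hκ hφ ⟨C, hC⟩ r
  have h2 : S = JJ hπ hπ' hσ hτ hv hw hv1 hw1 ε L (toL2 μ φ) (toL2 ν (fun y => r (R y))) -
        (∫ x, φ x ∂μ) * ∫ y, r (R y) ∂ν := by
    rw [← h1, hS]
    apply Finset.sum_congr rfl
    intro i _
    rw [hr]
    ring
  have h3 := II_cov P Q hε0 hε1 hσ hτ hv hw hv1 hw1 hc hc' L (Top hπ (toL2 μ φ))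
    (Top hπ' (toL2 ν (fun y => r (R y))))
  rw [eop_Top μ hπ, eop_Top ν hπ', eop_toL2 (memLp_of_bdd μ hφ hC),
    eop_toL2 (memLp_comp_fin hR r)] at h3
  have h4 : S ≤ Real.sqrt q * Real.sqrt S := by
    calc S ≤ |S| := le_abs_self _
      _ ≤ Real.sqrt q * ‖Top hπ' (toL2 ν (fun y => r (R y)))‖ := by
        rw [h2]; exact h3
      _ ≤ Real.sqrt q * Real.sqrt S := by
        apply mul_le_mul_of_nonneg_left _ (Real.sqrt_nonneg _)
        apply Real.le_sqrt_of_sq_le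
        have h5 : ‖toL2 ν (fun y => r (R y))‖ ^ 2 = S := by
          rw [norm_toL2_sq (memLp_comp_fin hR r)]
          have := integral_comp_fin (ν := ν) hR (fun i => r i ^ 2)
          rw [this]
        rw [← h5]
        exact pow_le_pow_left₀ (norm_nonneg _) (Top_norm_le hπ' _) 2
  by_contra hcon
  push Not at hcon
  have h6 : 0 < S := lt_of_le_of_lt hq0 hcon
  have h7 : Real.sqrt q < Real.sqrt S := Real.sqrt_lt_sqrt hq0 hcon
  have h8 : Real.sqrt S * Real.sqrt S = S := Real.mul_self_sqrt hS0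
  nlinarith [Real.sqrt_pos.2 h6]

end kernel

end Pool.Agent.Work.MP_0c7e55_an
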