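import Mathlib

open scoped lp ENNReal InnerProductSpace

namespace Pool.Agent.Work.MP_0c7e55_an

/-- the Hilbert space of square summable real sequences -/
abbrev E2 := lp (fun _ : ℕ => ℝ) 2

/-- right shift on sequences -/
def rsh (f : ℕ → ℝ) : ℕ → ℝ := fun n => Nat.casesOn n 0 f

@[simp] lemma rsh_zero (f : ℕ → ℝ) : rsh f 0 = 0 := rfl
@[simp] lemma rsh_succ (f : ℕ → ℝ) (n : ℕ) : rsh f (n + 1) = f n := rfl

lemma memlp_iff (f : ℕ → ℝ) : Memℓp f 2 ↔ Summable (fun n => f n ^ 2) := by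
  rw [memℓp_gen_iff (by norm_num)]
  simp

lemma rsh_mem {f : ℕ → ℝ} (hf : Memℓp f 2) : Memℓp (rsh f) 2 := by
  rw [memlp_iff] at hf ⊢
  rw [← summable_nat_add_iff 1]
  simpa using hf

/-- right shift as a linear map on the Hilbert space -/
noncomputable def R : E2 →ₗ[ℝ] E2 where
  toFun f := ⟨rsh f, rsh_mem f.2⟩
  map_add' f g := by
    apply Subtype.ext
    funext n
    cases n with
    | zero => show (0:ℝ) = 0 + 0; simp
    | succ n => rfl
  map_smul' c f := by
    apply Subtype.ext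
    funext n
    cases n with
    | zero => show (0:ℝ) = c * 0; simp
    | succ n => rfl

@[simp] lemma R_zero (f : E2) : (R f : ℕ → ℝ) 0 = 0 := rfl
@[simp] lemma R_succ (f : E2) (n : ℕ) : (R f : ℕ → ℝ) (n + 1) = f n := rfl

lemma inner_tsum (f g : E2) : ⟪f, g⟫_ℝ = ∑' i, f i * g i := by
  rw [lp.inner_eq_tsum]
  simp [mul_comm]

lemma summable_mul (f g : E2) : Summable (fun i => f i * g i) := by
  have := lp.summable_inner (𝕜 := ℝ) g f
  simpa using this

lemma R_inner (f g : E2) : ⟪R f, R g⟫_ℝ = ⟪f, g⟫_ℝ := by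
  rw [inner_tsum, inner_tsum, (summable_mul (R f) (R g)).tsum_eq_zero_add]
  simp

lemma R_norm (f : E2) : ‖R f‖ = ‖f‖ := by
  have h := R_inner f f
  rw [real_inner_self_eq_norm_sq, real_inner_self_eq_norm_sq] at h
  exact (sq_eq_sq₀ (norm_nonneg _) (norm_nonneg _)).1 h

/-- right shift as a continuous linear map -/
noncomputable def RC : E2 →L[ℝ] E2 := R.mkContinuous 1 (fun f => by rw [R_norm, one_mul])

@[simp] lemma RC_apply (f : E2) : RC f = R f := rfl

lemma R_pow_coe (f : E2) (p n : ℕ) : ((R ^ p) f : ℕ → ℝ) n = if p ≤ n then f (n - p) else 0 := by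
  induction p generalizing n with
  | zero => simp
  | succ p ih =>
    rw [pow_succ', Module.End.mul_apply]
    cases n with
    | zero => simp
    | succ n => rw [R_succ, ih]; simp [Nat.succ_sub_succ]

lemma R_pow_inner (f g : E2) (p : ℕ) : ⟪(R ^ p) f, (R ^ p) g⟫_ℝ = ⟪f, g⟫_ℝ := by
  induction p with
  | zero => simp
  | succ p ih => rw [pow_succ', Module.End.mul_apply, Module.End.mul_apply, R_inner, ih]

lemma R_pow_norm (f : E2) (p : ℕ) : ‖(R ^ p) f‖ = ‖f‖ := by
  have h := R_pow_inner f f p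
  rw [real_inner_self_eq_norm_sq, real_inner_self_eq_norm_sq] at h
  exact (sq_eq_sq₀ (norm_nonneg _) (norm_nonneg _)).1 h


/-- basis vector -/
noncomputable def bv (n : ℕ) : E2 := lp.single 2 n (1 : ℝ)

lemma inner_bv (f : E2) (n : ℕ) : ⟪f, bv n⟫_ℝ = f n := by
  rw [bv, lp.inner_single_right]
  simp

lemma norm_bv (n : ℕ) : ‖bv n‖ = 1 := by
  have h : ⟪bv n, bv n⟫_ℝ = 1 := by
    rw [inner_bv]
    simp [bv]
  rw [real_inner_self_eq_norm_sq] at h
  nlinarith [norm_nonneg (bv n)]

/-- If all lagged inner products of `a` and `b` vanish and `a 0 ≠ 0`, then `b 0 = 0`. -/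
theorem lag_zero (a b : E2) (ha : a 0 ≠ 0)
    (h : ∀ p q : ℕ, ⟪(R ^ p) a, (R ^ q) b⟫_ℝ = 0) : b 0 = 0 := by
  classical
  -- the closed span of the `R^j a`, `j ≥ 1`
  set K : Submodule ℝ E2 := (Submodule.span ℝ (Set.range fun j : ℕ => (R ^ (j + 1)) a)).topologicalClosure with hK
  set M : Submodule ℝ E2 := (Submodule.span ℝ (Set.range fun j : ℕ => (R ^ j) a)).topologicalClosure with hM
  have : CompleteSpace K := (Submodule.isClosed_topologicalClosure _).completeSpace_coe
  have : CompleteSpace M := (Submodule.isClosed_topologicalClosure _).completeSpace_coe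
  have hRK : ∀ j : ℕ, (R ^ (j + 1)) a ∈ K := fun j =>
    Submodule.le_topologicalClosure _ (Submodule.subset_span ⟨j, rfl⟩)
  have hRM : ∀ j : ℕ, (R ^ j) a ∈ M := fun j =>
    Submodule.le_topologicalClosure _ (Submodule.subset_span ⟨j, rfl⟩)
  have hKM : K ≤ M := by
    apply Submodule.topologicalClosure_mono
    apply Submodule.span_mono
    rintro _ ⟨j, rfl⟩
    exact ⟨j + 1, rfl⟩
  -- R maps M into K and K into K
  have hRMK : ∀ x ∈ M, R x ∈ K := by
    intro x hx
    have : M ≤ K.comap (RC : E2 →ₗ[ℝ] E2) := by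
      apply Submodule.topologicalClosure_minimal
      · rw [Submodule.span_le]
        rintro _ ⟨j, rfl⟩
        show R ((R ^ j) a) ∈ K
        rw [← Module.End.mul_apply, ← pow_succ']
        exact hRK j
      · exact (Submodule.isClosed_topologicalClosure _).preimage RC.continuous
    exact this hx
  -- elements of K vanish at 0
  have hK0 : ∀ x ∈ K, (x : ℕ → ℝ) 0 = 0 := by
    intro x hx
    have : K ≤ (Submodule.span ℝ {bv 0})ᗮ := by
      apply Submodule.topologicalClosure_minimal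
      · rw [Submodule.span_le]
        rintro _ ⟨j, rfl⟩
        show (R ^ (j + 1)) a ∈ (Submodule.span ℝ {bv 0})ᗮ
        rw [Submodule.mem_orthogonal_singleton_iff_inner_left, inner_bv, R_pow_coe]
        simp
      · exact Submodule.isClosed_orthogonal _
    have h2 := this hx
    rw [Submodule.mem_orthogonal_singleton_iff_inner_left, inner_bv] at h2
    exact h2
  set w : E2 := a - K.starProjection a with hw
  have hwM : w ∈ M := M.sub_mem (hRM 0) (hKM (Submodule.starProjection_apply_mem _ _))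
  have hw0 : (w : ℕ → ℝ) 0 = a 0 := by
    have := hK0 _ (Submodule.starProjection_apply_mem K a)
    show a 0 - (K.starProjection a : ℕ → ℝ) 0 = a 0
    rw [this, sub_zero]
  have hwne : w ≠ 0 := by
    intro h0
    apply ha
    rw [← hw0, h0]
    rfl
  have hwK : ∀ x ∈ K, ⟪w, x⟫_ℝ = 0 := fun x hx => Submodule.starProjection_inner_eq_zero a x hx
  have hpM : ∀ j : ℕ, (R ^ j) w ∈ M := by
    intro j
    induction j with
    | zero => simpa using hwM
    | succ j ih =>
      rw [pow_succ', Module.End.mul_apply]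
      exact hKM (hRMK _ ih)
  have hpK : ∀ j : ℕ, (R ^ (j + 1)) w ∈ K := by
    intro j
    rw [pow_succ', Module.End.mul_apply]
    exact hRMK _ (hpM j)
  have horth : ∀ i j : ℕ, i < j → ⟪(R ^ i) w, (R ^ j) w⟫_ℝ = 0 := by
    intro i j hij
    obtain ⟨k, rfl⟩ : ∃ k, j = i + (k + 1) := ⟨j - i - 1, by omega⟩
    rw [pow_add, Module.End.mul_apply, R_pow_inner]
    exact hwK _ (hpK k)
  have hnw : ‖w‖ ≠ 0 := norm_ne_zero_iff.2 hwne
  have hon : Orthonormal ℝ (fun j : ℕ => (‖w‖⁻¹ : ℝ) • (R ^ j) w) := by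
    constructor
    · intro j
      rw [norm_smul, R_pow_norm, norm_inv, norm_norm, inv_mul_cancel₀ hnw]
    · intro i j hij
      show ⟪(‖w‖⁻¹ : ℝ) • (R ^ i) w, (‖w‖⁻¹ : ℝ) • (R ^ j) w⟫_ℝ = 0
      rw [inner_smul_left, inner_smul_right]
      rcases lt_or_gt_of_ne hij with h' | h'
      · rw [horth i j h']; simp
      · rw [real_inner_comm, horth j i h']; simp
  -- orthogonality of R^n b to M
  have hbM : ∀ n : ℕ, ∀ x ∈ M, ⟪x, (R ^ n) b⟫_ℝ = 0 := by
    intro n x hx
    have : M ≤ (Submodule.span ℝ {(R ^ n) b})ᗮ := by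
      apply Submodule.topologicalClosure_minimal
      · rw [Submodule.span_le]
        rintro _ ⟨j, rfl⟩
        show (R ^ j) a ∈ (Submodule.span ℝ {(R ^ n) b})ᗮ
        rw [Submodule.mem_orthogonal_singleton_iff_inner_left]
        exact h j n
      · exact Submodule.isClosed_orthogonal _
    have h2 := this hx
    rwa [Submodule.mem_orthogonal_singleton_iff_inner_left] at h2
  -- key estimate
  have key : ∀ n : ℕ, (b 0) ^ 2 ≤ ‖b‖ ^ 2 * (1 - (∑ i ∈ Finset.range (n + 1), (w i) ^ 2) / ‖w‖ ^ 2) := by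
    intro n
    set P := M.starProjection (bv n) with hP
    have hPM : P ∈ M := Submodule.starProjection_apply_mem _ _
    have hb : b 0 = ⟪(R ^ n) b, bv n - P⟫_ℝ := by
      rw [inner_sub_right, real_inner_comm P, hbM n P hPM, inner_bv, R_pow_coe]
      simp
    have hnorm : ‖bv n - P‖ ^ 2 = 1 - ‖P‖ ^ 2 := by
      have h1 := Submodule.norm_sq_eq_add_norm_sq_starProjection (bv n) M
      rw [norm_bv, Submodule.starProjection_orthogonal_val] at h1
      rw [← hP] at h1
      linarith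
    have hbess : (∑ i ∈ Finset.range (n + 1), (w i) ^ 2) / ‖w‖ ^ 2 ≤ ‖P‖ ^ 2 := by
      have h1 := hon.sum_inner_products_le P (s := Finset.range (n + 1))
      refine le_trans (le_of_eq ?_) h1
      rw [Finset.sum_div, ← Finset.sum_range_reflect]
      apply Finset.sum_congr rfl
      intro j hj
      rw [Finset.mem_range] at hj
      have h2 : ⟪(R ^ j) w, P⟫_ℝ = w (n - j) := by
        have : ⟪(R ^ j) w, bv n - P⟫_ℝ = 0 := by
          rw [real_inner_comm]
          exact Submodule.starProjection_inner_eq_zero _ _ (hpM j)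
        rw [inner_sub_right, sub_eq_zero, inner_bv, R_pow_coe, if_pos (by omega)] at this
        exact this.symm
      rw [inner_smul_left, h2]
      have : n + 1 - 1 - j = n - j := by omega
      rw [this]
      simp only [conj_trivial, Real.norm_eq_abs, sq_abs]
      rw [mul_pow, inv_pow]
      field_simp
    calc (b 0) ^ 2 = ⟪(R ^ n) b, bv n - P⟫_ℝ ^ 2 := by rw [← hb]
      _ ≤ (‖(R ^ n) b‖ * ‖bv n - P‖) ^ 2 := by
        rw [← sq_abs]
        exact pow_le_pow_left₀ (abs_nonneg _) (abs_real_inner_le_norm _ _) 2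
      _ = ‖b‖ ^ 2 * (1 - ‖P‖ ^ 2) := by rw [mul_pow, R_pow_norm, hnorm]
      _ ≤ _ := by
        apply mul_le_mul_of_nonneg_left _ (sq_nonneg _)
        linarith
  -- pass to the limit
  have hsum : Filter.Tendsto (fun n : ℕ => ∑ i ∈ Finset.range (n + 1), (w i) ^ 2) Filter.atTop (nhds (‖w‖ ^ 2)) := by
    have h1 : HasSum (fun i => w i * w i) ⟪w, w⟫_ℝ := by
      rw [inner_tsum]
      exact (summable_mul w w).hasSum
    have h2 := h1.tendsto_sum_nat
    rw [real_inner_self_eq_norm_sq] at h2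
    have h3 := (Filter.tendsto_add_atTop_iff_nat 1).2 h2
    simpa [sq] using h3
  have hlim : Filter.Tendsto (fun n : ℕ => ‖b‖ ^ 2 * (1 - (∑ i ∈ Finset.range (n + 1), (w i) ^ 2) / ‖w‖ ^ 2)) Filter.atTop (nhds (‖b‖ ^ 2 * (1 - ‖w‖ ^ 2 / ‖w‖ ^ 2))) :=
    ((hsum.div_const _).const_sub 1).const_mul _
  have hfin : (b 0) ^ 2 ≤ ‖b‖ ^ 2 * (1 - ‖w‖ ^ 2 / ‖w‖ ^ 2) :=
    ge_of_tendsto' hlim key
  rw [div_self (pow_ne_zero 2 hnw), sub_self, mul_zero] at hfin
  exact pow_eq_zero_iff (two_ne_zero) |>.1 (le_antisymm hfin (sq_nonneg _))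

/-- shifted sequence, extended by zero -/
def ext (α : ℕ → ℝ) (p m : ℕ) : ℝ := if p ≤ m then α (m - p) else 0

/-- Some lagged correlation of two one-sided square summable sequences is nonzero. -/
theorem exists_lag (α β : ℕ → ℝ) (hα : Summable fun n => α n ^ 2) (hβ : Summable fun n => β n ^ 2)
    (hα0 : α 0 ≠ 0) (hβ0 : β 0 ≠ 0) : ∃ p q : ℕ, ∑' m, ext α p m * ext β q m ≠ 0 := by
  by_contra hcon
  push Not at hcon
  apply hβ0
  have := lag_zero ⟨α, (memlp_iff α).2 hα⟩ ⟨β, (memlp_iff β).2 hβ⟩ hα0 (by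
    intro p q
    rw [inner_tsum, ← hcon p q]
    apply tsum_congr
    intro m
    rw [R_pow_coe, R_pow_coe]
    rfl)
  exact this

end Pool.Agent.Work.MP_0c7e55_an
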