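import Mathlib
import Pool.Agent.Work.MP_0c7e55_an.Kernel
import Pool.Agent.Work.MP_0c7e55_an.Riesz

open MeasureTheory ENNReal InnerProductSpace Filter Topology

namespace Pool.Agent.Work.MP_0c7e55_an

section birkhoff

variable {X Ω : Type*} [MeasurableSpace X] [MeasurableSpace Ω]
  {μ : Measure X} {P : Measure Ω} [IsProbabilityMeasure μ] [IsProbabilityMeasure P]
  {π : X → Ω} (hπ : MeasurePreserving π μ P) {S : X → X} (hS : MeasurePreserving S μ μ)
  {σ : Ω → Ω} (hσ : MeasurePreserving σ P P) (hcomm : ∀ x, π (S x) = σ (π x))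

include hcomm in
lemma Uop_comm (g : Lp ℝ 2 P) : Uop hπ (Uop hσ g) = Uop hS (Uop hπ g) := by
  apply Lp.ext
  have h1 := Uop_coe hπ (Uop hσ g)
  have h2 := hπ.quasiMeasurePreserving.ae_eq_comp (Uop_coe hσ g)
  have h3 := Uop_coe hS (Uop hπ g)
  have h4 := hS.quasiMeasurePreserving.ae_eq_comp (Uop_coe hπ g)
  filter_upwards [h1, h2, h3, h4] with x h1 h2 h3 h4
  simp only [Function.comp] at h2 h4
  rw [h1, h2, h3, h4, hcomm]

include hcomm in
lemma Top_comm (f : Lp ℝ 2 μ) : Top hσ (Top hπ f) = Top hπ (Top hS f) := by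
  apply ext_inner_right ℝ
  intro g
  rw [Top, ContinuousLinearMap.adjoint_inner_left, Top, ContinuousLinearMap.adjoint_inner_left,
    ContinuousLinearMap.adjoint_inner_left, Top, ContinuousLinearMap.adjoint_inner_left,
    Uop_comm hπ hS hσ hcomm]

include hcomm in
lemma Top_comm_iter (n : ℕ) (f : Lp ℝ 2 μ) :
    (Top hσ)^[n] (Top hπ f) = Top hπ ((Top hS)^[n] f) := by
  induction n generalizing f with
  | zero => rfl
  | succ n ih => rw [Function.iterate_succ_apply, Top_comm hπ hS hσ hcomm, ih,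
      Function.iterate_succ_apply]

lemma Top_iter_norm_le (n : ℕ) (f : Lp ℝ 2 μ) : ‖(Top hS)^[n] f‖ ≤ ‖f‖ := by
  induction n generalizing f with
  | zero => simp
  | succ n ih =>
    rw [Function.iterate_succ_apply]
    exact (ih _).trans (Top_norm_le hS f)

lemma Top_iter_sub (n : ℕ) (f g : Lp ℝ 2 μ) :
    (Top hS)^[n] (f - g) = (Top hS)^[n] f - (Top hS)^[n] g := by
  induction n generalizing f g with
  | zero => rfl
  | succ n ih => rw [Function.iterate_succ_apply, map_sub, ih, Function.iterate_succ_apply,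
      Function.iterate_succ_apply]

lemma Uop_iter_norm (n : ℕ) (f : Lp ℝ 2 μ) : ‖(Uop hS)^[n] f‖ = ‖f‖ := by
  induction n generalizing f with
  | zero => simp
  | succ n ih => rw [Function.iterate_succ_apply, ih, Uop_norm]

lemma Uop_iter_sub (n : ℕ) (f g : Lp ℝ 2 μ) :
    (Uop hS)^[n] (f - g) = (Uop hS)^[n] f - (Uop hS)^[n] g := by
  induction n generalizing f g with
  | zero => rfl
  | succ n ih => rw [Function.iterate_succ_apply, map_sub, ih, Function.iterate_succ_apply,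
      Function.iterate_succ_apply]

include hcomm in
/-- For Birkhoff averages the information quantity entering the covariance bound is small. -/
theorem birkhoff_q (f : Lp ℝ 2 μ) (p : ℕ) :
    Tendsto (fun L : ℕ =>
      ‖Top hπ ((Uop hS)^[p] (birkhoffAverage ℝ (Uop hS) _root_.id L f))‖ ^ 2 -
      ‖(Top hσ)^[L] (Top hπ ((Uop hS)^[p] (birkhoffAverage ℝ (Uop hS) _root_.id L f)))‖ ^ 2)
      atTop (𝓝 0) := by
  have hU : ‖Uop hS‖ ≤ 1 := by
    apply ContinuousLinearMap.opNorm_le_bound _ zero_le_one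
    intro f
    rw [one_mul, Uop_norm]
  have hmet := (Uop hS).tendsto_birkhoffAverage_orthogonalProjection hU f
  set φ : Lp ℝ 2 μ := (((Uop hS).eqLocus (1 : Lp ℝ 2 μ →L[ℝ] Lp ℝ 2 μ)).orthogonalProjectionOnto f : Lp ℝ 2 μ) with hφ
  have hfix : Uop hS φ = φ :=
    (((Uop hS).eqLocus (1 : Lp ℝ 2 μ →L[ℝ] Lp ℝ 2 μ)).orthogonalProjectionOnto f).2
  have hfixT : Top hS φ = φ := by
    conv_lhs => rw [← hfix]
    exact Top_Uop hS φ
  have hfixTn : ∀ n, (Top hS)^[n] φ = φ := fun n => Function.iterate_fixed hfixT n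
  have hfixUn : ∀ n, (Uop hS)^[n] φ = φ := fun n => Function.iterate_fixed hfix n
  set A : ℕ → Lp ℝ 2 μ := fun L => birkhoffAverage ℝ (Uop hS) _root_.id L f with hA
  have hd : Tendsto (fun L => ‖A L - φ‖) atTop (𝓝 0) := by
    rw [← tendsto_iff_norm_sub_tendsto_zero]
    exact hmet
  have hbound : ∀ L, ‖A L‖ ≤ ‖f‖ := by
    intro L
    rw [hA]
    simp only [birkhoffAverage, birkhoffSum]
    rcases Nat.eq_zero_or_pos L with h0 | h0
    · subst h0; simp
    · rw [norm_smul]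
      have h1 : ‖∑ k ∈ Finset.range L, _root_.id ((Uop hS)^[k] f)‖ ≤ L * ‖f‖ := by
        refine (norm_sum_le _ _).trans ?_
        simp only [id_eq, Uop_iter_norm, Finset.sum_const, Finset.card_range, nsmul_eq_mul, le_refl]
      have hL : (0 : ℝ) < L := by exact_mod_cast h0
      calc ‖((L : ℝ))⁻¹‖ * ‖∑ k ∈ Finset.range L, _root_.id ((Uop hS)^[k] f)‖
          ≤ (L : ℝ)⁻¹ * (L * ‖f‖) := by
            rw [norm_inv, Real.norm_of_nonneg hL.le]
            exact mul_le_mul_of_nonneg_left h1 (by positivity)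
        _ = ‖f‖ := by field_simp
  have key : ∀ L : ℕ, ‖Top hπ ((Uop hS)^[p] (A L))‖ ^ 2 -
      ‖(Top hσ)^[L] (Top hπ ((Uop hS)^[p] (A L)))‖ ^ 2 ≤ 4 * ‖f‖ * ‖A L - φ‖ := by
    intro L
    set B := (Uop hS)^[p] (A L) with hB
    have hBφ : ‖B - φ‖ = ‖A L - φ‖ := by
      conv_lhs => rw [← hfixUn p, hB, ← Uop_iter_sub, Uop_iter_norm]
    have hBn : ‖B‖ ≤ ‖f‖ := by rw [hB, Uop_iter_norm]; exact hbound L
    rw [Top_comm_iter hπ hS hσ hcomm]
    set a := ‖Top hπ B‖
    set b := ‖Top hπ ((Top hS)^[L] B)‖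
    have h1 : |a - ‖Top hπ φ‖| ≤ ‖A L - φ‖ := by
      refine (abs_norm_sub_norm_le _ _).trans ?_
      rw [← map_sub, ← hBφ]
      exact Top_norm_le hπ _
    have h2 : |b - ‖Top hπ φ‖| ≤ ‖A L - φ‖ := by
      refine (abs_norm_sub_norm_le _ _).trans ?_
      conv_lhs => rw [← hfixTn L]
      rw [← map_sub, ← Top_iter_sub, ← hBφ]
      exact (Top_norm_le hπ _).trans (Top_iter_norm_le hS L _)
    have ha : a ≤ ‖f‖ := (Top_norm_le hπ _).trans hBn
    have hb : b ≤ ‖f‖ := ((Top_norm_le hπ _).trans (Top_iter_norm_le hS L _)).trans hBn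
    have ha0 : 0 ≤ a := norm_nonneg _
    have hb0 : 0 ≤ b := norm_nonneg _
    rw [abs_le] at h1 h2
    have h3 : a - b ≤ 2 * ‖A L - φ‖ := by linarith [h1.2, h2.1]
    have h4 : a ^ 2 - b ^ 2 = (a - b) * (a + b) := by ring
    rw [h4]
    rcases le_or_gt (a - b) 0 with h5 | h5
    · have : (a - b) * (a + b) ≤ 0 := mul_nonpos_of_nonpos_of_nonneg h5 (by positivity)
      exact this.trans (by positivity)
    · calc (a - b) * (a + b) ≤ (2 * ‖A L - φ‖) * (2 * ‖f‖) :=
            mul_le_mul h3 (by linarith) (by positivity) (by positivity)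
        _ = 4 * ‖f‖ * ‖A L - φ‖ := by ring
  refine tendsto_of_tendsto_of_tendsto_of_le_of_le tendsto_const_nhds
    (by simpa using hd.const_mul (4 * ‖f‖)) (fun L => ?_) key
  show (0 : ℝ) ≤ _
  rw [Top_comm_iter hπ hS hσ hcomm]
  have h1 : ‖Top hπ ((Top hS)^[L] ((Uop hS)^[p] (A L)))‖ ≤ ‖Top hπ ((Uop hS)^[p] (A L))‖ := by
    rw [← Top_comm_iter hπ hS hσ hcomm]
    exact Top_iter_norm_le hσ L _
  have := pow_le_pow_left₀ (norm_nonneg _) h1 2
  linarith

end birkhoff

section cesaro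

lemma ext_shift (α : ℕ → ℝ) (k p m : ℕ) : ext α (k + p) (k + m) = ext α p m := by
  unfold ext
  by_cases h : p ≤ m
  · rw [if_pos (by omega), if_pos h]
    congr 1
    omega
  · rw [if_neg (by omega), if_neg h]

lemma ext_sum (α β : ℕ → ℝ) (p q k L : ℕ) (hk : k ≤ L) :
    ∑ n ∈ Finset.range L, ext α (k + p) n * ext β (k + q) n =
      ∑ m ∈ Finset.range (L - k), ext α p m * ext β q m := by
  obtain ⟨j, rfl⟩ := Nat.exists_eq_add_of_le hk
  rw [Finset.sum_range_add, Nat.add_sub_cancel_left]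
  have h0 : ∑ n ∈ Finset.range k, ext α (k + p) n * ext β (k + q) n = 0 := by
    apply Finset.sum_eq_zero
    intro n hn
    rw [Finset.mem_range] at hn
    rw [ext, if_neg (by omega), zero_mul]
  rw [h0, zero_add]
  apply Finset.sum_congr rfl
  intro m _
  rw [ext_shift, ext_shift]

lemma cesaro_ext (α β : ℕ → ℝ) (p q : ℕ)
    (hsum : Summable (fun m => ext α p m * ext β q m)) :
    Tendsto (fun L : ℕ => (L : ℝ)⁻¹ * ∑ k ∈ Finset.range L,
      ∑ n ∈ Finset.range L, ext α (k + p) n * ext β (k + q) n) atTop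
      (𝓝 (∑' m, ext α p m * ext β q m)) := by
  have h1 : Tendsto (fun j : ℕ => ∑ m ∈ Finset.range (j + 1), ext α p m * ext β q m) atTop
      (𝓝 (∑' m, ext α p m * ext β q m)) :=
    (tendsto_add_atTop_iff_nat 1).2 hsum.hasSum.tendsto_sum_nat
  have h2 := h1.cesaro
  refine h2.congr fun L => ?_
  congr 1
  rw [← Finset.sum_range_reflect]
  apply Finset.sum_congr rfl
  intro k hk
  rw [Finset.mem_range] at hk
  rw [ext_sum α β p q k L hk.le]
  congr 2
  omega

lemma ext_mul_summable {α β : ℕ → ℝ} (hα : Summable fun n => α n ^ 2)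
    (hβ : Summable fun n => β n ^ 2) (p q : ℕ) :
    Summable (fun m => ext α p m * ext β q m) := by
  have h := summable_mul ((R ^ p) ⟨α, (memlp_iff α).2 hα⟩) ((R ^ q) ⟨β, (memlp_iff β).2 hβ⟩)
  refine h.congr fun m => ?_
  rw [R_pow_coe, R_pow_coe]
  rfl

end cesaro

end Pool.Agent.Work.MP_0c7e55_an
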