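import Mathlib
import Pool.Agent.Work.MP_0c7e55_an.Limits
import Pool.Agent.Work.MP_0c7e55_an.Defs

open MeasureTheory ENNReal InnerProductSpace Filter Topology

namespace Pool.Agent.Work.MP_0c7e55_an

section seq

variable {Λ κ : Type*} [MeasurableSpace Λ] [MeasurableSpace κ]

omit [MeasurableSpace Λ] [MeasurableSpace κ] in
lemma shift_iter (n k : ℕ) (x : ℕ → Λ) : shift^[n] x k = x (k + n) := by
  induction n generalizing x with
  | zero => rfl
  | succ n ih =>
    rw [Function.iterate_succ_apply, ih, shift]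
    congr 1

lemma measurable_shift : Measurable (shift : (ℕ → Λ) → (ℕ → Λ)) :=
  measurable_pi_lambda _ fun n => measurable_pi_apply (n + 1)

/-- coordinatewise projection -/
def pr (π : Λ → κ) (x : ℕ → Λ) : ℕ → κ := fun n => π (x n)

lemma measurable_pr {π : Λ → κ} (hπ : Measurable π) : Measurable (pr π) :=
  measurable_pi_lambda _ fun n => hπ.comp (measurable_pi_apply n)

omit [MeasurableSpace Λ] [MeasurableSpace κ] in
lemma pr_shift (π : Λ → κ) (x : ℕ → Λ) : pr π (shift x) = shift (pr π x) := rfl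

lemma pr_preserving (μ : Measure (ℕ → Λ)) {π : Λ → κ} (hπ : Measurable π) :
    MeasurePreserving (pr π) μ (μ.map (pr π)) := (measurable_pr hπ).measurePreserving μ

lemma shift_preserving_map {μ : Measure (ℕ → Λ)} (hμ : MeasurePreserving shift μ μ) {π : Λ → κ}
    (hπ : Measurable π) : MeasurePreserving shift (μ.map (pr π)) (μ.map (pr π)) := by
  refine ⟨measurable_shift, ?_⟩
  rw [Measure.map_map measurable_shift (measurable_pr hπ)]
  have : (shift ∘ pr π : (ℕ → Λ) → (ℕ → κ)) = pr π ∘ shift := rfl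
  rw [this, ← Measure.map_map (measurable_pr hπ) measurable_shift, hμ.map_eq]

lemma measurableSet_cyl [MeasurableSingletonClass Λ] (B : List Λ) : MeasurableSet (cyl B) := by
  have : cyl B = ⋂ (i : ℕ) (h : i < B.length), (fun x : ℕ → Λ => x i) ⁻¹' {B[i]} := by
    ext x
    simp [cyl]
  rw [this]
  exact MeasurableSet.iInter fun i => MeasurableSet.iInter fun h =>
    measurable_pi_apply i (measurableSet_singleton _)

end seq

section iter

variable {X : Type*} [MeasurableSpace X] {μ : Measure X} [IsProbabilityMeasure μ] {S : X → X}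
  (hS : MeasurePreserving S μ μ)

lemma Uop_iter_toL2 {φ : X → ℝ} (h : MemLp φ 2 μ) (n : ℕ) :
    (Uop hS)^[n] (toL2 μ φ) = toL2 μ (fun x => φ (S^[n] x)) := by
  induction n with
  | zero => rfl
  | succ n ih =>
    rw [Function.iterate_succ_apply', ih]
    exact Uop_toL2 hS (h.comp_measurePreserving (hS.iterate n))

end iter


/-- indicator of a symbol at coordinate zero -/
noncomputable def sym {κ : Type*} [DecidableEq κ] (c : κ) (z : ℕ → κ) : ℝ :=
  if z 0 = c then 1 else 0

lemma sym_meas {κ : Type*} [DecidableEq κ] [MeasurableSpace κ] [MeasurableSingletonClass κ]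
    (c : κ) : Measurable (sym c) := by
  apply Measurable.ite _ measurable_const measurable_const
  exact measurable_pi_apply (X := fun _ : ℕ => κ) 0 (measurableSet_singleton c)

lemma sym_bd {κ : Type*} [DecidableEq κ] (c : κ) (z : ℕ → κ) : |sym c z| ≤ 1 := by
  unfold sym
  split_ifs <;> simp

open Classical in
/-- occurrences of the block starting at positions below `L` -/
noncomputable def occ {Λ : Type*} (B : List Λ) (L : ℕ) (x : ℕ → Λ) : ℝ :=
  ∑ k ∈ Finset.range L, if shift^[k] x ∈ cyl B then 1 else 0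

open Classical in
/-- correlation of the occurrences of the symbols `a`, `b` in a window -/
noncomputable def corr {Λ Γ : Type*} (a : Λ) (b : Γ) (c : ℝ) {L : ℕ} (i : Fin L → Γ)
    (x : ℕ → Λ) : ℝ :=
  ∑ k : Fin L, if i k = b then (if x k = a then (1 : ℝ) else 0) - c else 0

lemma integral_comp_pres {X : Type*} [MeasurableSpace X] {μ : Measure X} {S : X → X}
    (hS : MeasurePreserving S μ μ) {f : X → ℝ} (hf : Measurable f) :
    ∫ x, f (S x) ∂μ = ∫ x, f x ∂μ := by
  conv_rhs => rw [← hS.map_eq]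
  rw [integral_map hS.measurable.aemeasurable hf.aestronglyMeasurable]

section avg

variable {Ω Ω' : Type*} [MeasurableSpace Ω] [MeasurableSpace Ω']
  {P : Measure Ω} {Q : Measure Ω'} [IsProbabilityMeasure P] [IsProbabilityMeasure Q]
  {σ : Ω → Ω} {v : Ω → ℝ} {τ : Ω' → Ω'} {w : Ω' → ℝ}
  (hσ : MeasurePreserving σ P P) (hτ : MeasurePreserving τ Q Q)
  (hv : Measurable v) (hw : Measurable w) (hv1 : ∀ x, |v x| ≤ 1) (hw1 : ∀ x, |w x| ≤ 1)
  (hc : Centred P σ v) (hc' : Centred Q τ w)

lemma eop_Uop_iter (n : ℕ) (f : Lp ℝ 2 P) : eop P ((Uop hσ)^[n] f) = eop P f := by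
  induction n generalizing f with
  | zero => rfl
  | succ n ih =>
    rw [Function.iterate_succ_apply, ih, ← eop_Top P hσ, Top_Uop]

include hc hc' in
/-- the averaged covariance is bounded away from zero -/
lemma avg_lower (F0 : Lp ℝ 2 P) (G0 : Lp ℝ 2 Q) (hF : ‖F0‖ ≤ 1) (hG : ‖G0‖ ≤ 1) (p q : ℕ)
    {s0 s ε : ℝ} (hs0 : s0 = ∑' m, ext (coef P hσ hv hv1 F0) p m * ext (coef Q hτ hw hw1 G0) q m)
    (hs : (s = 1 ∨ s = -1)) (hss : s * s0 = |s0|) (hne : s0 ≠ 0) (hε0 : 0 < ε) (hε1 : ε ≤ 1)
    (hε2 : ε ≤ |s0| / 4) :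
    ∀ᶠ L : ℕ in atTop, ε * |s0| / 2 * L ≤ s * ∑ k ∈ Finset.range L,
      (II P Q hσ hτ hv hw hv1 hw1 ε L ((Uop hσ)^[k + p] F0) ((Uop hτ)^[k + q] G0) -
        eop P F0 * eop Q G0) := by
  set α := coef P hσ hv hv1 F0 with hα
  set β := coef Q hτ hw hw1 G0 with hβ
  have hsα : Summable fun n => α n ^ 2 := coef_summable P hσ hv hv1 hc F0
  have hsβ : Summable fun n => β n ^ 2 := coef_summable Q hτ hw hw1 hc' G0
  have hces := cesaro_ext α β p q (ext_mul_summable hsα hsβ p q)
  rw [← hs0] at hces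
  have hpos : 0 < |s0| := abs_pos.2 hne
  have hev : ∀ᶠ L : ℕ in atTop, |(L : ℝ)⁻¹ * ∑ k ∈ Finset.range L,
      ∑ n ∈ Finset.range L, ext α (k + p) n * ext β (k + q) n - s0| ≤ |s0| / 4 := by
    have := (Metric.tendsto_nhds.1 hces) (|s0| / 4) (by positivity)
    filter_upwards [this] with L hL
    exact hL.le
  filter_upwards [hev, eventually_gt_atTop 0] with L hL hL0
  have hL' : (0 : ℝ) < L := by exact_mod_cast hL0
  set T := ∑ k ∈ Finset.range L, ∑ n ∈ Finset.range L, ext α (k + p) n * ext β (k + q) n with hT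
  set A := ∑ k ∈ Finset.range L,
      (II P Q hσ hτ hv hw hv1 hw1 ε L ((Uop hσ)^[k + p] F0) ((Uop hτ)^[k + q] G0) -
        eop P F0 * eop Q G0) with hA
  have h1 : |A - ε * T| ≤ L * ε ^ 2 := by
    rw [hA, hT, Finset.mul_sum, ← Finset.sum_sub_distrib]
    refine (Finset.abs_sum_le_sum_abs _ _).trans ?_
    have : ∀ k ∈ Finset.range L, |II P Q hσ hτ hv hw hv1 hw1 ε L ((Uop hσ)^[k + p] F0)
        ((Uop hτ)^[k + q] G0) - eop P F0 * eop Q G0 -
        ε * ∑ n ∈ Finset.range L, ext α (k + p) n * ext β (k + q) n| ≤ ε ^ 2 := by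
      intro k _
      have h2 := II_second P Q hε0.le hε1 hσ hτ hv hw hv1 hw1 hc hc' L ((Uop hσ)^[k + p] F0)
        ((Uop hτ)^[k + q] G0)
      rw [eop_Uop_iter, eop_Uop_iter, Uop_iter_norm, Uop_iter_norm] at h2
      simp only [inner_lag P hσ hv hv1 hc, inner_lag Q hτ hw hw1 hc'] at h2
      refine le_trans h2 ?_
      have : ‖F0‖ * ‖G0‖ ≤ 1 := mul_le_one₀ hF (norm_nonneg _) hG
      nlinarith [sq_nonneg ε]
    refine (Finset.sum_le_sum this).trans ?_
    rw [Finset.sum_const, Finset.card_range, nsmul_eq_mul]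
  have h3 : |T - L * s0| ≤ L * (|s0| / 4) := by
    have : T - L * s0 = L * ((L : ℝ)⁻¹ * T - s0) := by field_simp
    rw [this, abs_mul, abs_of_pos hL']
    exact mul_le_mul_of_nonneg_left hL hL'.le
  have h4 : |A - L * (ε * s0)| ≤ L * (ε * |s0| / 2) := by
    calc |A - L * (ε * s0)| = |(A - ε * T) + ε * (T - L * s0)| := by ring_nf
      _ ≤ |A - ε * T| + |ε * (T - L * s0)| := abs_add_le _ _
      _ ≤ L * ε ^ 2 + ε * (L * (|s0| / 4)) := by
        apply add_le_add h1
        rw [abs_mul, abs_of_pos hε0]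
        exact mul_le_mul_of_nonneg_left h3 hε0.le
      _ ≤ L * (ε * |s0| / 2) := by
        have : ε ^ 2 ≤ ε * (|s0| / 4) := by
          rw [sq]; exact mul_le_mul_of_nonneg_left hε2 hε0.le
        nlinarith
  have h5 : |s * A - L * (ε * |s0|)| ≤ L * (ε * |s0| / 2) := by
    have : s * A - L * (ε * |s0|) = s * (A - L * (ε * s0)) := by rw [← hss]; ring
    rw [this, abs_mul]
    have hs1 : |s| = 1 := by rcases hs with h | h <;> simp [h]
    rw [hs1, one_mul]
    exact h4
  rw [abs_le] at h5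
  linarith [h5.1]

end avg

section main

variable {Λ : Type*} [MeasurableSpace Λ] [DiscreteMeasurableSpace Λ]
  {μ : Measure (ℕ → Λ)} [IsProbabilityMeasure μ] (hμ : MeasurePreserving shift μ μ)
  {Γ : Type*} [MeasurableSpace Γ] [DiscreteMeasurableSpace Γ]
  {ν : Measure (ℕ → Γ)} [IsProbabilityMeasure ν] (hν : MeasurePreserving shift ν ν)
  {m m' : ℕ} {π : Λ → Fin m} {π' : Γ → Fin m'} {a : Λ} {b : Γ}
  (ha : ∀ c, π c = π a ↔ c = a) (hb : ∀ c, π' c = π' b ↔ c = b)
  {v : (ℕ → Fin m) → ℝ} (hv : Measurable v) (hv1 : ∀ z, |v z| ≤ 1)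
  (hc : Centred (μ.map (pr π)) shift v)
  (hva : ∫ z, v z * sym (π a) z ∂(μ.map (pr π)) ≠ 0)
  {w : (ℕ → Fin m') → ℝ} (hw : Measurable w) (hw1 : ∀ z, |w z| ≤ 1)
  (hc' : Centred (ν.map (pr π')) shift w)
  (hwb : ∫ z, w z * sym (π' b) z ∂(ν.map (pr π')) ≠ 0)

open Classical in
/-- indicator of a cylinder -/
noncomputable def indCyl {Λ : Type*} (B : List Λ) (x : ℕ → Λ) : ℝ := if x ∈ cyl B then 1 else 0

lemma indCyl_meas (B : List Λ) : Measurable (indCyl B) := by
  classical
  exact Measurable.ite (measurableSet_cyl B) measurable_const measurable_const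

omit [MeasurableSpace Λ] [DiscreteMeasurableSpace Λ] in
lemma indCyl_bd (B : List Λ) (x : ℕ → Λ) : |indCyl B x| ≤ 1 := by
  unfold indCyl
  split_ifs <;> simp

lemma integral_indCyl (B : List Λ) : ∫ x, indCyl B x ∂μ = μ.real (cyl B) := by
  classical
  have : indCyl B = (cyl B).indicator (fun _ => (1 : ℝ)) := by
    funext x
    simp [indCyl, Set.indicator]
  rw [this, integral_indicator (measurableSet_cyl B)]
  simp

omit [MeasurableSpace Λ] [DiscreteMeasurableSpace Λ] in
lemma occ_eq (B : List Λ) (L : ℕ) (x : ℕ → Λ) :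
    occ B L x = ∑ k ∈ Finset.range L, indCyl B (shift^[k] x) := rfl

lemma occ_meas (B : List Λ) (L : ℕ) : Measurable (occ B L) := by
  have : occ B L = fun x => ∑ k ∈ Finset.range L, indCyl B (shift^[k] x) := rfl
  rw [this]
  exact Finset.measurable_sum _ fun k _ => (indCyl_meas B).comp (measurable_shift.iterate k)

omit [MeasurableSpace Λ] [DiscreteMeasurableSpace Λ] in
lemma occ_bd (B : List Λ) (L : ℕ) (x : ℕ → Λ) : |occ B L x| ≤ L := by
  rw [occ_eq]
  refine (Finset.abs_sum_le_sum_abs _ _).trans ?_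
  refine (Finset.sum_le_sum fun k _ => indCyl_bd B _).trans ?_
  simp

include hμ in
lemma integral_occ (B : List Λ) (L : ℕ) : ∫ x, occ B L x ∂μ = L * μ.real (cyl B) := by
  simp_rw [occ_eq]
  rw [integral_finsetSum]
  · have : ∀ k ∈ Finset.range L, ∫ x, indCyl B (shift^[k] x) ∂μ = μ.real (cyl B) := by
      intro k _
      rw [← integral_indCyl]
      exact integral_comp_pres (hμ.iterate k) (indCyl_meas B)
    rw [Finset.sum_congr rfl this]
    simp
  · intro k _
    exact Integrable.of_bound ((indCyl_meas B).comp (measurable_shift.iterate k)).aestronglyMeasurable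
      1 (Eventually.of_forall fun x => indCyl_bd B _)


include hμ in
/-- L² class of the averaged occurrence count -/
lemma toL2_avg (B : List Λ) (L p : ℕ) :
    toL2 μ (fun x => (L : ℝ)⁻¹ * occ B L (shift^[p] x)) =
      (Uop hμ)^[p] (birkhoffAverage ℝ (Uop hμ) _root_.id L (toL2 μ (indCyl B))) := by
  have hm : MemLp (indCyl B) 2 μ := memLp_of_bdd μ (indCyl_meas B) (indCyl_bd B)
  have h1 : birkhoffAverage ℝ (Uop hμ) _root_.id L (toL2 μ (indCyl B)) =
      toL2 μ (fun x => (L : ℝ)⁻¹ * occ B L x) := by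
    rw [toL2_smul _ (memLp_of_bdd μ (occ_meas B L) (occ_bd B L))]
    simp only [birkhoffAverage, birkhoffSum, id_eq]
    congr 1
    have h2 := toL2_sum (μ := μ) (Finset.range L) (fun _ => (1 : ℝ))
      (fun k x => indCyl B (shift^[k] x)) (fun k => hm.comp_measurePreserving (hμ.iterate k))
    simp only [one_mul, one_smul] at h2
    have h3 : occ B L = fun x => ∑ k ∈ Finset.range L, indCyl B (shift^[k] x) := rfl
    rw [h3, h2]
    apply Finset.sum_congr rfl
    intro k _
    exact Uop_iter_toL2 hμ hm k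
  rw [h1, Uop_iter_toL2 hμ]
  exact (memLp_of_bdd μ (occ_meas B L) (occ_bd B L)).const_mul _

/-- word read off from `y` -/
def rd (L q : ℕ) (y : ℕ → Γ) : Fin L → Γ := fun j => y (j + q)

lemma rd_meas (L q : ℕ) (i : Fin L → Γ) : MeasurableSet (rd L q ⁻¹' {i}) := by
  have : rd L q ⁻¹' {i} = ⋂ j : Fin L, (fun y : ℕ → Γ => y (j + q)) ⁻¹' {i j} := by
    ext y
    simp [rd, funext_iff]
  rw [this]
  exact MeasurableSet.iInter fun j =>
    measurable_pi_apply (X := fun _ : ℕ => Γ) _ (measurableSet_singleton _)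

include hν in
lemma rd_measure (L q : ℕ) (i : Fin L → Γ) :
    ν.real (rd L q ⁻¹' {i}) = ν.real {y | ∀ k : Fin L, y k = i k} := by
  have h1 : rd L q ⁻¹' {i} = shift^[q] ⁻¹' (rd L 0 ⁻¹' {i}) := by
    ext y
    have h0 : rd L q y = rd L 0 (shift^[q] y) := by
      funext j
      simp [rd, shift_iter]
    simp only [Set.mem_preimage, Set.mem_singleton_iff, h0]
  have h2 : {y : ℕ → Γ | ∀ k : Fin L, y k = i k} = rd L 0 ⁻¹' {i} := by
    ext y
    simp [rd, funext_iff]
  rw [h1, h2, measureReal_def, measureReal_def,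
    (hν.iterate q).measure_preimage (rd_meas L 0 i).nullMeasurableSet]


include hμ hν ha hb hv hv1 hc hva hw hw1 hc' hwb in
theorem kernel_lemma [Fintype Γ] [DecidableEq Γ] :
    ∃ δ : ℝ, 0 < δ ∧ ∃ s : ℝ, (s = 1 ∨ s = -1) ∧
      ∀ (𝓑 : Finset (List Λ)) (η : ℝ), 0 < η → ∀ L0 : ℕ,
        ∃ L : ℕ, L0 ≤ L ∧ 0 < L ∧ ∃ κ : (Fin L → Γ) → Measure (ℕ → Λ),
          (∀ i, IsProbabilityMeasure (κ i)) ∧
          (∀ i, ∀ B ∈ 𝓑, |∫ x, occ B L x ∂(κ i) - L * μ.real (cyl B)| ≤ L * η) ∧
          δ * L ≤ s * ∑ i, ν.real {y | ∀ k : Fin L, y k = i k} *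
            ∫ x, corr a b (μ.real (cyl [a])) i x ∂(κ i) := by
  classical
  have hmπ : Measurable π := Measurable.of_discrete
  have hmπ' : Measurable π' := Measurable.of_discrete
  have hπ := pr_preserving μ hmπ
  have hπ' := pr_preserving ν hmπ'
  have hσ := shift_preserving_map hμ hmπ
  have hτ := shift_preserving_map hν hmπ'
  set P := μ.map (pr π) with hP
  set Q := ν.map (pr π') with hQ
  have iP : IsProbabilityMeasure P := Measure.isProbabilityMeasure_map hπ.measurable.aemeasurable
  have iQ : IsProbabilityMeasure Q := Measure.isProbabilityMeasure_map hπ'.measurable.aemeasurable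
  have hmF := memLp_of_bdd P (sym_meas (π a)) (sym_bd (π a))
  have hmG := memLp_of_bdd Q (sym_meas (π' b)) (sym_bd (π' b))
  set F0 := toL2 P (sym (π a)) with hF0
  set G0 := toL2 Q (sym (π' b)) with hG0
  have hα0 : coef P hσ hv hv1 F0 0 ≠ 0 := by
    have : coef P hσ hv hv1 F0 0 = ∫ z, v z * sym (π a) z ∂P := by
      rw [coef, Function.iterate_zero, id_eq, inner_eq]
      apply integral_congr_ae
      filter_upwards [vL_coe P hv hv1, toL2_coe hmF] with z h1 h2
      rw [h1, h2]
    rw [this]; exact hva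
  have hβ0 : coef Q hτ hw hw1 G0 0 ≠ 0 := by
    have : coef Q hτ hw hw1 G0 0 = ∫ z, w z * sym (π' b) z ∂Q := by
      rw [coef, Function.iterate_zero, id_eq, inner_eq]
      apply integral_congr_ae
      filter_upwards [vL_coe Q hw hw1, toL2_coe hmG] with z h1 h2
      rw [h1, h2]
    rw [this]; exact hwb
  obtain ⟨p, q, hpq⟩ := exists_lag _ _ (coef_summable P hσ hv hv1 hc F0)
    (coef_summable Q hτ hw hw1 hc' G0) hα0 hβ0
  set s0 := ∑' m, ext (coef P hσ hv hv1 F0) p m * ext (coef Q hτ hw hw1 G0) q m with hs0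
  obtain ⟨s, hs, hss⟩ : ∃ s : ℝ, (s = 1 ∨ s = -1) ∧ s * s0 = |s0| := by
    rcases le_or_gt 0 s0 with h | h
    · exact ⟨1, Or.inl rfl, by rw [one_mul, abs_of_nonneg h]⟩
    · exact ⟨-1, Or.inr rfl, by rw [abs_of_neg h]; ring⟩
  have hs0pos : 0 < |s0| := abs_pos.2 hpq
  set ε : ℝ := min 1 (|s0| / 4) with hε
  have hε0 : 0 < ε := lt_min one_pos (by positivity)
  have hε1 : ε ≤ 1 := min_le_left _ _
  have hε2 : ε ≤ |s0| / 4 := min_le_right _ _
  have hs1 : |s| = 1 := by rcases hs with h | h <;> simp [h]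
  refine ⟨ε * |s0| / 4, by positivity, s, hs, ?_⟩
  set δ := ε * |s0| / 4 with hδ
  have hδ0 : 0 < δ := by positivity
  intro 𝓑 η hη L0
  have hev1 := avg_lower hσ hτ hv hw hv1 hw1 hc hc' F0 G0
    (norm_toL2_le_one (sym_meas _) (sym_bd _)) (norm_toL2_le_one (sym_meas _) (sym_bd _)) p q hs0
    hs hss hpq hε0 hε1 hε2
  -- information quantities
  set qB : List Λ → ℕ → ℝ := fun B L =>
    ‖Top hπ (toL2 μ (fun x => (L : ℝ)⁻¹ * occ B L (shift^[p] x)))‖ ^ 2 -
      ‖(Top hσ)^[L] (Top hπ (toL2 μ (fun x => (L : ℝ)⁻¹ * occ B L (shift^[p] x))))‖ ^ 2 with hqB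
  have hqlim : ∀ B, Tendsto (qB B) atTop (𝓝 0) := by
    intro B
    have := birkhoff_q hπ hμ hσ (fun x => pr_shift π x) (toL2 μ (indCyl B)) p
    refine this.congr fun L => ?_
    rw [hqB]
    simp only [toL2_avg hμ]
  have hqsum : Tendsto (fun L => ∑ B ∈ 𝓑, qB B L) atTop (𝓝 0) := by
    have := tendsto_finsetSum 𝓑 (fun B _ => hqlim B)
    simpa using this
  have hev2 : ∀ᶠ L : ℕ in atTop, ∑ B ∈ 𝓑, qB B L ≤ η ^ 2 * δ := by
    have := (Metric.tendsto_nhds.1 hqsum) (η ^ 2 * δ) (by positivity)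
    filter_upwards [this] with L hL
    rw [Real.dist_eq, sub_zero] at hL
    exact (le_abs_self _).trans hL.le
  obtain ⟨L, hL1, hL2, hL3, hL4⟩ := (hev1.and (hev2.and ((eventually_ge_atTop L0).and
    (eventually_gt_atTop 0)))).exists
  have hLpos : (0 : ℝ) < L := by exact_mod_cast hL4
  refine ⟨L, hL3, hL4, ?_⟩
  have hR := rd_meas (Γ := Γ) L q
  obtain ⟨κ0, hκp, hκ⟩ := raw_kernel (ν := ν) hπ hπ' hε0.le hε1 hσ hτ hv hw hv1 hw1 hc L
    (R := rd L q) hR
  -- averaged occurrence functions
  set φ : List Λ → (ℕ → Λ) → ℝ := fun B x => (L : ℝ)⁻¹ * occ B L (shift^[p] x) with hφ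
  have hφm : ∀ B, Measurable (φ B) := fun B =>
    ((occ_meas B L).comp (measurable_shift.iterate p)).const_mul _
  have hφb : ∀ B, ∃ C, ∀ x, |φ B x| ≤ C := fun B => ⟨(L : ℝ)⁻¹ * L, fun x => by
    rw [hφ]
    simp only
    rw [abs_mul, abs_of_pos (inv_pos.2 hLpos)]
    exact mul_le_mul_of_nonneg_left (occ_bd B L _) (inv_pos.2 hLpos).le⟩
  have hφint : ∀ B, ∫ x, φ B x ∂μ = μ.real (cyl B) := by
    intro B
    rw [hφ]
    simp only
    rw [integral_const_mul, integral_comp_pres (hμ.iterate p) (occ_meas B L), integral_occ hμ]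
    field_simp
  have hsq : ∀ B, ∑ i, ν.real (rd L q ⁻¹' {i}) * (∫ x, φ B x ∂(κ0 i) - μ.real (cyl B)) ^ 2 ≤
      qB B L := by
    intro B
    have := sum_sq_le hπ hπ' hε0.le hε1 hσ hτ hv hw hv1 hw1 hc hc' L hR hκ (hφm B) (hφb B)
    rw [hφint B] at this
    exact this
  -- the bad words
  set Z : Finset (Fin L → Γ) := Finset.univ.filter
    (fun i => ∃ B ∈ 𝓑, η < |∫ x, φ B x ∂(κ0 i) - μ.real (cyl B)|) with hZ
  have hZsum : ∑ i ∈ Z, ν.real (rd L q ⁻¹' {i}) ≤ δ := by
    have h1 : η ^ 2 * ∑ i ∈ Z, ν.real (rd L q ⁻¹' {i}) ≤ η ^ 2 * δ := by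
      calc η ^ 2 * ∑ i ∈ Z, ν.real (rd L q ⁻¹' {i})
          ≤ ∑ i ∈ Z, ∑ B ∈ 𝓑, ν.real (rd L q ⁻¹' {i}) *
              (∫ x, φ B x ∂(κ0 i) - μ.real (cyl B)) ^ 2 := by
            rw [Finset.mul_sum]
            apply Finset.sum_le_sum
            intro i hi
            rw [hZ, Finset.mem_filter] at hi
            obtain ⟨-, B, hB, hlt⟩ := hi
            have h2 : η ^ 2 * ν.real (rd L q ⁻¹' {i}) ≤ ν.real (rd L q ⁻¹' {i}) *
                (∫ x, φ B x ∂(κ0 i) - μ.real (cyl B)) ^ 2 := by
              rw [mul_comm]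
              apply mul_le_mul_of_nonneg_left _ measureReal_nonneg
              rw [← sq_abs (_ - _)]
              exact pow_le_pow_left₀ hη.le hlt.le 2
            refine h2.trans ?_
            exact Finset.single_le_sum (f := fun B => ν.real (rd L q ⁻¹' {i}) *
                (∫ x, φ B x ∂(κ0 i) - μ.real (cyl B)) ^ 2)
              (fun B _ => mul_nonneg measureReal_nonneg (sq_nonneg _)) hB
        _ ≤ ∑ i, ∑ B ∈ 𝓑, ν.real (rd L q ⁻¹' {i}) *
              (∫ x, φ B x ∂(κ0 i) - μ.real (cyl B)) ^ 2 := by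
            apply Finset.sum_le_sum_of_subset_of_nonneg (Finset.subset_univ _)
            intro i _ _
            exact Finset.sum_nonneg fun B _ => mul_nonneg measureReal_nonneg (sq_nonneg _)
        _ = ∑ B ∈ 𝓑, ∑ i, ν.real (rd L q ⁻¹' {i}) *
              (∫ x, φ B x ∂(κ0 i) - μ.real (cyl B)) ^ 2 := Finset.sum_comm
        _ ≤ ∑ B ∈ 𝓑, qB B L := Finset.sum_le_sum fun B _ => hsq B
        _ ≤ η ^ 2 * δ := hL2
    exact le_of_mul_le_mul_left h1 (by positivity)
  have hmsh : Measurable (shift^[p] : (ℕ → Λ) → (ℕ → Λ)) := measurable_shift.iterate p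
  have hmapint : ∀ i {f : (ℕ → Λ) → ℝ}, Measurable f →
      ∫ x, f x ∂((κ0 i).map shift^[p]) = ∫ x, f (shift^[p] x) ∂(κ0 i) := fun i f hf =>
    integral_map hmsh.aemeasurable hf.aestronglyMeasurable
  refine ⟨fun i => if i ∈ Z then μ else (κ0 i).map shift^[p], ?_, ?_, ?_⟩
  · intro i
    have := hκp i
    show IsProbabilityMeasure (if i ∈ Z then μ else (κ0 i).map shift^[p])
    split_ifs
    · infer_instance
    · exact Measure.isProbabilityMeasure_map hmsh.aemeasurable
  · intro i B hB
    show |∫ x, occ B L x ∂(if i ∈ Z then μ else (κ0 i).map shift^[p]) - _| ≤ _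
    split_ifs with hi
    · rw [integral_occ hμ, sub_self, abs_zero]
      positivity
    · rw [hmapint i (occ_meas B L)]
      have h1 : ∫ x, occ B L (shift^[p] x) ∂(κ0 i) = L * ∫ x, φ B x ∂(κ0 i) := by
        rw [hφ]
        simp only
        rw [integral_const_mul]
        field_simp
      rw [h1, ← mul_sub, abs_mul, abs_of_pos hLpos]
      apply mul_le_mul_of_nonneg_left _ hLpos.le
      by_contra hcon
      push Not at hcon
      exact hi (by rw [hZ, Finset.mem_filter]; exact ⟨Finset.mem_univ _, B, hB, hcon⟩)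
  · -- the correlation
    set c := μ.real (cyl [a]) with hcdef
    have hc01 : 0 ≤ c ∧ c ≤ 1 := ⟨measureReal_nonneg, measureReal_le_one⟩
    have hcoord : ∀ k : ℕ, Measurable (fun x : ℕ → Λ => if x k = a then (1 : ℝ) else 0) := by
      intro k
      apply Measurable.ite _ measurable_const measurable_const
      exact measurable_pi_apply (X := fun _ : ℕ => Λ) k (measurableSet_singleton a)
    have hcorrm : ∀ i : Fin L → Γ, Measurable (corr a b c i) := by
      intro i
      unfold corr
      apply Finset.measurable_sum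
      intro k _
      split_ifs
      · exact (hcoord k).sub_const _
      · exact measurable_const
    have hcorrb : ∀ (i : Fin L → Γ) x, |corr a b c i x| ≤ L := by
      intro i x
      unfold corr
      refine (Finset.abs_sum_le_sum_abs _ _).trans ?_
      refine (Finset.sum_le_sum (g := fun _ => (1 : ℝ)) ?_).trans (by simp)
      intro k _
      split_ifs <;> rw [abs_le] <;> constructor <;> linarith [hc01.1, hc01.2]
    have hcint : ∫ x, (if x 0 = a then (1 : ℝ) else 0) ∂μ = c := by
      rw [hcdef, ← integral_indCyl]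
      congr 1
      funext x
      simp [indCyl, cyl]
    have hfint : ∀ k : ℕ, ∫ x, (if x k = a then (1 : ℝ) else 0) ∂μ = c := by
      intro k
      rw [← hcint, ← integral_comp_pres (hμ.iterate k) (hcoord 0)]
      simp only [shift_iter, zero_add]
    have hcorr0 : ∀ i : Fin L → Γ, ∫ x, corr a b c i x ∂μ = 0 := by
      intro i
      unfold corr
      rw [integral_finsetSum]
      · apply Finset.sum_eq_zero
        intro k _
        split_ifs
        · rw [integral_sub, hfint]
          · simp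
          · exact Integrable.of_bound (hcoord k).aestronglyMeasurable 1
              (Eventually.of_forall fun x => by split_ifs <;> simp)
          · exact integrable_const _
        · simp
      · intro k _
        split_ifs
        · exact (Integrable.of_bound (hcoord k).aestronglyMeasurable 1
              (Eventually.of_forall fun x => by split_ifs <;> simp)).sub (integrable_const _)
        · exact integrable_const _
    -- formula for the unmodified kernel
    have hexp : ∀ i, ∫ x, corr a b c i x ∂((κ0 i).map shift^[p]) =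
        ∑ k : Fin L, (if i k = b then (1 : ℝ) else 0) *
          (∫ x, (if x (k + p) = a then (1 : ℝ) else 0) ∂(κ0 i) -
            ∫ x, (if x (k + p) = a then (1 : ℝ) else 0) ∂μ) := by
      intro i
      have := hκp i
      rw [hmapint i (hcorrm i)]
      unfold corr
      simp only [shift_iter]
      rw [integral_finsetSum]
      · apply Finset.sum_congr rfl
        intro k _
        rw [hfint]
        split_ifs
        · rw [integral_sub]
          · simp
          · exact Integrable.of_bound (hcoord (k + p)).aestronglyMeasurable 1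
              (Eventually.of_forall fun x => by split_ifs <;> simp)
          · exact integrable_const _
        · simp
      · intro k _
        split_ifs
        · exact (Integrable.of_bound (hcoord (k + p)).aestronglyMeasurable 1
              (Eventually.of_forall fun x => by split_ifs <;> simp)).sub (integrable_const _)
        · exact integrable_const _
    have htot : ∑ i, ν.real (rd L q ⁻¹' {i}) * ∫ x, corr a b c i x ∂((κ0 i).map shift^[p]) =
        ∑ k ∈ Finset.range L,
          (II P Q hσ hτ hv hw hv1 hw1 ε L ((Uop hσ)^[k + p] F0) ((Uop hτ)^[k + q] G0) -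
            eop P F0 * eop Q G0) := by
      rw [← Fin.sum_univ_eq_sum_range (fun k => (II P Q hσ hτ hv hw hv1 hw1 ε L
        ((Uop hσ)^[k + p] F0) ((Uop hτ)^[k + q] G0) - eop P F0 * eop Q G0)) L]
      simp_rw [hexp, Finset.mul_sum]
      rw [Finset.sum_comm]
      apply Finset.sum_congr rfl
      intro k _
      have h1 := sum_corr hπ hπ' hσ hτ hv hw hv1 hw1 L hR hκ (hcoord (k + p))
        ⟨1, fun x => by split_ifs <;> simp⟩ (fun i => if i k = b then (1 : ℝ) else 0)
      rw [h1]
      have h2 : toL2 μ (fun x => if x ((k : ℕ) + p) = a then (1 : ℝ) else 0) =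
          Uop hπ ((Uop hσ)^[(k : ℕ) + p] F0) := by
        rw [hF0, Uop_iter_toL2 hσ hmF]
        refine Eq.trans ?_ (Uop_toL2 hπ (hmF.comp_measurePreserving (hσ.iterate _))).symm
        congr 1
        funext x
        simp only [sym, Function.comp, shift_iter, zero_add, pr, ha]
      have h3 : toL2 ν (fun y => if rd L q y k = b then (1 : ℝ) else 0) =
          Uop hπ' ((Uop hτ)^[(k : ℕ) + q] G0) := by
        rw [hG0, Uop_iter_toL2 hτ hmG]
        refine Eq.trans ?_ (Uop_toL2 hπ' (hmG.comp_measurePreserving (hτ.iterate _))).symm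
        congr 1
        funext x
        simp only [sym, Function.comp, shift_iter, zero_add, pr, hb, rd]
        by_cases hxb : x ((k : ℕ) + q) = b
        · simp [hxb]
        · simp [hxb]
      have h4 : ∫ x, (if x ((k : ℕ) + p) = a then (1 : ℝ) else 0) ∂μ = eop P F0 := by
        rw [← eop_toL2 (memLp_of_bdd μ (hcoord (k + p)) (C := 1)
          (fun x => by split_ifs <;> simp)), h2, ← eop_Top μ hπ, Top_Uop, eop_Uop_iter]
      have h5 : ∫ y, (if rd L q y k = b then (1 : ℝ) else 0) ∂ν = eop Q G0 := by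
        rw [← eop_toL2 (memLp_comp_fin hR (fun i => if i k = b then (1 : ℝ) else 0)), h3,
          ← eop_Top ν hπ', Top_Uop, eop_Uop_iter]
      rw [h4, h5, JJ, h2, h3, Top_Uop, Top_Uop]
    rw [← htot] at hL1
    have hdiff : |∑ i, ν.real (rd L q ⁻¹' {i}) * ∫ x, corr a b c i x
          ∂(if i ∈ Z then μ else (κ0 i).map shift^[p]) -
        ∑ i, ν.real (rd L q ⁻¹' {i}) * ∫ x, corr a b c i x ∂((κ0 i).map shift^[p])| ≤ L * δ := by
      rw [← Finset.sum_sub_distrib]
      refine (Finset.abs_sum_le_sum_abs _ _).trans ?_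
      calc ∑ i, |ν.real (rd L q ⁻¹' {i}) * ∫ x, corr a b c i x
              ∂(if i ∈ Z then μ else (κ0 i).map shift^[p]) -
            ν.real (rd L q ⁻¹' {i}) * ∫ x, corr a b c i x ∂((κ0 i).map shift^[p])|
          ≤ ∑ i, (if i ∈ Z then ν.real (rd L q ⁻¹' {i}) * L else 0) := by
            apply Finset.sum_le_sum
            intro i _
            split_ifs with hi
            · rw [hcorr0, mul_zero, zero_sub, abs_neg, abs_mul, abs_of_nonneg measureReal_nonneg]
              apply mul_le_mul_of_nonneg_left _ measureReal_nonneg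
              have := hκp i
              have hp : IsProbabilityMeasure ((κ0 i).map shift^[p]) :=
                Measure.isProbabilityMeasure_map hmsh.aemeasurable
              rw [← Real.norm_eq_abs]
              have hb1 : ∀ᵐ x ∂((κ0 i).map shift^[p]), ‖corr a b c i x‖ ≤ (L : ℝ) :=
                Eventually.of_forall (fun x => by rw [Real.norm_eq_abs]; exact hcorrb i x)
              have hb2 := norm_integral_le_of_norm_le_const hb1
              simpa using hb2
            · rw [sub_self, abs_zero]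
        _ = (∑ i ∈ Z, ν.real (rd L q ⁻¹' {i})) * L := by
            rw [← Finset.sum_filter, Finset.sum_mul]
            congr 1
            ext i
            simp
        _ ≤ δ * L := mul_le_mul_of_nonneg_right hZsum hLpos.le
        _ = L * δ := mul_comm _ _
    simp_rw [← rd_measure hν L q]
    set T := ∑ i, ν.real (rd L q ⁻¹' {i}) * ∫ x, corr a b c i x
          ∂(if i ∈ Z then μ else (κ0 i).map shift^[p]) with hT
    set T1 := ∑ i, ν.real (rd L q ⁻¹' {i}) * ∫ x, corr a b c i x ∂((κ0 i).map shift^[p]) with hT1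
    have h6 : |s * T - s * T1| ≤ L * δ := by
      rw [← mul_sub, abs_mul, hs1, one_mul]; exact hdiff
    rw [abs_le] at h6
    have h7 : ε * |s0| / 2 * L = 2 * δ * L := by rw [hδ]; ring
    rw [h7] at hL1
    linarith [h6.1]

end main

end Pool.Agent.Work.MP_0c7e55_an
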