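import Mathlib

open MeasureTheory ProbabilityTheory Filter Topology

namespace Pool.Agent.Work.MP_0c7e55_an

/-- Sampling: a probability measure has a sequence of points with prescribed averages of finitely
many bounded functions. -/
theorem sampling {X J : Type*} [MeasurableSpace X] [Finite J] (κ : Measure X)
    [IsProbabilityMeasure κ] (φ : J → X → ℝ) (hφ : ∀ j, Measurable (φ j))
    (hb : ∀ j, ∃ C, ∀ x, |φ j x| ≤ C) :
    ∃ u : ℕ → X, ∀ j, Tendsto (fun n : ℕ => (∑ m ∈ Finset.range n, φ j (u m)) / n) atTop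
      (𝓝 (∫ x, φ j x ∂κ)) := by
  set P : Measure (ℕ → X) := Measure.infinitePi (fun _ => κ) with hP
  have hmp : ∀ m : ℕ, MeasurePreserving (fun ω : ℕ → X => ω m) P κ := fun m =>
    measurePreserving_eval_infinitePi (fun _ => κ) m
  have hind : iIndepFun (fun (m : ℕ) (ω : ℕ → X) => ω m) P := by
    have := iIndepFun_infinitePi (P := fun _ : ℕ => κ) (X := fun _ : ℕ => (id : X → X))
      (fun _ => measurable_id)
    exact this
  have main : ∀ j, ∀ᵐ ω ∂P, Tendsto (fun n : ℕ => (∑ m ∈ Finset.range n, φ j (ω m)) / n) atTop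
      (𝓝 (∫ x, φ j x ∂κ)) := by
    intro j
    obtain ⟨C, hC⟩ := hb j
    have h := strong_law_ae_real (μ := P) (fun m ω => φ j (ω m)) ?_ ?_ ?_
    · have h2 : ∫ ω, φ j (ω 0) ∂P = ∫ x, φ j x ∂κ := by
        rw [← (hmp 0).map_eq, integral_map (hmp 0).measurable.aemeasurable
          (hφ j).aestronglyMeasurable]
      rw [h2] at h
      exact h
    · exact Integrable.of_bound ((hφ j).comp (measurable_pi_apply 0)).aestronglyMeasurable C
        (Eventually.of_forall fun ω => hC _)
    · intro m n hmn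
      exact (hind.indepFun hmn).comp (hφ j) (hφ j)
    · intro i
      refine ⟨((hφ j).comp (measurable_pi_apply i)).aemeasurable,
        ((hφ j).comp (measurable_pi_apply 0)).aemeasurable, ?_⟩
      have h1 : Measure.map (fun ω : ℕ → X => φ j (ω i)) P = κ.map (φ j) := by
        rw [← (hmp i).map_eq, Measure.map_map (hφ j) (hmp i).measurable]
        rfl
      have h2 : Measure.map (fun ω : ℕ → X => φ j (ω 0)) P = κ.map (φ j) := by
        rw [← (hmp 0).map_eq, Measure.map_map (hφ j) (hmp 0).measurable]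
        rfl
      rw [h1, h2]
  have hall : ∀ᵐ ω ∂P, ∀ j, Tendsto (fun n : ℕ => (∑ m ∈ Finset.range n, φ j (ω m)) / n) atTop
      (𝓝 (∫ x, φ j x ∂κ)) := by
    rw [ae_all_iff]
    exact main
  exact hall.exists

/-- reformulation with a sublinear error -/
theorem sublinear_of_tendsto {s : ℕ → ℝ} {E : ℝ}
    (h : Tendsto (fun n : ℕ => s n / n) atTop (𝓝 E)) {ξ : ℝ} (hξ : 0 < ξ) :
    ∃ C : ℝ, 0 ≤ C ∧ ∀ n : ℕ, |s n - n * E| ≤ ξ * n + C := by
  obtain ⟨N, hN⟩ := (Metric.tendsto_atTop.1 h) ξ hξ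
  refine ⟨∑ n ∈ Finset.range (N + 1), |s n - n * E|, Finset.sum_nonneg fun _ _ => abs_nonneg _, ?_⟩
  intro n
  rcases le_or_gt n N with hn | hn
  · have h1 : |s n - n * E| ≤ ∑ n ∈ Finset.range (N + 1), |s n - n * E| :=
      Finset.single_le_sum (f := fun n : ℕ => |s n - n * E|) (fun _ _ => abs_nonneg _)
        (Finset.mem_range.2 (by omega))
    have : 0 ≤ ξ * n := by positivity
    linarith
  · have h1 := hN n hn.le
    rw [Real.dist_eq] at h1
    have hn0 : (0 : ℝ) < n := by
      have : 0 < n := by omega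
      exact_mod_cast this
    have h2 : |s n - n * E| = n * |s n / n - E| := by
      rw [← abs_of_pos hn0, ← abs_mul, abs_of_pos hn0]
      congr 1
      field_simp
    rw [h2]
    have h3 : (n : ℝ) * |s n / n - E| ≤ n * ξ := mul_le_mul_of_nonneg_left h1.le hn0.le
    have h4 : 0 ≤ ∑ n ∈ Finset.range (N + 1), |s n - n * E| :=
      Finset.sum_nonneg fun _ _ => abs_nonneg _
    linarith

end Pool.Agent.Work.MP_0c7e55_an
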