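import Mathlib
import Pool.Agent.Work.MP_0c7e55_an.Sampling
import Pool.Agent.Work.MP_0c7e55_an.KernelFinal

open MeasureTheory ProbabilityTheory Filter Topology

namespace Pool.Agent.Work.MP_0c7e55_an

section blocks

variable {Λ Γ : Type*}

/-- the word of `y` at position `t` -/
def word (y : ℕ → Γ) (L t : ℕ) : Fin L → Γ := fun j => y (t + j)

open Classical in
/-- number of aligned occurrences of the word `i` -/
noncomputable def cntw (y : ℕ → Γ) (L r : ℕ) (i : Fin L → Γ) (K : ℕ) : ℕ :=
  ((Finset.range K).filter (fun k => word y L (r + k * L) = i)).card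

lemma cntw_zero (y : ℕ → Γ) (L r : ℕ) (i : Fin L → Γ) : cntw y L r i 0 = 0 := by
  simp [cntw]

open Classical in
lemma cntw_succ (y : ℕ → Γ) (L r : ℕ) (i : Fin L → Γ) (K : ℕ) :
    cntw y L r i (K + 1) = cntw y L r i K + if word y L (r + K * L) = i then 1 else 0 := by
  unfold cntw
  rw [Finset.range_add_one, Finset.filter_insert]
  split_ifs with h
  · rw [Finset.card_insert_of_notMem (by simp)]
  · simp

lemma block_sum [Fintype Γ] [DecidableEq Γ] (y : ℕ → Γ) (L r : ℕ)
    (F : (Fin L → Γ) → ℕ → ℝ) (K : ℕ) :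
    ∑ k ∈ Finset.range K, F (word y L (r + k * L)) (cntw y L r (word y L (r + k * L)) k) =
      ∑ i, ∑ m ∈ Finset.range (cntw y L r i K), F i m := by
  classical
  induction K with
  | zero => simp [cntw_zero]
  | succ K ih =>
    rw [Finset.sum_range_succ, ih]
    set w := word y L (r + K * L) with hw
    have h1 : ∀ i, ∑ m ∈ Finset.range (cntw y L r i (K + 1)), F i m =
        ∑ m ∈ Finset.range (cntw y L r i K), F i m + if w = i then F i (cntw y L r i K) else 0 := by
      intro i
      rw [cntw_succ]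
      split_ifs with h
      · rw [Finset.sum_range_succ]
      · simp
    simp_rw [h1]
    rw [Finset.sum_add_distrib]
    congr 1
    simp

lemma cntw_sum [Fintype Γ] [DecidableEq Γ] (y : ℕ → Γ) (L r K : ℕ) :
    ∑ i, (cntw y L r i K : ℝ) = K := by
  have := block_sum y L r (fun _ _ => (1 : ℝ)) K
  simpa using this.symm

lemma sum_blocks (f : ℕ → ℝ) (L K : ℕ) :
    ∑ t ∈ Finset.range (K * L), f t =
      ∑ k ∈ Finset.range K, ∑ j ∈ Finset.range L, f (k * L + j) := by
  induction K with
  | zero => simp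
  | succ K ih => rw [Nat.succ_mul, Finset.sum_range_add, ih, Finset.sum_range_succ]

/-- the assembled sequence -/
noncomputable def assemble (y : ℕ → Γ) (L r : ℕ) (a : Λ) (u : (Fin L → Γ) → ℕ → (ℕ → Λ))
    (n : ℕ) : Λ :=
  if n < r then a else
    u (word y L (r + (n - r) / L * L)) (cntw y L r (word y L (r + (n - r) / L * L)) ((n - r) / L))
      ((n - r) % L)

lemma assemble_block (y : ℕ → Γ) {L : ℕ} (r : ℕ) (a : Λ)
    (u : (Fin L → Γ) → ℕ → (ℕ → Λ)) (k : ℕ) {j : ℕ} (hj : j < L) :
    assemble y L r a u (r + k * L + j) =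
      u (word y L (r + k * L)) (cntw y L r (word y L (r + k * L)) k) j := by
  have h1 : (r + k * L + j - r) / L = k := by
    have : r + k * L + j - r = j + L * k := by rw [mul_comm]; omega
    rw [this, Nat.add_mul_div_left _ _ (by omega), Nat.div_eq_of_lt hj, zero_add]
  have h2 : (r + k * L + j - r) % L = j := by
    have : r + k * L + j - r = j + L * k := by rw [mul_comm]; omega
    rw [this, Nat.add_mul_mod_self_left, Nat.mod_eq_of_lt hj]
  rw [assemble, if_neg (by omega), h1, h2]

lemma indCyl_assemble (y : ℕ → Γ) {L : ℕ} (r : ℕ) (a : Λ)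
    (u : (Fin L → Γ) → ℕ → (ℕ → Λ)) (k : ℕ) {j : ℕ} (B : List Λ) (hj : j + B.length ≤ L) :
    indCyl B (shift^[r + k * L + j] (assemble y L r a u)) =
      indCyl B (shift^[j] (u (word y L (r + k * L)) (cntw y L r (word y L (r + k * L)) k))) := by
  have : (shift^[r + k * L + j] (assemble y L r a u) ∈ cyl B) ↔
      (shift^[j] (u (word y L (r + k * L)) (cntw y L r (word y L (r + k * L)) k)) ∈ cyl B) := by
    simp only [cyl, Set.mem_ofPred_eq, shift_iter]
    apply forall_congr'
    intro i
    apply forall_congr'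
    intro hi
    have h1 : i + (r + k * L + j) = r + k * L + (i + j) := by ring
    rw [h1, assemble_block y r a u k (by omega)]
  unfold indCyl
  by_cases h : (shift^[r + k * L + j] (assemble y L r a u) ∈ cyl B)
  · rw [if_pos h, if_pos (this.1 h)]
  · rw [if_neg h, if_neg (fun h' => h (this.2 h'))]

lemma indCyl_01 (B : List Λ) (x : ℕ → Λ) : 0 ≤ indCyl B x ∧ indCyl B x ≤ 1 := by
  unfold indCyl
  split_ifs <;> simp

lemma count_tail (L b : ℕ) :
    ∑ j ∈ Finset.range L, (if L < j + b then (1 : ℝ) else 0) ≤ b := by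
  rw [← Finset.sum_filter, Finset.sum_const, nsmul_eq_mul, mul_one]
  have h : (Finset.range L).filter (fun j => L < j + b) ⊆ Finset.Ico (L + 1 - b) L := by
    intro j hj
    rw [Finset.mem_filter, Finset.mem_range] at hj
    rw [Finset.mem_Ico]
    omega
  have h2 := Finset.card_le_card h
  rw [Nat.card_Ico] at h2
  have h3 : ((Finset.range L).filter (fun j => L < j + b)).card ≤ b := by omega
  exact_mod_cast h3

/-- occurrences in the assembled sequence, block by block -/
lemma occ_assemble (y : ℕ → Γ) {L : ℕ} (hL : 0 < L) (r : ℕ) (a : Λ)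
    (u : (Fin L → Γ) → ℕ → (ℕ → Λ)) (B : List Λ) (N : ℕ) :
    |occ B N (assemble y L r a u) - ∑ k ∈ Finset.range ((N - r) / L),
      occ B L (u (word y L (r + k * L)) (cntw y L r (word y L (r + k * L)) k))| ≤
      (r + L : ℝ) + ((N - r) / L : ℕ) * B.length := by
  set x := assemble y L r a u with hx
  set K := (N - r) / L with hK
  set f : ℕ → ℝ := fun t => indCyl B (shift^[t] x) with hf
  have hf01 : ∀ t, 0 ≤ f t ∧ f t ≤ 1 := fun t => indCyl_01 B _
  have hocc : occ B N x = ∑ t ∈ Finset.range N, f t := rfl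
  rcases lt_or_ge N r with hNr | hNr
  · have hK0 : K = 0 := by rw [hK, Nat.sub_eq_zero_of_le hNr.le, Nat.zero_div]
    rw [hK0, Finset.range_zero, Finset.sum_empty, sub_zero, hocc]
    refine (Finset.abs_sum_le_sum_abs _ _).trans ?_
    refine (Finset.sum_le_sum (g := fun _ => (1 : ℝ)) fun t _ => ?_).trans ?_
    · rw [abs_of_nonneg (hf01 t).1]; exact (hf01 t).2
    · rw [Finset.sum_const, Finset.card_range, nsmul_eq_mul, mul_one]
      have : (N : ℝ) ≤ r := by exact_mod_cast hNr.le
      have : (0 : ℝ) ≤ L := Nat.cast_nonneg _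
      simp
      linarith
  · obtain ⟨s, hs1, hs2⟩ : ∃ s, s < L ∧ N = r + K * L + s := by
      refine ⟨(N - r) % L, Nat.mod_lt _ hL, ?_⟩
      have := Nat.div_add_mod (N - r) L
      rw [← hK] at this
      rw [mul_comm K L]
      omega
    have e1 : occ B N x = ∑ t ∈ Finset.range r, f t +
        ∑ k ∈ Finset.range K, ∑ j ∈ Finset.range L, f (r + (k * L + j)) +
        ∑ t ∈ Finset.range s, f (r + K * L + t) := by
      rw [hocc, hs2, Finset.sum_range_add, Finset.sum_range_add,
        sum_blocks (fun t => f (r + t)) L K]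
    have e2 : ∀ k ∈ Finset.range K, |∑ j ∈ Finset.range L, f (r + (k * L + j)) -
        occ B L (u (word y L (r + k * L)) (cntw y L r (word y L (r + k * L)) k))| ≤ B.length := by
      intro k _
      rw [occ_eq, ← Finset.sum_sub_distrib]
      refine (Finset.abs_sum_le_sum_abs _ _).trans ?_
      refine (Finset.sum_le_sum ?_).trans (count_tail L B.length)
      intro j hj
      rw [Finset.mem_range] at hj
      split_ifs with h
      · have h1 := hf01 (r + (k * L + j))
        have h2 := indCyl_01 B (shift^[j] (u (word y L (r + k * L))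
          (cntw y L r (word y L (r + k * L)) k)))
        rw [abs_le]
        constructor <;> linarith [h1.1, h1.2, h2.1, h2.2]
      · push Not at h
        have h3 : f (r + (k * L + j)) = indCyl B (shift^[j] (u (word y L (r + k * L))
          (cntw y L r (word y L (r + k * L)) k))) := by
          rw [hf, ← add_assoc]
          exact indCyl_assemble y r a u k B h
        rw [h3, sub_self, abs_zero]
    have e3 : |∑ t ∈ Finset.range r, f t| ≤ r := by
      refine (Finset.abs_sum_le_sum_abs _ _).trans ?_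
      refine (Finset.sum_le_sum (g := fun _ => (1 : ℝ)) fun t _ => ?_).trans (by simp)
      rw [abs_of_nonneg (hf01 t).1]; exact (hf01 t).2
    have e4 : |∑ t ∈ Finset.range s, f (r + K * L + t)| ≤ L := by
      refine (Finset.abs_sum_le_sum_abs _ _).trans ?_
      refine (Finset.sum_le_sum (g := fun _ => (1 : ℝ)) fun t _ => ?_).trans ?_
      · rw [abs_of_nonneg (hf01 _).1]; exact (hf01 _).2
      · simp only [Finset.sum_const, Finset.card_range, nsmul_eq_mul, mul_one]
        exact_mod_cast hs1.le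
    rw [e1]
    have e5 : |∑ k ∈ Finset.range K, (∑ j ∈ Finset.range L, f (r + (k * L + j)) -
        occ B L (u (word y L (r + k * L)) (cntw y L r (word y L (r + k * L)) k)))| ≤
        K * B.length := by
      refine (Finset.abs_sum_le_sum_abs _ _).trans ?_
      refine (Finset.sum_le_sum e2).trans ?_
      rw [Finset.sum_const, Finset.card_range, nsmul_eq_mul]
    rw [Finset.sum_sub_distrib] at e5
    rw [abs_le] at e3 e4 e5 ⊢
    constructor <;> linarith [e3.1, e3.2, e4.1, e4.2, e5.1, e5.2]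

open Classical in
/-- correlation term at time `t` -/
noncomputable def gc (a : Λ) (b : Γ) (c : ℝ) (y : ℕ → Γ) (x : ℕ → Λ) (t : ℕ) : ℝ :=
  if y t = b then (if x t = a then (1 : ℝ) else 0) - c else 0

lemma gc_bd (a : Λ) (b : Γ) {c : ℝ} (hc0 : 0 ≤ c) (hc1 : c ≤ 1) (y : ℕ → Γ) (x : ℕ → Λ) (t : ℕ) :
    |gc a b c y x t| ≤ 1 := by
  unfold gc
  split_ifs <;> rw [abs_le] <;> constructor <;> linarith

/-- correlations in the assembled sequence, block by block -/
lemma gc_assemble (y : ℕ → Γ) {L : ℕ} (r : ℕ) (a : Λ)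
    (u : (Fin L → Γ) → ℕ → (ℕ → Λ)) (b : Γ) (c : ℝ) (K : ℕ) :
    ∑ t ∈ Finset.range (r + K * L), gc a b c y (assemble y L r a u) t =
      ∑ t ∈ Finset.range r, gc a b c y (assemble y L r a u) t +
      ∑ k ∈ Finset.range K, corr a b c (word y L (r + k * L))
        (u (word y L (r + k * L)) (cntw y L r (word y L (r + k * L)) k)) := by
  rw [Finset.sum_range_add, sum_blocks (fun t => gc a b c y (assemble y L r a u) (r + t)) L K]
  congr 1
  apply Finset.sum_congr rfl
  intro k _
  rw [corr, ← Fin.sum_univ_eq_sum_range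
    (fun j => gc a b c y (assemble y L r a u) (r + (k * L + j))) L]
  apply Finset.sum_congr rfl
  intro j _
  rw [gc, ← add_assoc, assemble_block y r a u k j.2]
  rfl

open Classical in
/-- number of occurrences of a word of `y` starting before `N` -/
noncomputable def cw (y : ℕ → Γ) (L : ℕ) (i : Fin L → Γ) (N : ℕ) : ℝ :=
  ∑ t ∈ Finset.range N, if word y L t = i then 1 else 0

lemma cw_blocks (y : ℕ → Γ) (L : ℕ) (i : Fin L → Γ) (K : ℕ) :
    ∑ r ∈ Finset.range L, (cntw y L r i K : ℝ) = cw y L i (K * L) := by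
  classical
  rw [cw, sum_blocks (fun t => if word y L t = i then (1 : ℝ) else 0) L K, Finset.sum_comm]
  apply Finset.sum_congr rfl
  intro r _
  rw [cntw, Finset.card_filter]
  push_cast
  apply Finset.sum_congr rfl
  intro k _
  rw [add_comm r (k * L)]

lemma cw_diff (y : ℕ → Γ) (L : ℕ) (i : Fin L → Γ) {M N : ℕ} (h : M ≤ N) :
    |cw y L i N - cw y L i M| ≤ N - M := by
  classical
  obtain ⟨d, rfl⟩ := Nat.exists_eq_add_of_le h
  rw [cw, cw, Finset.sum_range_add]
  have h1 : |∑ t ∈ Finset.range d, (if word y L (M + t) = i then (1 : ℝ) else 0)| ≤ d := by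
    refine (Finset.abs_sum_le_sum_abs _ _).trans ?_
    refine (Finset.sum_le_sum (g := fun _ => (1 : ℝ)) ?_).trans (by simp)
    intro t _
    split_ifs <;> simp
  push_cast
  calc |_ + _ - _| = |∑ t ∈ Finset.range d, (if word y L (M + t) = i then (1 : ℝ) else 0)| := by
        congr 1; ring
    _ ≤ d := h1
    _ = _ := by ring

end blocks


section single

variable {Λ Γ : Type*} [MeasurableSpace Λ] [DiscreteMeasurableSpace Λ] [Fintype Γ] [DecidableEq Γ]

lemma corr_meas (a : Λ) (b : Γ) (c : ℝ) {L : ℕ} (i : Fin L → Γ) : Measurable (corr a b c i) := by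
  classical
  unfold corr
  apply Finset.measurable_sum
  intro k _
  split_ifs
  · exact (Measurable.ite (measurable_pi_apply (X := fun _ : ℕ => Λ) (k : ℕ)
      (measurableSet_singleton a)) measurable_const measurable_const).sub_const _
  · exact measurable_const

omit [MeasurableSpace Λ] [DiscreteMeasurableSpace Λ] [Fintype Γ] [DecidableEq Γ] in
lemma corr_bd (a : Λ) (b : Γ) {c : ℝ} (hc0 : 0 ≤ c) (hc1 : c ≤ 1) {L : ℕ} (i : Fin L → Γ)
    (x : ℕ → Λ) : |corr a b c i x| ≤ L := by
  unfold corr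
  refine (Finset.abs_sum_le_sum_abs _ _).trans ?_
  refine (Finset.sum_le_sum (g := fun _ => (1 : ℝ)) ?_).trans (by simp)
  intro k _
  split_ifs <;> rw [abs_le] <;> constructor <;> linarith

/-- combination of the sampled averages over blocks -/
lemma block_average (y : ℕ → Γ) (L : ℕ) {F : (Fin L → Γ) → ℕ → ℝ} {E : (Fin L → Γ) → ℝ}
    (h : ∀ i, Tendsto (fun n : ℕ => (∑ m ∈ Finset.range n, F i m) / n) atTop (𝓝 (E i)))
    {ξ : ℝ} (hξ : 0 < ξ) :
    ∃ C : ℝ, ∀ r K : ℕ, |∑ k ∈ Finset.range K,
        F (word y L (r + k * L)) (cntw y L r (word y L (r + k * L)) k) -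
        ∑ i, cntw y L r i K * E i| ≤ ξ * K + C := by
  have h1 : ∀ i, ∃ C : ℝ, 0 ≤ C ∧ ∀ n : ℕ, |∑ m ∈ Finset.range n, F i m - n * E i| ≤ ξ * n + C :=
    fun i => sublinear_of_tendsto (h i) hξ
  choose C hC0 hC using h1
  refine ⟨∑ i, C i, fun r K => ?_⟩
  rw [block_sum, ← Finset.sum_sub_distrib]
  refine (Finset.abs_sum_le_sum_abs _ _).trans ?_
  refine (Finset.sum_le_sum fun i _ => hC i (cntw y L r i K)).trans ?_
  rw [Finset.sum_add_distrib, ← Finset.mul_sum, cntw_sum]

theorem single_scale (y : ℕ → Γ) {L : ℕ} (hL : 0 < L) (a : Λ) (b : Γ) {c : ℝ} (hc0 : 0 ≤ c)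
    (hc1 : c ≤ 1) (κ : (Fin L → Γ) → Measure (ℕ → Λ)) (hκ : ∀ i, IsProbabilityMeasure (κ i))
    (𝓑 : Finset (List Λ)) (m : List Λ → ℝ) (hm0 : ∀ B, 0 ≤ m B) (hm1 : ∀ B, m B ≤ 1)
    {η : ℝ} (hη : 0 < η)
    (hB : ∀ i, ∀ B ∈ 𝓑, |∫ x, occ B L x ∂(κ i) - L * m B| ≤ L * η)
    (hlen : ∀ B ∈ 𝓑, (B.length : ℝ) ≤ L * η) (pν : (Fin L → Γ) → ℝ) {δ s : ℝ} (hδ : 0 < δ)
    (hs : s = 1 ∨ s = -1)
    (hcorr : δ * L ≤ s * ∑ i, pν i * ∫ x, corr a b c i x ∂(κ i))
    (hy : ∀ ξ : ℝ, 0 < ξ → ∀ N0 : ℕ, ∃ N : ℕ, N0 ≤ N ∧ ∀ i, |cw y L i N - N * pν i| ≤ ξ * N) :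
    ∃ x : ℕ → Λ, (∀ B ∈ 𝓑, ∃ C : ℝ, ∀ N : ℕ, |occ B N x - N * m B| ≤ 3 * η * N + C) ∧
      ∀ N0 : ℕ, ∃ N : ℕ, N0 ≤ N ∧ δ / 2 * N ≤ s * ∑ t ∈ Finset.range N, gc a b c y x t := by
  classical
  have hLpos : (0 : ℝ) < L := by exact_mod_cast hL
  have hL1 : (1 : ℝ) ≤ L := by exact_mod_cast hL
  have hs1 : |s| = 1 := by rcases hs with h | h <;> simp [h]
  -- sampling
  have hsamp : ∀ i, ∃ u : ℕ → (ℕ → Λ), (∀ B : {B // B ∈ 𝓑},
      Tendsto (fun n : ℕ => (∑ k ∈ Finset.range n, occ B.1 L (u k)) / n) atTop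
        (𝓝 (∫ x, occ B.1 L x ∂(κ i)))) ∧
      Tendsto (fun n : ℕ => (∑ k ∈ Finset.range n, corr a b c i (u k)) / n) atTop
        (𝓝 (∫ x, corr a b c i x ∂(κ i))) := by
    intro i
    have := hκ i
    obtain ⟨u, hu⟩ := sampling (J := Option {B // B ∈ 𝓑}) (κ i)
      (fun j => match j with
        | none => corr a b c i
        | some B => occ B.1 L)
      (fun j => match j with
        | none => corr_meas a b c i
        | some B => occ_meas B.1 L)
      (fun j => match j with
        | none => ⟨L, corr_bd a b hc0 hc1 i⟩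
        | some B => ⟨L, occ_bd B.1 L⟩)
    exact ⟨u, fun B => hu (some B), hu none⟩
  choose u hu1 hu2 using hsamp
  -- frequencies
  have part1 : ∀ r, r < L → ∀ B ∈ 𝓑, ∃ C : ℝ, ∀ N : ℕ,
      |occ B N (assemble y L r a u) - N * m B| ≤ 3 * η * N + C := by
    intro r hr B hBm
    obtain ⟨C, hC⟩ := block_average y L (F := fun i k => occ B L (u i k))
      (fun i => hu1 i ⟨B, hBm⟩) hη
    refine ⟨2 * (r + L) + C, fun N => ?_⟩
    set K := (N - r) / L with hK
    have h1 := occ_assemble y hL r a u B N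
    rw [← hK] at h1
    have h2 := hC r K
    simp only at h2
    have h3 : |∑ i, (cntw y L r i K : ℝ) * ∫ x, occ B L x ∂(κ i) - K * (L * m B)| ≤ K * (L * η) := by
      rw [← cntw_sum y L r K, Finset.sum_mul, Finset.sum_mul, ← Finset.sum_sub_distrib]
      refine (Finset.abs_sum_le_sum_abs _ _).trans ?_
      apply Finset.sum_le_sum
      intro i _
      rw [← mul_sub, abs_mul, abs_of_nonneg (Nat.cast_nonneg _)]
      exact mul_le_mul_of_nonneg_left (hB i B hBm) (Nat.cast_nonneg _)
    have hKL1 : K * L ≤ N := by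
      have := Nat.div_mul_le_self (N - r) L
      rw [← hK] at this
      omega
    have hKL2 : N ≤ K * L + (r + L) := by
      have h := Nat.div_add_mod (N - r) L
      have h' := Nat.mod_lt (N - r) hL
      rw [← hK, mul_comm] at h
      omega
    have hKL1' : (K : ℝ) * L ≤ N := by exact_mod_cast hKL1
    have hKL2' : (N : ℝ) ≤ K * L + (r + L) := by exact_mod_cast hKL2
    have h4 : |(K : ℝ) * (L * m B) - N * m B| ≤ r + L := by
      have : (K : ℝ) * (L * m B) - N * m B = (K * L - N) * m B := by ring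
      rw [this, abs_mul, abs_of_nonneg (hm0 B)]
      have h5 : |(K : ℝ) * L - N| ≤ r + L := by
        rw [abs_le]; constructor
        · linarith
        · have : (0 : ℝ) ≤ r := Nat.cast_nonneg _
          linarith
      calc |(K : ℝ) * L - N| * m B ≤ (r + L) * 1 :=
            mul_le_mul h5 (hm1 B) (hm0 B) (by positivity)
        _ = _ := mul_one _
    have h6 : (K : ℝ) * B.length ≤ η * N := by
      calc (K : ℝ) * B.length ≤ K * (L * η) :=
            mul_le_mul_of_nonneg_left (hlen B hBm) (Nat.cast_nonneg _)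
        _ = η * (K * L) := by ring
        _ ≤ η * N := mul_le_mul_of_nonneg_left hKL1' hη.le
    have h7 : (K : ℝ) * (L * η) ≤ η * N := by
      calc (K : ℝ) * (L * η) = η * (K * L) := by ring
        _ ≤ η * N := mul_le_mul_of_nonneg_left hKL1' hη.le
    have h8 : η * (K : ℝ) ≤ η * (K * L) := by
      apply mul_le_mul_of_nonneg_left _ hη.le
      calc (K : ℝ) = K * 1 := (mul_one _).symm
        _ ≤ K * L := mul_le_mul_of_nonneg_left hL1 (Nat.cast_nonneg _)
    have h9 := hη
    set S := ∑ k ∈ Finset.range K, occ B L (u (word y L (r + k * L))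
      (cntw y L r (word y L (r + k * L)) k)) with hS
    set T := ∑ i, (cntw y L r i K : ℝ) * ∫ x, occ B L x ∂(κ i) with hT
    rw [abs_le] at h1 h2 h3 h4 ⊢
    constructor <;> linarith [h1.1, h1.2, h2.1, h2.2, h3.1, h3.2, h4.1, h4.2]
  -- correlations
  set E : (Fin L → Γ) → ℝ := fun i => ∫ x, corr a b c i x ∂(κ i) with hE
  have hEb : ∀ i, |E i| ≤ L := by
    intro i
    have := hκ i
    have h1 : ∀ᵐ x ∂(κ i), ‖corr a b c i x‖ ≤ (L : ℝ) :=
      Eventually.of_forall fun x => by rw [Real.norm_eq_abs]; exact corr_bd a b hc0 hc1 i x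
    have h2 := norm_integral_le_of_norm_le_const h1
    simpa using h2
  obtain ⟨C, hC⟩ := block_average y L (F := fun i k => corr a b c i (u i k)) hu2
    (ξ := δ / 8) (by positivity)
  set W : ℝ := (Fintype.card (Fin L → Γ) : ℝ) with hW
  have hW0 : 0 ≤ W := Nat.cast_nonneg _
  set C2 : ℝ := |C| + 2 * L + W * L + δ * L with hC2
  have hC20 : 0 ≤ C2 := by positivity
  -- for every large good `N` some offset works
  have key : ∀ N0 : ℕ, ∃ r, r < L ∧ ∃ N', N0 ≤ N' ∧
      δ / 2 * N' ≤ s * ∑ t ∈ Finset.range N', gc a b c y (assemble y L r a u) t := by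
    intro N0
    obtain ⟨N1, hN1⟩ := exists_nat_gt (8 * C2 / δ)
    obtain ⟨N, hN, hfr⟩ := hy (δ / (8 * (W + 1))) (by positivity) (N0 + N1 + L)
    have hN1' : 8 * C2 / δ < N := lt_of_lt_of_le hN1 (by exact_mod_cast (by omega))
    have hNC : 8 * C2 ≤ δ * N := by
      rw [div_lt_iff₀ hδ] at hN1'
      linarith
    set K := N / L with hK
    have hKL1 : K * L ≤ N := Nat.div_mul_le_self N L
    have hKL2 : N ≤ K * L + L := by
      have h := Nat.div_add_mod N L
      have h' := Nat.mod_lt N hL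
      rw [← hK, mul_comm] at h
      omega
    have hKL1' : (K : ℝ) * L ≤ N := by exact_mod_cast hKL1
    have hKL2' : (N : ℝ) ≤ K * L + L := by exact_mod_cast hKL2
    have hKN : (K : ℝ) ≤ N := by
      calc (K : ℝ) = K * 1 := (mul_one _).symm
        _ ≤ K * L := mul_le_mul_of_nonneg_left hL1 (Nat.cast_nonneg _)
        _ ≤ N := hKL1'
    -- total over offsets
    have hcwb : ∀ i : Fin L → Γ, |cw y L i (K * L) - N * pν i| ≤ δ / (8 * (W + 1)) * N + L := by
      intro i
      have h1 := cw_diff y L i hKL1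
      have h2 := hfr i
      push_cast at h1
      rw [abs_le] at h1 h2 ⊢
      constructor <;> linarith [h1.1, h1.2, h2.1, h2.2]
    have htot : N * (δ * L) - W * ((δ / (8 * (W + 1)) * N + L) * L) ≤
        ∑ r ∈ Finset.range L, s * ∑ i, (cntw y L r i K : ℝ) * E i := by
      have e1 : ∑ r ∈ Finset.range L, s * ∑ i, (cntw y L r i K : ℝ) * E i =
          s * ∑ i, cw y L i (K * L) * E i := by
        rw [← Finset.mul_sum, Finset.sum_comm]
        congr 1
        apply Finset.sum_congr rfl
        intro i _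
        rw [← Finset.sum_mul, cw_blocks]
      have e2 : |s * ∑ i, cw y L i (K * L) * E i - N * (s * ∑ i, pν i * E i)| ≤
          W * ((δ / (8 * (W + 1)) * N + L) * L) := by
        have : s * ∑ i, cw y L i (K * L) * E i - N * (s * ∑ i, pν i * E i) =
            s * ∑ i, (cw y L i (K * L) - N * pν i) * E i := by
          simp only [Finset.mul_sum, ← Finset.sum_sub_distrib]
          apply Finset.sum_congr rfl
          intro i _
          ring
        rw [this, abs_mul, hs1, one_mul]
        refine (Finset.abs_sum_le_sum_abs _ _).trans ?_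
        refine (Finset.sum_le_sum (g := fun _ => (δ / (8 * (W + 1)) * N + L) * L) ?_).trans ?_
        · intro i _
          rw [abs_mul]
          exact mul_le_mul (hcwb i) (hEb i) (abs_nonneg _) (by positivity)
        · rw [Finset.sum_const, nsmul_eq_mul, Finset.card_univ]
      rw [e1]
      have e3 : N * (δ * L) ≤ N * (s * ∑ i, pν i * E i) :=
        mul_le_mul_of_nonneg_left hcorr (Nat.cast_nonneg _)
      rw [abs_le] at e2
      linarith [e2.1]
    have hex : ∃ r ∈ Finset.range L, N * δ - W * (δ / (8 * (W + 1)) * N + L) ≤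
        s * ∑ i, (cntw y L r i K : ℝ) * E i := by
      apply Finset.exists_le_of_sum_le (by simp; omega)
      refine le_trans (le_of_eq ?_) htot
      rw [Finset.sum_const, Finset.card_range, nsmul_eq_mul]
      ring
    obtain ⟨r, hr, hrs⟩ := hex
    rw [Finset.mem_range] at hr
    refine ⟨r, hr, r + K * L, by omega, ?_⟩
    rw [gc_assemble, mul_add]
    have g1 : |∑ t ∈ Finset.range r, gc a b c y (assemble y L r a u) t| ≤ L := by
      refine (Finset.abs_sum_le_sum_abs _ _).trans ?_
      refine (Finset.sum_le_sum (g := fun _ => (1 : ℝ)) fun t _ => gc_bd a b hc0 hc1 _ _ t).trans ?_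
      simp only [Finset.sum_const, Finset.card_range, nsmul_eq_mul, mul_one]
      exact_mod_cast hr.le
    have g2 := hC r K
    have g3 : |s * ∑ t ∈ Finset.range r, gc a b c y (assemble y L r a u) t| ≤ L := by
      rw [abs_mul, hs1, one_mul]; exact g1
    have g4 : |s * ∑ k ∈ Finset.range K, corr a b c (word y L (r + k * L))
        (u (word y L (r + k * L)) (cntw y L r (word y L (r + k * L)) k)) -
        s * ∑ i, (cntw y L r i K : ℝ) * E i| ≤ δ / 8 * K + C := by
      rw [← mul_sub, abs_mul, hs1, one_mul]; exact g2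
    have g5 : W * (δ / (8 * (W + 1)) * N) ≤ δ / 8 * N := by
      have : W * (δ / (8 * (W + 1)) * N) = (W / (W + 1)) * (δ / 8 * N) := by
        field_simp
      rw [this]
      have h1 : W / (W + 1) ≤ 1 := by rw [div_le_one (by positivity)]; linarith
      calc W / (W + 1) * (δ / 8 * N) ≤ 1 * (δ / 8 * N) :=
            mul_le_mul_of_nonneg_right h1 (by positivity)
        _ = _ := one_mul _
    have g6 : δ / 8 * (K : ℝ) ≤ δ / 8 * N := mul_le_mul_of_nonneg_left hKN (by positivity)
    have g7 : C ≤ |C| := le_abs_self C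
    have g8 : (r : ℝ) ≤ L := by exact_mod_cast hr.le
    have g9 : δ / 2 * ((r + K * L : ℕ) : ℝ) ≤ δ / 2 * (N + L) := by
      apply mul_le_mul_of_nonneg_left _ (by positivity)
      push_cast
      linarith
    rw [abs_le] at g3 g4
    have g10 : W * (δ / (8 * (W + 1)) * N + L) = W * (δ / (8 * (W + 1)) * N) + W * L := by ring
    rw [g10] at hrs
    have g11 : C2 = |C| + 2 * L + W * L + δ * L := hC2
    have g12 : 0 ≤ δ * L := by positivity
    have g13 : 0 ≤ W * L := by positivity
    refine g9.trans ?_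
    linarith [g3.1, g4.1, abs_nonneg C]
  -- choose a single offset
  by_contra hcon
  push Not at hcon
  have h1 : ∀ r : Fin L, ∃ N0 : ℕ, ∀ N, N0 ≤ N →
      s * ∑ t ∈ Finset.range N, gc a b c y (assemble y L r a u) t < δ / 2 * N := by
    intro r
    exact hcon (assemble y L r a u) (part1 r r.2)
  choose N0 hN0 using h1
  obtain ⟨r, hr, N', hN', hle⟩ := key (Finset.univ.sup N0)
  have h2 := hN0 ⟨r, hr⟩ N' ((Finset.le_sup (Finset.mem_univ _)).trans hN')
  simp only at h2
  linarith

end single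

end Pool.Agent.Work.MP_0c7e55_an
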