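import Mathlib
import Pool.Agent.Work.MP_0c7e55_an.Single

open MeasureTheory ProbabilityTheory Filter Topology

namespace Pool.Agent.Work.MP_0c7e55_an

section concat

variable {Λ Γ : Type*}

lemma occ_diff (B : List Λ) (x : ℕ → Λ) {M N : ℕ} (h : M ≤ N) :
    occ B N x - occ B M x = ∑ t ∈ Finset.Ico M N, indCyl B (shift^[t] x) := by
  rw [occ_eq, occ_eq, Finset.sum_Ico_eq_sub _ h]

lemma indCyl_congr (B : List Λ) {x x' : ℕ → Λ} {t : ℕ}
    (h : ∀ i, i < B.length → x (i + t) = x' (i + t)) :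
    indCyl B (shift^[t] x) = indCyl B (shift^[t] x') := by
  have : (shift^[t] x ∈ cyl B) ↔ (shift^[t] x' ∈ cyl B) := by
    simp only [cyl, Set.mem_ofPred_eq, shift_iter]
    apply forall_congr'
    intro i
    apply forall_congr'
    intro hi
    rw [h i hi]
  unfold indCyl
  by_cases h : (shift^[t] x ∈ cyl B)
  · rw [if_pos h, if_pos (this.1 h)]
  · rw [if_neg h, if_neg (fun h' => h (this.2 h'))]

lemma occ_compare (B : List Λ) {x x' : ℕ → Λ} {M N T : ℕ} (h : M ≤ N) (hNT : N ≤ T)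
    (hx : ∀ t, M ≤ t → t < T → x t = x' t) :
    |(occ B N x - occ B M x) - (occ B N x' - occ B M x')| ≤ B.length := by
  rw [occ_diff B x h, occ_diff B x' h, ← Finset.sum_sub_distrib]
  refine (Finset.abs_sum_le_sum_abs _ _).trans ?_
  have h1 : ∀ t ∈ Finset.Ico M N, |indCyl B (shift^[t] x) - indCyl B (shift^[t] x')| ≤
      if T < t + B.length then (1 : ℝ) else 0 := by
    intro t ht
    rw [Finset.mem_Ico] at ht
    split_ifs with hc
    · have h2 := indCyl_01 B (shift^[t] x)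
      have h3 := indCyl_01 B (shift^[t] x')
      rw [abs_le]; constructor <;> linarith [h2.1, h2.2, h3.1, h3.2]
    · push Not at hc
      rw [indCyl_congr B (x' := x') (fun i hi => hx _ (by omega) (by omega)), sub_self, abs_zero]
  refine (Finset.sum_le_sum h1).trans ?_
  have h2 : ∑ t ∈ Finset.Ico M N, (if T < t + B.length then (1 : ℝ) else 0) ≤
      ∑ t ∈ Finset.range T, (if T < t + B.length then (1 : ℝ) else 0) := by
    apply Finset.sum_le_sum_of_subset_of_nonneg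
    · intro t ht
      rw [Finset.mem_Ico] at ht
      rw [Finset.mem_range]
      omega
    · intro t _ _
      split_ifs <;> simp
  exact h2.trans (count_tail T B.length)

lemma occ_err_trivial (B : List Λ) (x : ℕ → Λ) {m : ℝ} (h0 : 0 ≤ m) (h1 : m ≤ 1) (N : ℕ) :
    |occ B N x - N * m| ≤ N := by
  have h2 : 0 ≤ occ B N x ∧ occ B N x ≤ N := by
    rw [occ_eq]
    constructor
    · exact Finset.sum_nonneg fun _ _ => (indCyl_01 B _).1
    · refine (Finset.sum_le_sum fun _ _ => (indCyl_01 B _).2).trans (by simp)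
  have hN : (0 : ℝ) ≤ N := Nat.cast_nonneg _
  have h3 : 0 ≤ N * m := mul_nonneg hN h0
  have h4 : N * m ≤ N := by
    calc N * m ≤ N * 1 := mul_le_mul_of_nonneg_left h1 hN
      _ = N := mul_one _
  rw [abs_le]
  constructor <;> linarith [h2.1, h2.2]

theorem concat [Countable Λ] (y : ℕ → Γ) (a : Λ) (b : Γ) {c : ℝ} (hc0 : 0 ≤ c)
    (hc1 : c ≤ 1) (m : List Λ → ℝ) (hm0 : ∀ B, 0 ≤ m B) (hm1 : ∀ B, m B ≤ 1)
    {δ s : ℝ} (hδ : 0 < δ) (hs : s = 1 ∨ s = -1)
    (H : ∀ (𝓑 : Finset (List Λ)) (η : ℝ), 0 < η → ∃ x : ℕ → Λ,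
      (∀ B ∈ 𝓑, ∃ C : ℝ, ∀ N : ℕ, |occ B N x - N * m B| ≤ η * N + C) ∧
      ∀ N0 : ℕ, ∃ N : ℕ, N0 ≤ N ∧ δ * N ≤ s * ∑ t ∈ Finset.range N, gc a b c y x t) :
    ∃ x : ℕ → Λ, (∀ B, Tendsto (fun N : ℕ => occ B N x / N) atTop (𝓝 (m B))) ∧
      ∀ N0 : ℕ, ∃ N : ℕ, N0 ≤ N ∧ δ / 2 * N ≤ s * ∑ t ∈ Finset.range N, gc a b c y x t := by
  classical
  have hs1 : |s| = 1 := by rcases hs with h | h <;> simp [h]
  obtain ⟨e, he⟩ := exists_surjective_nat (List Λ)
  set 𝓑 : ℕ → Finset (List Λ) := fun n => (Finset.range (n + 1)).image e with h𝓑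
  set η : ℕ → ℝ := fun n => 1 / ((n : ℝ) + 1) with hη
  have hη0 : ∀ n, 0 < η n := fun n => by rw [hη]; positivity
  have hη1 : ∀ n, η n ≤ 1 := fun n => by
    rw [hη]; simp only
    rw [div_le_one (by positivity)]
    have : (0 : ℝ) ≤ n := Nat.cast_nonneg _
    linarith
  have hηmono : ∀ n k, n ≤ k → η k ≤ η n := fun n k hnk => by
    rw [hη]; simp only
    apply one_div_le_one_div_of_le (by positivity)
    have : (n : ℝ) ≤ k := by exact_mod_cast hnk
    linarith
  have h𝓑mono : ∀ n k, n ≤ k → 𝓑 n ⊆ 𝓑 k := fun n k hnk =>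
    Finset.image_subset_image (Finset.range_subset_range.2 (by omega))
  have hX : ∀ n, ∃ x : ℕ → Λ, ∃ C : ℝ, 0 ≤ C ∧
      (∀ B ∈ 𝓑 n, ∀ N : ℕ, |occ B N x - N * m B| ≤ η n * N + C) ∧
      ∀ N0 : ℕ, ∃ N : ℕ, N0 ≤ N ∧ δ * N ≤ s * ∑ t ∈ Finset.range N, gc a b c y x t := by
    intro n
    obtain ⟨x, h1, h2⟩ := H (𝓑 n) (η n) (hη0 n)
    choose! C hC using h1
    refine ⟨x, ∑ B ∈ 𝓑 n, |C B|, Finset.sum_nonneg fun _ _ => abs_nonneg _, ?_, h2⟩
    intro B hB N
    refine (hC B hB N).trans ?_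
    have : C B ≤ ∑ B ∈ 𝓑 n, |C B| := (le_abs_self _).trans
      (Finset.single_le_sum (f := fun B => |C B|) (fun _ _ => abs_nonneg _) hB)
    linarith
  choose X C hC0 hC hcorr using hX
  set ℓ : ℕ → ℝ := fun n => ∑ B ∈ 𝓑 n, (B.length : ℝ) with hℓ
  have hℓ0 : ∀ n, 0 ≤ ℓ n := fun n => Finset.sum_nonneg fun _ _ => Nat.cast_nonneg _
  have hℓB : ∀ n, ∀ B ∈ 𝓑 n, (B.length : ℝ) ≤ ℓ n := fun n B hB =>
    Finset.single_le_sum (f := fun B : List Λ => (B.length : ℝ)) (fun _ _ => Nat.cast_nonneg _) hB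
  -- the next switching time
  have hG : ∀ (n T : ℕ), ∃ T' : ℕ, T < T' ∧ (T : ℝ) + C n + C (n + 1) + ℓ n ≤ η n * T' ∧
      ∃ N : ℕ, T < N ∧ N ≤ T' ∧ 4 * (T : ℝ) ≤ δ * N ∧
        δ * N ≤ s * ∑ t ∈ Finset.range N, gc a b c y (X n) t := by
    intro n T
    obtain ⟨N1, hN1⟩ := exists_nat_ge (4 * (T : ℝ) / δ)
    obtain ⟨N, hN, hNc⟩ := hcorr n (T + 1 + N1)
    obtain ⟨N2, hN2⟩ := exists_nat_ge (((T : ℝ) + C n + C (n + 1) + ℓ n) / η n)
    refine ⟨max N N2, lt_of_lt_of_le (by omega) (le_max_left _ _), ?_, N, by omega,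
      le_max_left _ _, ?_, hNc⟩
    · rw [div_le_iff₀ (hη0 n)] at hN2
      refine hN2.trans ?_
      rw [mul_comm]
      apply mul_le_mul_of_nonneg_left _ (hη0 n).le
      exact_mod_cast le_max_right _ _
    · rw [div_le_iff₀ hδ] at hN1
      refine hN1.trans ?_
      rw [mul_comm]
      apply mul_le_mul_of_nonneg_left _ hδ.le
      exact_mod_cast (by omega : N1 ≤ N)
  choose G hG1 hG2 hG3 using hG
  set T : ℕ → ℕ := fun n => Nat.rec 0 (fun n t => G n t) n with hT
  have hT0 : T 0 = 0 := rfl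
  have hTs : ∀ n, T (n + 1) = G n (T n) := fun n => rfl
  have hTmono : StrictMono T := strictMono_nat_of_lt_succ fun n => by rw [hTs]; exact hG1 n (T n)
  have hTb : ∀ n, (T n : ℝ) + C n + C (n + 1) + ℓ n ≤ η n * T (n + 1) := fun n => by
    rw [hTs]; exact hG2 n (T n)
  have hex : ∀ k, ∃ n, k < T (n + 1) := fun k => ⟨k, lt_of_lt_of_le (Nat.lt_succ_self k) (hTmono.id_le (k + 1))⟩
  set idx : ℕ → ℕ := fun k => Nat.find (hex k) with hidx
  have hidx1 : ∀ k, k < T (idx k + 1) := fun k => Nat.find_spec (hex k)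
  have hidx2 : ∀ k, T (idx k) ≤ k := by
    intro k
    rcases Nat.eq_zero_or_pos (idx k) with h0 | h0
    · rw [h0, hT0]; omega
    · have := Nat.find_min (hex k) (m := idx k - 1) (by
        show idx k - 1 < idx k
        omega)
      rw [Nat.sub_add_cancel h0] at this
      omega
  have hidx3 : ∀ n k, T n ≤ k → k < T (n + 1) → idx k = n := by
    intro n k h1 h2
    have h3 : T (idx k) < T (n + 1) := lt_of_le_of_lt (hidx2 k) h2
    have h4 : T n < T (idx k + 1) := lt_of_le_of_lt h1 (hidx1 k)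
    have h5 : idx k < n + 1 := (hTmono.lt_iff_lt (a := idx k) (b := n + 1)).1 h3
    have h6 : n < idx k + 1 := (hTmono.lt_iff_lt (a := n) (b := idx k + 1)).1 h4
    omega
  set x : ℕ → Λ := fun k => X (idx k) k with hx
  have hxX : ∀ n k, T n ≤ k → k < T (n + 1) → x k = X n k := by
    intro n k h1 h2
    rw [hx]
    simp only
    rw [hidx3 n k h1 h2]
  refine ⟨x, ?_, ?_⟩
  · intro B
    obtain ⟨n1, hn1⟩ := he B
    have hB𝓑 : ∀ n, n1 ≤ n → B ∈ 𝓑 n := fun n hn => by
      rw [h𝓑]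
      simp only [Finset.mem_image, Finset.mem_range]
      exact ⟨n1, by omega, hn1⟩
    -- one step estimate
    have step : ∀ n, n1 ≤ n → ∀ N, T n ≤ N → N ≤ T (n + 1) →
        |occ B N x - N * m B| ≤ |occ B (T n) x - T n * m B| + η n * N + η n * T n + 2 * C n + ℓ n := by
      intro n hn N hN1 hN2
      have h1 := occ_compare B hN1 hN2 (hxX n)
      have h2 := hC n B (hB𝓑 n hn) N
      have h3 := hC n B (hB𝓑 n hn) (T n)
      have h4 := hℓB n B (hB𝓑 n hn)
      have h5 := neg_abs_le (occ B (T n) x - T n * m B)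
      have h6 := le_abs_self (occ B (T n) x - T n * m B)
      rw [abs_le] at h1 h2 h3 ⊢
      constructor <;> linarith [h1.1, h1.2, h2.1, h2.2, h3.1, h3.2]
    have hend : ∀ n, n1 ≤ n → |occ B (T (n + 1)) x - T (n + 1) * m B| ≤ 6 * η n * T (n + 1) := by
      intro n hn
      have h1 := step n hn (T (n + 1)) (hTmono.monotone (Nat.le_succ n)) le_rfl
      have h2 := occ_err_trivial B x (hm0 B) (hm1 B) (T n)
      have h3 := hTb n
      have h4 : η n * (T n : ℝ) ≤ T n := by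
        calc η n * (T n : ℝ) ≤ 1 * T n := mul_le_mul_of_nonneg_right (hη1 n) (Nat.cast_nonneg _)
          _ = _ := one_mul _
      have h5 : (0 : ℝ) ≤ T n := Nat.cast_nonneg _
      linarith [hC0 n, hC0 (n + 1), hℓ0 n]
    have hall : ∀ n, n1 ≤ n → ∀ N, T (n + 1) ≤ N → N ≤ T (n + 2) →
        |occ B N x - N * m B| ≤ 11 * η n * N := by
      intro n hn N hN1 hN2
      have h1 := step (n + 1) (by omega) N hN1 hN2
      have h2 := hend n hn
      have h3 := hTb n
      have h4 : η (n + 1) ≤ η n := hηmono n (n + 1) (Nat.le_succ n)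
      have hN1' : (T (n + 1) : ℝ) ≤ N := by exact_mod_cast hN1
      have h5 : η n * (T (n + 1) : ℝ) ≤ η n * N := mul_le_mul_of_nonneg_left hN1' (hη0 n).le
      have h6 : η (n + 1) * (N : ℝ) ≤ η n * N := mul_le_mul_of_nonneg_right h4 (Nat.cast_nonneg _)
      have h7 : η (n + 1) * (T (n + 1) : ℝ) ≤ η n * T (n + 1) :=
        mul_le_mul_of_nonneg_right h4 (Nat.cast_nonneg _)
      have h8 : (0 : ℝ) ≤ T n := Nat.cast_nonneg _
      have h9 : ℓ (n + 1) ≤ ℓ (n + 1) := le_rfl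
      -- length of B is bounded by ℓ n
      have h10 := hℓB n B (hB𝓑 n hn)
      have h1' : |occ B N x - N * m B| ≤ |occ B (T (n + 1)) x - T (n + 1) * m B| +
          η (n + 1) * N + η (n + 1) * T (n + 1) + 2 * C (n + 1) + B.length := by
        have g1 := occ_compare B hN1 hN2 (hxX (n + 1))
        have g2 := hC (n + 1) B (hB𝓑 (n + 1) (by omega)) N
        have g3 := hC (n + 1) B (hB𝓑 (n + 1) (by omega)) (T (n + 1))
        have g5 := neg_abs_le (occ B (T (n + 1)) x - T (n + 1) * m B)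
        have g6 := le_abs_self (occ B (T (n + 1)) x - T (n + 1) * m B)
        rw [abs_le] at g1 g2 g3 ⊢
        constructor <;> linarith [g1.1, g1.2, g2.1, g2.2, g3.1, g3.2]
      linarith [hC0 n, hC0 (n + 1), hℓ0 n]
    rw [Metric.tendsto_atTop]
    intro ε hε
    obtain ⟨n2, hn2⟩ := exists_nat_gt (11 / ε)
    set n3 := max n1 n2 with hn3
    refine ⟨T (n3 + 1), fun N hN => ?_⟩
    have hN0 : 0 < N := lt_of_lt_of_le (lt_of_le_of_lt (Nat.zero_le _) (hTmono (Nat.lt_succ_self n3))) hN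
    have hi : n3 + 1 ≤ idx N := by
      have : T (n3 + 1) < T (idx N + 1) := lt_of_le_of_lt hN (hidx1 N)
      have := (hTmono.lt_iff_lt (a := n3 + 1) (b := idx N + 1)).1 this
      omega
    obtain ⟨n, hn⟩ : ∃ n, idx N = n + 1 := ⟨idx N - 1, by omega⟩
    have h1 := hall n (by omega) N (by rw [← hn]; exact hidx2 N) (by
      have := hidx1 N
      rw [hn] at this
      exact this.le)
    have hNpos : (0 : ℝ) < N := by exact_mod_cast hN0
    rw [Real.dist_eq]
    have h2 : |occ B N x / N - m B| = |occ B N x - N * m B| / N := by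
      rw [← abs_of_pos hNpos, ← abs_div, abs_of_pos hNpos]
      congr 1
      field_simp
    rw [h2, div_lt_iff₀ hNpos]
    refine lt_of_le_of_lt h1 ?_
    apply mul_lt_mul_of_pos_right _ hNpos
    have h3 : η n ≤ η n2 := hηmono n2 n (by omega)
    have h4 : 11 * η n2 < ε := by
      rw [hη]
      simp only
      rw [div_lt_iff₀ hε] at hn2
      rw [mul_one_div, div_lt_iff₀ (by positivity)]
      nlinarith
    linarith
  · intro N0
    obtain ⟨N, h1, h2, h3, h4⟩ := hG3 N0 (T N0)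
    rw [← hTs] at h2
    refine ⟨N, (hTmono.id_le N0).trans h1.le, ?_⟩
    have h5 : |∑ t ∈ Finset.range N, gc a b c y x t - ∑ t ∈ Finset.range N, gc a b c y (X N0) t| ≤
        2 * T N0 := by
      obtain ⟨d, hd⟩ := Nat.exists_eq_add_of_le h1.le
      rw [hd, Finset.sum_range_add, Finset.sum_range_add]
      have h6 : ∑ t ∈ Finset.range d, gc a b c y x (T N0 + t) =
          ∑ t ∈ Finset.range d, gc a b c y (X N0) (T N0 + t) := by
        apply Finset.sum_congr rfl
        intro t ht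
        rw [Finset.mem_range] at ht
        rw [gc, gc, hxX N0 (T N0 + t) (by omega) (by omega)]
      have hb : ∀ z : ℕ → Λ, |∑ t ∈ Finset.range (T N0), gc a b c y z t| ≤ T N0 := by
        intro z
        refine (Finset.abs_sum_le_sum_abs _ _).trans ?_
        refine (Finset.sum_le_sum (g := fun _ => (1 : ℝ)) fun t _ => gc_bd a b hc0 hc1 _ _ t).trans ?_
        simp
      rw [h6]
      have g1 := hb x
      have g2 := hb (X N0)
      rw [abs_le] at g1 g2 ⊢
      constructor <;> linarith [g1.1, g1.2, g2.1, g2.2]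
    have h7 : |s * ∑ t ∈ Finset.range N, gc a b c y x t -
        s * ∑ t ∈ Finset.range N, gc a b c y (X N0) t| ≤ 2 * T N0 := by
      rw [← mul_sub, abs_mul, hs1, one_mul]; exact h5
    rw [abs_le] at h7
    linarith [h7.1]

end concat

end Pool.Agent.Work.MP_0c7e55_an
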