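import Mathlib
import Pool.Agent.Work.MP_0c7e55_an.Defs

open MeasureTheory Filter Topology
open scoped ENNReal

namespace Pool.Agent.Work.MP_0c7e55_an

section shannon

variable {Ω α β : Type*} [MeasurableSpace Ω] {μ : Measure Ω} [IsProbabilityMeasure μ]
  [Fintype α] [Fintype β]

/-- all fibres are measurable -/
def Fib {Ω α : Type*} [MeasurableSpace Ω] (A : Ω → α) : Prop := ∀ a, MeasurableSet (A ⁻¹' {a})

lemma Fib.preimage {A : Ω → α} (hA : Fib A) (S : Set α) : MeasurableSet (A ⁻¹' S) := by
  have : A ⁻¹' S = ⋃ a ∈ S, A ⁻¹' {a} := by ext x; simp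
  rw [this]
  exact MeasurableSet.biUnion (Set.to_countable S) fun a _ => hA a

lemma Fib.comp {A : Ω → α} (hA : Fib A) (φ : α → β) : Fib (fun x => φ (A x)) := fun b => by
  have : (fun x => φ (A x)) ⁻¹' {b} = A ⁻¹' (φ ⁻¹' {b}) := rfl
  rw [this]
  exact hA.preimage _

lemma Fib.prod {A : Ω → α} {B : Ω → β} (hA : Fib A) (hB : Fib B) : Fib (fun x => (A x, B x)) := by
  rintro ⟨a, b⟩
  have : (fun x => (A x, B x)) ⁻¹' {(a, b)} = A ⁻¹' {a} ∩ B ⁻¹' {b} := by
    ext x; simp [Prod.ext_iff]
  rw [this]
  exact (hA a).inter (hB b)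

omit [IsProbabilityMeasure μ] in
lemma measureReal_fiber_sum [IsFiniteMeasure μ] {A : Ω → α} (hA : Fib A) {S : Set Ω}
    (hS : MeasurableSet S) : ∑ a, μ.real (A ⁻¹' {a} ∩ S) = μ.real S := by
  classical
  rw [← measureReal_biUnion_finset]
  · congr 1
    ext x
    simp
  · intro a _ b _ hab
    simp only [Function.onFun]
    rw [Set.disjoint_left]
    rintro x ⟨h1, -⟩ ⟨h2, -⟩
    exact hab (by rw [← h1, ← h2])
  · intro a _
    exact (hA a).inter hS

lemma fiber_sum_one {A : Ω → α} (hA : Fib A) : ∑ a, μ.real (A ⁻¹' {a}) = 1 := by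
  have := measureReal_fiber_sum (μ := μ) hA MeasurableSet.univ
  simpa using this

lemma shannon_nonneg (A : Ω → α) : 0 ≤ shannon μ A :=
  Finset.sum_nonneg fun a _ => Real.negMulLog_nonneg measureReal_nonneg measureReal_le_one

lemma negMulLog_sum_le {ι : Type*} (s : Finset ι) (p : ι → ℝ) (hp : ∀ i ∈ s, 0 ≤ p i) :
    Real.negMulLog (∑ i ∈ s, p i) ≤ ∑ i ∈ s, Real.negMulLog (p i) := by
  have h1 : Real.negMulLog (∑ i ∈ s, p i) = ∑ i ∈ s, -(p i) * Real.log (∑ i ∈ s, p i) := by
    rw [Real.negMulLog, ← Finset.sum_mul, Finset.sum_neg_distrib]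
  rw [h1]
  apply Finset.sum_le_sum
  intro i hi
  rw [Real.negMulLog]
  rcases (hp i hi).eq_or_lt with h | h
  · rw [← h]; simp
  · have h2 : p i ≤ ∑ i ∈ s, p i := Finset.single_le_sum hp hi
    have h3 := Real.log_le_log h h2
    nlinarith

lemma shannon_comp_le {A : Ω → α} (hA : Fib A) (φ : α → β) :
    shannon μ (fun x => φ (A x)) ≤ shannon μ A := by
  classical
  unfold shannon
  have h1 : ∀ b, μ.real ((fun x => φ (A x)) ⁻¹' {b}) =
      ∑ a ∈ Finset.univ.filter (fun a => φ a = b), μ.real (A ⁻¹' {a}) := by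
    intro b
    rw [← measureReal_biUnion_finset]
    · congr 1
      ext x
      simp
    · intro a _ c _ hac
      simp only [Function.onFun]
      rw [Set.disjoint_left]
      intro x h1 h2
      exact hac (by rw [← h1, ← h2])
    · intro a _
      exact hA a
  calc ∑ b, Real.negMulLog (μ.real ((fun x => φ (A x)) ⁻¹' {b}))
      = ∑ b, Real.negMulLog (∑ a ∈ Finset.univ.filter (fun a => φ a = b), μ.real (A ⁻¹' {a})) := by
        simp_rw [h1]
    _ ≤ ∑ b, ∑ a ∈ Finset.univ.filter (fun a => φ a = b), Real.negMulLog (μ.real (A ⁻¹' {a})) := by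
        apply Finset.sum_le_sum
        intro b _
        exact negMulLog_sum_le _ _ fun a _ => measureReal_nonneg
    _ = ∑ a, Real.negMulLog (μ.real (A ⁻¹' {a})) := by
        exact Finset.sum_fiberwise Finset.univ φ fun a => Real.negMulLog (μ.real (A ⁻¹' {a}))

lemma shannon_prod_le {A : Ω → α} {B : Ω → β} (hA : Fib A) (hB : Fib B) :
    shannon μ (fun x => (A x, B x)) ≤ shannon μ A + shannon μ B := by
  set p : α → ℝ := fun a => μ.real (A ⁻¹' {a}) with hp
  set q : β → ℝ := fun b => μ.real (B ⁻¹' {b}) with hq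
  set r : α → β → ℝ := fun a b => μ.real (A ⁻¹' {a} ∩ B ⁻¹' {b}) with hr
  have hr0 : ∀ a b, 0 ≤ r a b := fun a b => measureReal_nonneg
  have hp0 : ∀ a, 0 ≤ p a := fun a => measureReal_nonneg
  have hq0 : ∀ b, 0 ≤ q b := fun b => measureReal_nonneg
  have hrp : ∀ a, ∑ b, r a b = p a := by
    intro a
    have := measureReal_fiber_sum (μ := μ) hB (hA a)
    rw [hp, hr]
    simp only
    rw [← this]
    apply Finset.sum_congr rfl
    intro b _
    rw [Set.inter_comm]
  have hrq : ∀ b, ∑ a, r a b = q b := fun b => measureReal_fiber_sum (μ := μ) hA (hB b)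
  have hp1 : ∑ a, p a = 1 := fiber_sum_one hA
  have hq1 : ∑ b, q b = 1 := fiber_sum_one hB
  have hjoint : shannon μ (fun x => (A x, B x)) = ∑ a, ∑ b, Real.negMulLog (r a b) := by
    unfold shannon
    rw [Fintype.sum_prod_type]
    apply Finset.sum_congr rfl
    intro a _
    apply Finset.sum_congr rfl
    intro b _
    congr 2
    ext x
    simp [Prod.ext_iff]
  have hterm : ∀ a b, Real.negMulLog (r a b) ≤
      -(r a b) * Real.log (p a) - (r a b) * Real.log (q b) + (p a * q b - r a b) := by
    intro a b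
    rcases (hr0 a b).eq_or_lt with h | h
    · rw [← h]; simp [mul_nonneg (hp0 a) (hq0 b)]
    · have hpa : 0 < p a := lt_of_lt_of_le h (by
        rw [← hrp a]; exact Finset.single_le_sum (fun b _ => hr0 a b) (Finset.mem_univ b))
      have hqb : 0 < q b := lt_of_lt_of_le h (by
        rw [← hrq b]; exact Finset.single_le_sum (fun a _ => hr0 a b) (Finset.mem_univ a))
      have h1 : Real.log (p a * q b / r a b) ≤ p a * q b / r a b - 1 :=
        Real.log_le_sub_one_of_pos (by positivity)
      rw [Real.log_div (by positivity) h.ne', Real.log_mul hpa.ne' hqb.ne'] at h1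
      have h2 : r a b * (Real.log (p a) + Real.log (q b) - Real.log (r a b)) ≤
          r a b * (p a * q b / r a b - 1) := mul_le_mul_of_nonneg_left h1 h.le
      have h3 : r a b * (p a * q b / r a b - 1) = p a * q b - r a b := by field_simp
      rw [h3] at h2
      rw [Real.negMulLog]
      linarith
  rw [hjoint]
  calc ∑ a, ∑ b, Real.negMulLog (r a b)
      ≤ ∑ a, ∑ b, (-(r a b) * Real.log (p a) - (r a b) * Real.log (q b) + (p a * q b - r a b)) :=
        Finset.sum_le_sum fun a _ => Finset.sum_le_sum fun b _ => hterm a b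
    _ = shannon μ A + shannon μ B := by
        simp_rw [Finset.sum_add_distrib, Finset.sum_sub_distrib]
        have e1 : ∑ a, ∑ b, -(r a b) * Real.log (p a) = shannon μ A := by
          unfold shannon
          apply Finset.sum_congr rfl
          intro a _
          rw [← Finset.sum_mul, Finset.sum_neg_distrib, hrp, Real.negMulLog]
        have e2 : ∑ a, ∑ b, r a b * Real.log (q b) = -shannon μ B := by
          rw [Finset.sum_comm]
          unfold shannon
          rw [← Finset.sum_neg_distrib]
          apply Finset.sum_congr rfl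
          intro b _
          rw [← Finset.sum_mul, hrq, Real.negMulLog]
          ring
        have e3 : ∑ a, ∑ b, p a * q b = 1 := by
          simp_rw [← Finset.mul_sum, hq1, mul_one]
          exact hp1
        have e4 : ∑ a, ∑ b, r a b = 1 := by
          simp_rw [hrp]
          exact hp1
        rw [e1, e2, e3, e4]
        ring

omit [IsProbabilityMeasure μ] in
lemma shannon_comp_preserving {T : Ω → Ω} (hT : MeasurePreserving T μ μ) {A : Ω → α}
    (hA : Fib A) : shannon μ (fun x => A (T x)) = shannon μ A := by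
  unfold shannon
  apply Finset.sum_congr rfl
  intro a _
  congr 1
  have : (fun x => A (T x)) ⁻¹' {a} = T ⁻¹' (A ⁻¹' {a}) := rfl
  rw [this, measureReal_def, measureReal_def, hT.measure_preimage (hA a).nullMeasurableSet]

/-- entropy of an error variable is small when errors are rare -/
lemma shannon_option_small (β : Type*) [Fintype β] {δ : ℝ} (hδ : 0 < δ) :
    ∃ ε : ℝ, 0 < ε ∧ ∀ e : Ω → Option β, Fib e → μ.real {x | e x ≠ none} ≤ ε →
      shannon μ e ≤ δ := by
  set n : ℝ := (Fintype.card β : ℝ) + 1 with hn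
  have hn0 : 0 < n := by positivity
  have h0 : Tendsto Real.negMulLog (𝓝 0) (𝓝 0) := by
    have := Real.continuous_negMulLog.tendsto 0
    simpa using this
  have h1 : Tendsto Real.negMulLog (𝓝 1) (𝓝 0) := by
    have := Real.continuous_negMulLog.tendsto 1
    simpa using this
  obtain ⟨ε0, hε0, H0⟩ := Metric.tendsto_nhds_nhds.1 h0 (δ / n) (by positivity)
  obtain ⟨ε1, hε1, H1⟩ := Metric.tendsto_nhds_nhds.1 h1 (δ / n) (by positivity)
  refine ⟨min (ε0 / 2) (ε1 / 2), by positivity, ?_⟩
  intro e he hle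
  have hsplit : μ.real (e ⁻¹' {none}) = 1 - μ.real {x | e x ≠ none} := by
    have : {x | e x ≠ none} = (e ⁻¹' {none})ᶜ := rfl
    rw [this, probReal_compl_eq_one_sub (he none)]
    ring
  unfold shannon
  rw [Fintype.sum_option]
  have hnone : Real.negMulLog (μ.real (e ⁻¹' {none})) ≤ δ / n := by
    have h2 := H1 (x := μ.real (e ⁻¹' {none})) (by
      rw [hsplit, Real.dist_eq]
      have h3 : (0 : ℝ) ≤ μ.real {x | e x ≠ none} := measureReal_nonneg
      have h4 : μ.real {x | e x ≠ none} ≤ ε1 / 2 := hle.trans (min_le_right _ _)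
      rw [abs_lt]
      constructor <;> linarith)
    rw [Real.dist_eq, sub_zero] at h2
    exact (le_abs_self _).trans h2.le
  have hsome : ∀ b, Real.negMulLog (μ.real (e ⁻¹' {some b})) ≤ δ / n := by
    intro b
    have h2 := H0 (x := μ.real (e ⁻¹' {some b})) (by
      rw [Real.dist_eq, sub_zero, abs_of_nonneg measureReal_nonneg]
      have h3 : μ.real (e ⁻¹' {some b}) ≤ μ.real {x | e x ≠ none} := by
        refine measureReal_mono ?_ (measure_ne_top _ _)
        intro x hx
        have hx' : e x = some b := hx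
        show e x ≠ none
        rw [hx']
        simp
      have h4 : μ.real {x | e x ≠ none} ≤ ε0 / 2 := hle.trans (min_le_left _ _)
      linarith)
    rw [Real.dist_eq, sub_zero] at h2
    exact (le_abs_self _).trans h2.le
  calc Real.negMulLog (μ.real (e ⁻¹' {none})) + ∑ b, Real.negMulLog (μ.real (e ⁻¹' {some b}))
      ≤ δ / n + ∑ _b : β, δ / n := add_le_add hnone (Finset.sum_le_sum fun b _ => hsome b)
    _ = δ := by
        rw [Finset.sum_const, nsmul_eq_mul, Finset.card_univ]
        field_simp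
        rw [hn]
        ring

end shannon

end Pool.Agent.Work.MP_0c7e55_an
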