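import Mathlib
import Pool.Agent.Work.MP_0c7e55_an.Shannon
import Pool.Agent.Work.MP_0c7e55_an.KernelFinal

open MeasureTheory Filter Topology
open scoped ENNReal symmDiff

namespace Pool.Agent.Work.MP_0c7e55_an

section approx

variable {Λ : Type*}

/-- truncation of an enumerated alphabet to finitely many symbols -/
def trunc (e : Λ → ℕ) (K : ℕ) (c : Λ) : Fin (K + 1) := ⟨min (e c) K, by omega⟩

/-- the first `N` coordinates, truncated -/
def coarse (e : Λ → ℕ) (K N : ℕ) (x : ℕ → Λ) : Fin N → Fin (K + 1) := fun i => trunc e K (x i)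

/-- sets determined by finitely many truncated coordinates -/
def coarseAlg (e : Λ → ℕ) : Set (Set (ℕ → Λ)) :=
  {S | ∃ (K N : ℕ) (D : Set (Fin N → Fin (K + 1))), S = coarse e K N ⁻¹' D}

/-- refinement map -/
def refineMap {K K' N N' : ℕ} (hN : N ≤ N') (w : Fin N' → Fin (K' + 1)) : Fin N → Fin (K + 1) :=
  fun i => ⟨min (w (Fin.castLE hN i)) K, by omega⟩

lemma coarse_refine (e : Λ → ℕ) {K K' N N' : ℕ} (hK : K ≤ K') (hN : N ≤ N') (x : ℕ → Λ) :
    coarse e K N x = refineMap hN (coarse e K' N' x) := by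
  funext i
  apply Fin.ext
  simp only [coarse, trunc, refineMap, Fin.val_castLE]
  omega

lemma coarseAlg_level (e : Λ → ℕ) {K K' N N' : ℕ} (hK : K ≤ K') (hN : N ≤ N')
    (D : Set (Fin N → Fin (K + 1))) :
    ∃ D' : Set (Fin N' → Fin (K' + 1)), coarse e K N ⁻¹' D = coarse e K' N' ⁻¹' D' := by
  refine ⟨refineMap hN ⁻¹' D, ?_⟩
  ext x
  simp only [Set.mem_preimage]
  rw [coarse_refine e hK hN]

lemma coarseAlg_isSetAlgebra (e : Λ → ℕ) : IsSetAlgebra (coarseAlg e) where
  empty_mem := ⟨0, 0, ∅, by simp⟩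
  compl_mem := by
    rintro s ⟨K, N, D, rfl⟩
    exact ⟨K, N, Dᶜ, by simp⟩
  union_mem := by
    rintro s t ⟨K, N, D, rfl⟩ ⟨K', N', D', rfl⟩
    obtain ⟨E, hE⟩ := coarseAlg_level e (le_max_left K K') (le_max_left N N') D
    obtain ⟨E', hE'⟩ := coarseAlg_level e (le_max_right K K') (le_max_right N N') D'
    exact ⟨max K K', max N N', E ∪ E', by rw [hE, hE', Set.preimage_union]⟩

variable [MeasurableSpace Λ] [DiscreteMeasurableSpace Λ]

lemma coarse_fib (e : Λ → ℕ) (K N : ℕ) : Fib (coarse e K N) := by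
  intro w
  have : coarse e K N ⁻¹' {w} = ⋂ i : Fin N, (fun x : ℕ → Λ => x i) ⁻¹' (trunc e K ⁻¹' {w i}) := by
    ext x
    simp [coarse, funext_iff]
  rw [this]
  exact MeasurableSet.iInter fun i =>
    measurable_pi_apply (X := fun _ : ℕ => Λ) _ (MeasurableSet.of_discrete)

lemma coarseAlg_generate [Countable Λ] {e : Λ → ℕ} (he : Function.Injective e) :
    (MeasurableSpace.pi : MeasurableSpace (ℕ → Λ)) =
      MeasurableSpace.generateFrom (coarseAlg e) := by
  apply le_antisymm
  · -- coordinates are measurable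
    refine iSup_le fun i => ?_
    rw [← measurable_iff_comap_le]
    have h1 : ∀ c : Λ, MeasurableSet[MeasurableSpace.generateFrom (coarseAlg e)]
        ((fun x : ℕ → Λ => x i) ⁻¹' {c}) := by
      intro c
      apply MeasurableSpace.measurableSet_generateFrom
      refine ⟨e c + 1, i + 1, {w | w (Fin.last i) = ⟨e c, by omega⟩}, ?_⟩
      ext x
      simp only [Set.mem_preimage, Set.mem_singleton_iff, Set.mem_ofPred_eq, coarse, trunc,
        Fin.val_last]
      rw [Fin.mk.injEq]
      constructor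
      · intro h; rw [h]; omega
      · intro h; exact he (by omega)
    intro s _
    have : (fun x : ℕ → Λ => x i) ⁻¹' s = ⋃ c ∈ s, (fun x : ℕ → Λ => x i) ⁻¹' {c} := by
      ext x; simp
    show MeasurableSet[MeasurableSpace.generateFrom (coarseAlg e)] ((fun x : ℕ → Λ => x i) ⁻¹' s)
    rw [this]
    exact MeasurableSet.biUnion (Set.to_countable s) fun c _ => h1 c
  · apply MeasurableSpace.generateFrom_le
    rintro s ⟨K, N, D, rfl⟩
    exact (coarse_fib e K N).preimage D

/-- approximation of measurable sets by finitely determined sets -/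
lemma approx_set [Countable Λ] {e : Λ → ℕ} (he : Function.Injective e)
    (μ : Measure (ℕ → Λ)) [IsProbabilityMeasure μ] {A : Set (ℕ → Λ)} (hA : MeasurableSet A)
    {ε : ℝ} (hε : 0 < ε) :
    ∃ (K N : ℕ) (D : Set (Fin N → Fin (K + 1))), μ.real (A ∆ (coarse e K N ⁻¹' D)) ≤ ε := by
  have hd := Measure.MeasureDense.of_generateFrom_isSetAlgebra_finite (μ := μ)
    (coarseAlg_isSetAlgebra e) (coarseAlg_generate he)
  obtain ⟨t, ⟨K, N, D, rfl⟩, ht⟩ := hd.approx A hA (measure_ne_top μ A) ε hε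
  refine ⟨K, N, D, ?_⟩
  rw [measureReal_def]
  exact ENNReal.toReal_le_of_le_ofReal hε.le ht.le

/-- approximation of a finite family of sets at a common level -/
lemma approx_family [Countable Λ] {e : Λ → ℕ} (he : Function.Injective e)
    (μ : Measure (ℕ → Λ)) [IsProbabilityMeasure μ] {k : ℕ} (A : Fin k → Set (ℕ → Λ))
    (hA : ∀ j, MeasurableSet (A j)) {ε : ℝ} (hε : 0 < ε) :
    ∃ (K N : ℕ) (D : Fin k → Set (Fin N → Fin (K + 1))),
      ∀ j, μ.real (A j ∆ (coarse e K N ⁻¹' D j)) ≤ ε := by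
  have h1 : ∀ j, ∃ (K N : ℕ) (D : Set (Fin N → Fin (K + 1))),
      μ.real (A j ∆ (coarse e K N ⁻¹' D)) ≤ ε := fun j => approx_set he μ (hA j) hε
  choose K N D hD using h1
  refine ⟨Finset.univ.sup K, Finset.univ.sup N, ?_⟩
  have h2 : ∀ j, ∃ D' : Set (Fin (Finset.univ.sup N) → Fin (Finset.univ.sup K + 1)),
      coarse e (K j) (N j) ⁻¹' (D j) = coarse e (Finset.univ.sup K) (Finset.univ.sup N) ⁻¹' D' :=
    fun j => coarseAlg_level e (Finset.le_sup (Finset.mem_univ j))
      (Finset.le_sup (Finset.mem_univ j)) (D j)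
  choose D' hD' using h2
  exact ⟨D', fun j => by rw [← hD' j]; exact hD j⟩

end approx

end Pool.Agent.Work.MP_0c7e55_an
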