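import Mathlib
import Pool.Agent.Work.MP_0c7e55_an.Approx

open MeasureTheory Filter Topology
open scoped ENNReal symmDiff

namespace Pool.Agent.Work.MP_0c7e55_an

/-- the sigma-algebra of the future -/
@[reducible] def futAlg (m : ℕ) : MeasurableSpace (ℕ → Fin m) :=
  MeasurableSpace.comap shift MeasurableSpace.pi

/-- if no centred function sees the symbol `j` then the event is determined by the future -/
lemma determined_of_no_v {m : ℕ} (P : Measure (ℕ → Fin m)) [IsProbabilityMeasure P]
    (hσ : MeasurePreserving shift P P) (j : Fin m)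
    (H : ∀ v : (ℕ → Fin m) → ℝ, Measurable v → (∀ z, |v z| ≤ 1) → Centred P shift v →
      ∫ z, v z * sym j z ∂P = 0) :
    ∃ A : Set (ℕ → Fin m), MeasurableSet A ∧ ∀ᵐ z ∂P, (z 0 = j ↔ shift z ∈ A) := by
  have hGle : futAlg m ≤ (MeasurableSpace.pi : MeasurableSpace (ℕ → Fin m)) :=
    hσ.measurable.comap_le
  have hf : Integrable (sym j) P := (memLp_of_bdd P (sym_meas j) (sym_bd j)).integrable one_le_two
  have hsym0 : ∀ z : ℕ → Fin m, 0 ≤ sym j z := fun z => by unfold sym; split_ifs <;> simp
  have hsym1 : ∀ z : ℕ → Fin m, sym j z ≤ 1 := fun z => by unfold sym; split_ifs <;> simp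
  set g0 : (ℕ → Fin m) → ℝ := P[sym j | futAlg m] with hg0
  have hg0m : StronglyMeasurable[futAlg m] g0 := stronglyMeasurable_condExp
  set g1 : (ℕ → Fin m) → ℝ := fun z => max 0 (min 1 (g0 z)) with hg1
  have hg1m : Measurable[futAlg m] g1 := by
    have h1 : Measurable[futAlg m] g0 := hg0m.measurable
    exact (measurable_const (a := (0 : ℝ))).max ((measurable_const (a := (1 : ℝ))).min h1)
  have hg1m' : Measurable g1 := hg1m.mono hGle le_rfl
  have hg1nn : ∀ z, 0 ≤ g1 z := fun z => le_max_left _ _
  have hg1le : ∀ z, g1 z ≤ 1 := fun z => max_le zero_le_one (min_le_left _ _)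
  have hae : g1 =ᵐ[P] g0 := by
    have h1 : 0 ≤ᵐ[P] g0 := condExp_nonneg (Eventually.of_forall hsym0)
    have h2 : g0 ≤ᵐ[P] fun _ => (1 : ℝ) := by
      have h3 : P[sym j | futAlg m] ≤ᵐ[P] P[(fun _ => (1 : ℝ)) | futAlg m] :=
        condExp_mono hf (integrable_const _) (Eventually.of_forall hsym1)
      rw [condExp_const hGle] at h3
      exact h3
    filter_upwards [h1, h2] with z h1 h2
    simp only [Pi.zero_apply] at h1
    simp only [hg1]
    rw [min_eq_right h2, max_eq_right h1]
  set v : (ℕ → Fin m) → ℝ := fun z => sym j z - g1 z with hv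
  have hvm : Measurable v := (sym_meas j).sub hg1m'
  have hv1 : ∀ z, |v z| ≤ 1 := fun z => by
    rw [abs_le]
    have := hsym0 z; have := hsym1 z; have := hg1nn z; have := hg1le z
    constructor <;> simp only [hv] <;> linarith
  have hvint : Integrable v P := (memLp_of_bdd P hvm hv1).integrable one_le_two
  have hvcond : P[v | futAlg m] =ᵐ[P] 0 := by
    have h1 : P[v | futAlg m] =ᵐ[P] P[sym j | futAlg m] - P[g1 | futAlg m] :=
      condExp_sub hf ((memLp_of_bdd P hg1m' (C := 1) (fun z => by
        rw [abs_of_nonneg (hg1nn z)]; exact hg1le z)).integrable one_le_two) (futAlg m)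
    have h2 : P[g1 | futAlg m] = g1 := condExp_of_stronglyMeasurable hGle hg1m.stronglyMeasurable
      ((memLp_of_bdd P hg1m' (C := 1) (fun z => by
        rw [abs_of_nonneg (hg1nn z)]; exact hg1le z)).integrable one_le_two)
    rw [h2] at h1
    filter_upwards [h1, hae] with z h1 h3
    rw [h1, Pi.sub_apply, h3]
    simp [hg0]
  have hpull : ∀ k : (ℕ → Fin m) → ℝ, StronglyMeasurable[futAlg m] k → Integrable (v * k) P →
      ∫ z, v z * k z ∂P = 0 := by
    intro k hk hvk
    have h1 : P[v * k | futAlg m] =ᵐ[P] P[v | futAlg m] * k :=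
      condExp_mul_of_stronglyMeasurable_right hk hvk hvint
    calc ∫ z, v z * k z ∂P = ∫ z, (v * k) z ∂P := rfl
      _ = ∫ z, (P[v * k | futAlg m]) z ∂P := (integral_condExp hGle).symm
      _ = ∫ z, (0 : ℝ) ∂P := by
        apply integral_congr_ae
        filter_upwards [h1, hvcond] with z h1 h2
        rw [h1, Pi.mul_apply, h2]
        simp
      _ = 0 := by simp
  have hcent : Centred P shift v := by
    intro k hk
    have hk' := hk.aestronglyMeasurable
    have h1 : ∀ᵐ z ∂P, k (shift z) = hk'.mk k (shift z) :=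
      hσ.quasiMeasurePreserving.ae hk'.ae_eq_mk
    have h2 : ∫ z, v z * k (shift z) ∂P = ∫ z, v z * hk'.mk k (shift z) ∂P := by
      apply integral_congr_ae
      filter_upwards [h1] with z h1
      rw [h1]
    rw [h2]
    have h3 : StronglyMeasurable[futAlg m] (fun z => hk'.mk k (shift z)) :=
      hk'.stronglyMeasurable_mk.comp_measurable (comap_measurable (m := MeasurableSpace.pi) _)
    apply hpull _ h3
    have h4 : Integrable (fun z => hk'.mk k (shift z)) P := by
      have h5 : Integrable (hk'.mk k) P := hk.congr hk'.ae_eq_mk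
      exact hσ.integrable_comp_of_integrable h5
    exact h4.bdd_mul (c := 1) hvm.aestronglyMeasurable (Eventually.of_forall fun z => by
      rw [Real.norm_eq_abs]; exact hv1 z)
  have hz1 := H v hvm hv1 hcent
  have hz2 : ∫ z, v z * g1 z ∂P = 0 := by
    apply hpull g1 hg1m.stronglyMeasurable
    refine Integrable.bdd_mul (c := 1) ?_ hvm.aestronglyMeasurable (Eventually.of_forall fun z => by
      rw [Real.norm_eq_abs]; exact hv1 z)
    exact (memLp_of_bdd P hg1m' (C := 1) (fun z => by
        rw [abs_of_nonneg (hg1nn z)]; exact hg1le z)).integrable one_le_two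
  have hz3 : ∫ z, v z * v z ∂P = 0 := by
    have h1 : ∀ z, v z * v z = v z * sym j z - v z * g1 z := fun z => by
      simp only [hv]; ring
    simp_rw [h1]
    rw [integral_sub, hz1, hz2, sub_zero]
    · refine Integrable.bdd_mul (c := 1) hf hvm.aestronglyMeasurable (Eventually.of_forall fun z => by
        rw [Real.norm_eq_abs]; exact hv1 z)
    · refine Integrable.bdd_mul (c := 1) ?_ hvm.aestronglyMeasurable
        (Eventually.of_forall fun z => by
          rw [Real.norm_eq_abs]; exact hv1 z)
      exact (memLp_of_bdd P hg1m' (C := 1) (fun z => by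
        rw [abs_of_nonneg (hg1nn z)]; exact hg1le z)).integrable one_le_two
  have hz4 : (fun z => v z * v z) =ᵐ[P] 0 := by
    rw [← integral_eq_zero_iff_of_nonneg (fun z => mul_self_nonneg (v z))]
    · exact hz3
    · refine Integrable.bdd_mul (c := 1) hvint hvm.aestronglyMeasurable
        (Eventually.of_forall fun z => by
          rw [Real.norm_eq_abs]; exact hv1 z)
  have hset : MeasurableSet[futAlg m] {z | g1 z = 1} := hg1m (measurableSet_singleton (1 : ℝ))
  obtain ⟨A, hA, hAeq⟩ := hset
  refine ⟨A, hA, ?_⟩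
  filter_upwards [hz4] with z hz
  have h1 : sym j z = g1 z := by
    have h2 : v z = 0 := by simpa using hz
    simp only [hv] at h2
    linarith
  have h2 : shift z ∈ A ↔ g1 z = 1 := by
    have : z ∈ shift ⁻¹' A ↔ z ∈ {z | g1 z = 1} := by rw [hAeq]
    exact this
  rw [h2, ← h1]
  unfold sym
  split_ifs with h3
  · simp [h3]
  · simp [h3]

end Pool.Agent.Work.MP_0c7e55_an
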