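import Mathlib
import Pool.Agent.Work.MP_0c7e55_an.Det

open MeasureTheory Filter Topology
open scoped ENNReal symmDiff

namespace Pool.Agent.Work.MP_0c7e55_an

/-- a zero coordinate determined by the future is almost a function of a future window -/
lemma predict {m : ℕ} (hm : 0 < m) (P : Measure (ℕ → Fin m)) [IsProbabilityMeasure P]
    (hσ : MeasurePreserving shift P P)
    (H : ∀ j : Fin m, ∃ A : Set (ℕ → Fin m), MeasurableSet A ∧ ∀ᵐ z ∂P, (z 0 = j ↔ shift z ∈ A))
    {ε : ℝ} (hε : 0 < ε) :
    ∃ (M : ℕ) (ψ : (Fin M → Fin m) → Fin m),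
      P.real {z | z 0 ≠ ψ (fun i => z (i + 1))} ≤ ε := by
  classical
  choose A hA hAe using H
  obtain ⟨K, N, D, hD⟩ := approx_family (e := (Fin.val : Fin m → ℕ)) Fin.val_injective P A hA
    (ε := ε / m) (by positivity)
  set c : (ℕ → Fin m) → (Fin N → Fin (K + 1)) := coarse (Fin.val : Fin m → ℕ) K N with hc
  set ψ : (Fin N → Fin m) → Fin m := fun w =>
    if h : ∃ j, (fun i => trunc (Fin.val : Fin m → ℕ) K (w i)) ∈ D j then h.choose else ⟨0, hm⟩
    with hψ
  refine ⟨N, ψ, ?_⟩
  have hnull : P {z | ¬ ∀ j, (z 0 = j ↔ shift z ∈ A j)} = 0 := by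
    have : ∀ᵐ z ∂P, ∀ j, (z 0 = j ↔ shift z ∈ A j) := ae_all_iff.2 hAe
    exact this
  have hsub : {z : ℕ → Fin m | z 0 ≠ ψ (fun i => z (i + 1))} ⊆
      {z | ¬ ∀ j, (z 0 = j ↔ shift z ∈ A j)} ∪
        ⋃ j ∈ (Finset.univ : Finset (Fin m)), shift ⁻¹' (A j ∆ (c ⁻¹' D j)) := by
    intro z hz
    by_contra hcon
    rw [Set.mem_union, not_or] at hcon
    obtain ⟨h1, h2⟩ := hcon
    have h1' : ∀ j, (z 0 = j ↔ shift z ∈ A j) := by
      by_contra h3
      exact h1 h3
    have h2' : ∀ j, (shift z ∈ A j ↔ c (shift z) ∈ D j) := by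
      intro j
      have h3 : shift z ∉ A j ∆ (c ⁻¹' D j) := fun h4 => h2 (by
        simp only [Set.mem_iUnion]
        exact ⟨j, Finset.mem_univ _, h4⟩)
      rw [Set.mem_symmDiff] at h3
      push Not at h3
      exact ⟨h3.1, fun h => by
        by_contra h5
        exact h5 (h3.2 h)⟩
    apply hz
    have hce : (fun i : Fin N => trunc (Fin.val : Fin m → ℕ) K (z (i + 1))) = c (shift z) := rfl
    have hex : ∃ j, (fun i : Fin N => trunc (Fin.val : Fin m → ℕ) K (z (i + 1))) ∈ D j :=
      ⟨z 0, by rw [hce, ← h2']; exact (h1' _).1 rfl⟩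
    have h3 : ψ (fun i => z (i + 1)) = hex.choose := by
      simp only [hψ]
      rw [dif_pos hex]
    rw [h3]
    have h4 := hex.choose_spec
    exact (h1' _).2 ((h2' _).2 h4)
  calc P.real {z | z 0 ≠ ψ (fun i => z (i + 1))}
      ≤ P.real ({z | ¬ ∀ j, (z 0 = j ↔ shift z ∈ A j)} ∪
        ⋃ j ∈ (Finset.univ : Finset (Fin m)), shift ⁻¹' (A j ∆ (c ⁻¹' D j))) :=
        measureReal_mono hsub (measure_ne_top _ _)
    _ ≤ P.real {z | ¬ ∀ j, (z 0 = j ↔ shift z ∈ A j)} +
        P.real (⋃ j ∈ (Finset.univ : Finset (Fin m)), shift ⁻¹' (A j ∆ (c ⁻¹' D j))) :=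
        measureReal_union_le _ _
    _ ≤ 0 + ∑ j : Fin m, P.real (shift ⁻¹' (A j ∆ (c ⁻¹' D j))) := by
        apply add_le_add
        · rw [measureReal_def, hnull]; simp
        · exact measureReal_biUnion_finset_le _ _
    _ ≤ 0 + ∑ _j : Fin m, ε / m := by
        gcongr with j _
        have hmeas : MeasurableSet (A j ∆ (c ⁻¹' D j)) :=
          (hA j).symmDiff ((coarse_fib _ K N).preimage (D j))
        rw [measureReal_def, hσ.measure_preimage hmeas.nullMeasurableSet, ← measureReal_def]
        exact hD j
    _ = ε := by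
        rw [Finset.sum_const, Finset.card_univ, Fintype.card_fin, nsmul_eq_mul, zero_add]
        field_simp

section growth

variable {Λ : Type*} [MeasurableSpace Λ] [DiscreteMeasurableSpace Λ]
  {μ : Measure (ℕ → Λ)} [IsProbabilityMeasure μ]

/-- entropy growth of the coarse process is at most the entropy of the prediction error -/
lemma coarse_growth (hμ : MeasurePreserving shift μ μ) (e : Λ → ℕ) (K M : ℕ)
    (ψ : (Fin M → Fin (K + 1)) → Fin (K + 1)) (e0 : (ℕ → Λ) → Option (Fin (K + 1)))
    (he0 : ∀ x, e0 x = if trunc e K (x 0) = ψ (coarse e K M (shift x)) then none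
      else some (trunc e K (x 0))) (hfib : Fib e0) (n : ℕ) :
    shannon μ (coarse e K (n + M)) ≤ shannon μ (coarse e K M) + n * shannon μ e0 := by
  induction n with
  | zero => 
    rw [Nat.zero_add]; simp
  | succ n ih =>
    set G : Option (Fin (K + 1)) × (Fin (n + M) → Fin (K + 1)) → (Fin (n + 1 + M) → Fin (K + 1)) :=
      fun q i => if h : (i : ℕ) = 0 then q.1.getD (ψ (fun k => q.2 ⟨k, by omega⟩))
        else q.2 ⟨i - 1, by omega⟩ with hG
    have h1 : coarse e K (n + 1 + M) = fun x => G (e0 x, coarse e K (n + M) (shift x)) := by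
      funext x i
      simp only [hG]
      by_cases h : (i : ℕ) = 0
      · rw [dif_pos h]
        have h2 : (fun k : Fin M => coarse e K (n + M) (shift x) ⟨k, by omega⟩) =
            coarse e K M (shift x) := rfl
        rw [h2, he0]
        simp only [coarse, h]
        split_ifs with h3
        · rw [h3]; rfl
        · rfl
      · rw [dif_neg h]
        simp only [coarse, shift]
        congr 2
        omega
    have h2 : Fib (fun x => (e0 x, coarse e K (n + M) (shift x))) := by
      apply Fib.prod hfib
      intro w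
      exact hμ.measurable (coarse_fib e K (n + M) w)
    calc shannon μ (coarse e K (n + 1 + M))
        ≤ shannon μ (fun x => (e0 x, coarse e K (n + M) (shift x))) := by
          rw [h1]
          exact shannon_comp_le h2 G
      _ ≤ shannon μ e0 + shannon μ (fun x => coarse e K (n + M) (shift x)) :=
          shannon_prod_le hfib (fun w => hμ.measurable (coarse_fib e K (n + M) w))
      _ = shannon μ e0 + shannon μ (coarse e K (n + M)) := by
          rw [shannon_comp_preserving hμ (coarse_fib e K (n + M))]
      _ ≤ shannon μ e0 + (shannon μ (coarse e K M) + n * shannon μ e0) := by linarith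
      _ = shannon μ (coarse e K M) + ((n + 1 : ℕ) : ℝ) * shannon μ e0 := by push_cast; ring

omit [IsProbabilityMeasure μ] in
lemma itinerary_fib {ι : Type*} [Fintype ι] (hμ : MeasurePreserving shift μ μ)
    {Q : (ℕ → Λ) → ι} (hQ : Fib Q) (n : ℕ) : Fib (itinerary shift Q n) := by
  intro w
  have : itinerary shift Q n ⁻¹' {w} = ⋂ i : Fin n, shift^[i] ⁻¹' (Q ⁻¹' {w i}) := by
    ext x
    simp [itinerary, funext_iff]
  rw [this]
  exact MeasurableSet.iInter fun i => (hμ.measurable.iterate i) (hQ _)

lemma itinerary_growth {ι : Type*} [Fintype ι] (hμ : MeasurePreserving shift μ μ)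
    {Q : (ℕ → Λ) → ι} (hQ : Fib Q) (n : ℕ) :
    shannon μ (itinerary shift Q n) ≤ n * shannon μ Q := by
  induction n with
  | zero =>
    have h1 : ∀ w : Fin 0 → ι, itinerary shift Q 0 ⁻¹' {w} = (Set.univ : Set (ℕ → Λ)) := by
      intro w
      ext x
      simp only [Set.mem_preimage, Set.mem_singleton_iff, Set.mem_univ, iff_true]
      exact Subsingleton.elim _ _
    unfold shannon
    simp [h1]
  | succ n ih =>
    set G : ι × (Fin n → ι) → (Fin (n + 1) → ι) :=
      fun q i => if h : (i : ℕ) = 0 then q.1 else q.2 ⟨i - 1, by omega⟩ with hG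
    have h1 : itinerary shift Q (n + 1) = fun x => G (Q x, itinerary shift Q n (shift x)) := by
      funext x i
      simp only [hG]
      by_cases h : (i : ℕ) = 0
      · rw [dif_pos h]
        simp only [itinerary, h]
        rfl
      · rw [dif_neg h]
        simp only [itinerary]
        rw [← Function.iterate_succ_apply]
        congr 2
        congr 1
        omega
    have hf2 : Fib (fun x => itinerary shift Q n (shift x)) :=
      fun w => hμ.measurable (itinerary_fib hμ hQ n w)
    calc shannon μ (itinerary shift Q (n + 1))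
        ≤ shannon μ (fun x => (Q x, itinerary shift Q n (shift x))) := by
          rw [h1]
          exact shannon_comp_le (Fib.prod hQ hf2) G
      _ ≤ shannon μ Q + shannon μ (fun x => itinerary shift Q n (shift x)) :=
          shannon_prod_le hQ hf2
      _ = shannon μ Q + shannon μ (itinerary shift Q n) := by
          rw [shannon_comp_preserving hμ (itinerary_fib hμ hQ n)]
      _ ≤ shannon μ Q + n * shannon μ Q := by linarith
      _ = ((n + 1 : ℕ) : ℝ) * shannon μ Q := by push_cast; ring

lemma coarse_mono (e : Λ → ℕ) (K : ℕ) {N N' : ℕ} (h : N ≤ N') :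
    shannon μ (coarse e K N) ≤ shannon μ (coarse e K N') := by
  have h1 : coarse e K N = fun x => (fun w : Fin N' → Fin (K + 1) => fun i : Fin N =>
      w (Fin.castLE h i)) (coarse e K N' x) := rfl
  rw [h1]
  exact shannon_comp_le (coarse_fib e K N') (fun w : Fin N' → Fin (K + 1) => fun i : Fin N =>
      w (Fin.castLE h i))

/-- if every truncated process is determined by its future, every partition entropy vanishes -/
lemma partitionEntropy_zero [Countable Λ] (hμ : MeasurePreserving shift μ μ) {e : Λ → ℕ}
    (he : Function.Injective e)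
    (H : ∀ K : ℕ, ∀ j : Fin (K + 1), ∃ A : Set (ℕ → Fin (K + 1)), MeasurableSet A ∧
      ∀ᵐ z ∂(μ.map (pr (trunc e K))), (z 0 = j ↔ shift z ∈ A))
    {k : ℕ} (Q : (ℕ → Λ) → Fin k) (hQ : Measurable Q) : partitionEntropy μ shift Q = 0 := by
  classical
  have hQf : Fib Q := fun a => hQ (measurableSet_singleton a)
  have hne : Nonempty (ℕ → Λ) := by
    by_contra h
    rw [not_nonempty_iff] at h
    have h1 : μ Set.univ = 0 := by
      rw [Set.eq_empty_of_isEmpty Set.univ, measure_empty]
    rw [measure_univ] at h1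
    exact one_ne_zero h1
  have hk : 0 < k := by
    obtain ⟨x⟩ := hne
    exact lt_of_le_of_lt (Nat.zero_le _) (Q x).2
  have key : ∀ δ : ℝ, 0 < δ → ∃ C : ℝ, ∀ n : ℕ, shannon μ (itinerary shift Q n) ≤ C + n * δ := by
    intro δ hδ
    obtain ⟨ε1, hε1, Hε1⟩ := shannon_option_small (μ := μ) (Fin k) (δ := δ / 2) (by positivity)
    obtain ⟨K, N, D, hD⟩ := approx_family he μ (fun j : Fin k => Q ⁻¹' {j}) hQf
      (ε := ε1 / k) (by positivity)
    set φ : (Fin N → Fin (K + 1)) → Fin k := fun w =>
      if h : ∃ j, w ∈ D j then h.choose else ⟨0, hk⟩ with hφ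
    set e1 : (ℕ → Λ) → Option (Fin k) := fun x =>
      if Q x = φ (coarse e K N x) then none else some (Q x) with he1
    have he1f : Fib e1 := by
      exact (Fib.prod hQf (coarse_fib e K N)).comp (fun q : Fin k × (Fin N → Fin (K + 1)) =>
        if q.1 = φ q.2 then none else some q.1)
    have he1s : μ.real {x | e1 x ≠ none} ≤ ε1 := by
      have hsub : {x : ℕ → Λ | e1 x ≠ none} ⊆
          ⋃ j ∈ (Finset.univ : Finset (Fin k)), ((Q ⁻¹' {j}) ∆ (coarse e K N ⁻¹' D j)) := by
        intro x hx
        by_contra hcon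
        have h2' : ∀ j, (Q x = j ↔ coarse e K N x ∈ D j) := by
          intro j
          have h3 : x ∉ (Q ⁻¹' {j}) ∆ (coarse e K N ⁻¹' D j) := fun h4 => hcon (by
            simp only [Set.mem_iUnion]
            exact ⟨j, Finset.mem_univ _, h4⟩)
          rw [Set.mem_symmDiff] at h3
          push Not at h3
          exact ⟨fun h => h3.1 h, fun h => h3.2 h⟩
        apply hx
        have hex : ∃ j, coarse e K N x ∈ D j := ⟨Q x, (h2' _).1 rfl⟩
        have h3 : φ (coarse e K N x) = hex.choose := by
          simp only [hφ]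
          rw [dif_pos hex]
        have h4 : Q x = hex.choose := (h2' _).2 hex.choose_spec
        simp only [he1]
        rw [if_pos (by rw [h3, ← h4])]
      calc μ.real {x | e1 x ≠ none}
          ≤ μ.real (⋃ j ∈ (Finset.univ : Finset (Fin k)),
              ((Q ⁻¹' {j}) ∆ (coarse e K N ⁻¹' D j))) := measureReal_mono hsub (measure_ne_top _ _)
        _ ≤ ∑ j : Fin k, μ.real ((Q ⁻¹' {j}) ∆ (coarse e K N ⁻¹' D j)) :=
            measureReal_biUnion_finset_le _ _
        _ ≤ ∑ _j : Fin k, ε1 / k := Finset.sum_le_sum fun j _ => hD j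
        _ = ε1 := by
            rw [Finset.sum_const, Finset.card_univ, Fintype.card_fin, nsmul_eq_mul]
            field_simp
    have hent1 : shannon μ e1 ≤ δ / 2 := Hε1 e1 he1f he1s
    -- prediction of the coarse process
    obtain ⟨ε2, hε2, Hε2⟩ := shannon_option_small (μ := μ) (Fin (K + 1)) (δ := δ / 2)
      (by positivity)
    have hmπ : Measurable (trunc e K) := Measurable.of_discrete
    have hpr := pr_preserving μ hmπ
    have iP : IsProbabilityMeasure (μ.map (pr (trunc e K))) :=
      Measure.isProbabilityMeasure_map hpr.measurable.aemeasurable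
    obtain ⟨M, ψ, hψ⟩ := predict (Nat.succ_pos K) (μ.map (pr (trunc e K)))
      (shift_preserving_map hμ hmπ) (H K) hε2
    set e0 : (ℕ → Λ) → Option (Fin (K + 1)) := fun x =>
      if trunc e K (x 0) = ψ (coarse e K M (shift x)) then none
      else some (trunc e K (x 0)) with he0
    have htf : Fib (fun x : ℕ → Λ => trunc e K (x 0)) := fun a =>
      measurable_pi_apply (X := fun _ : ℕ => Λ) 0
        (MeasurableSet.of_discrete (s := trunc e K ⁻¹' {a}))
    have hcf : Fib (fun x : ℕ → Λ => coarse e K M (shift x)) := fun a =>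
      hμ.measurable (coarse_fib e K M a)
    have he0f : Fib e0 := by
      exact (Fib.prod htf hcf).comp (fun q : Fin (K + 1) × (Fin M → Fin (K + 1)) =>
        if q.1 = ψ q.2 then none else some q.1)
    have he0s : μ.real {x | e0 x ≠ none} ≤ ε2 := by
      have h1 : {x | e0 x ≠ none} = pr (trunc e K) ⁻¹' {z | z 0 ≠ ψ (fun i => z (i + 1))} := by
        ext x
        simp only [Set.mem_ofPred_eq, Set.mem_preimage, he0]
        have h2 : (fun i : Fin M => pr (trunc e K) x (i + 1)) = coarse e K M (shift x) := rfl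
        rw [h2]
        have h3 : pr (trunc e K) x 0 = trunc e K (x 0) := rfl
        rw [h3]
        split_ifs with h4
        · simp [h4]
        · simp [h4]
      have hms : MeasurableSet {z : ℕ → Fin (K + 1) | z 0 ≠ ψ (fun i => z (i + 1))} := by
        have h2 : Measurable (fun z : ℕ → Fin (K + 1) => (z 0, ψ (fun i => z (i + 1)))) := by
          apply Measurable.prodMk (measurable_pi_apply (X := fun _ : ℕ => Fin (K + 1)) 0)
          apply (Measurable.of_discrete (f := ψ)).comp
          exact measurable_pi_lambda _ fun i => measurable_pi_apply (X := fun _ : ℕ => Fin (K + 1)) _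
        exact h2 (MeasurableSet.of_discrete (s := {q : Fin (K + 1) × Fin (K + 1) | q.1 ≠ q.2}))
      rw [h1, measureReal_def, hpr.measure_preimage hms.nullMeasurableSet, ← measureReal_def]
      exact hψ
    have hent0 : shannon μ e0 ≤ δ / 2 := Hε2 e0 he0f he0s
    refine ⟨shannon μ (coarse e K M) + N * (δ / 2), fun n => ?_⟩
    -- reconstruction of the itinerary
    set R : (Fin n → Option (Fin k)) × (Fin (n + N) → Fin (K + 1)) → (Fin n → Fin k) :=
      fun q i => (q.1 i).getD (φ (fun l => q.2 ⟨l + i, by omega⟩)) with hR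
    have hrec : itinerary shift Q n =
        fun x => R (itinerary shift e1 n x, coarse e K (n + N) x) := by
      funext x i
      simp only [hR, itinerary]
      have h1 : (fun l : Fin N => coarse e K (n + N) x ⟨l + i, by omega⟩) =
          coarse e K N (shift^[i] x) := by
        funext l
        simp only [coarse, shift_iter]
      rw [h1]
      simp only [he1]
      split_ifs with h3
      · rw [h3]; rfl
      · rfl
    have hf1 := itinerary_fib hμ he1f n
    have hf2 := coarse_fib e K (n + N)
    have hn0 : (0 : ℝ) ≤ n := Nat.cast_nonneg n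
    have hN0 : (0 : ℝ) ≤ ((n + N : ℕ) : ℝ) := Nat.cast_nonneg _
    calc shannon μ (itinerary shift Q n)
        ≤ shannon μ (fun x => (itinerary shift e1 n x, coarse e K (n + N) x)) := by
          rw [hrec]
          exact shannon_comp_le (Fib.prod hf1 hf2) R
      _ ≤ shannon μ (itinerary shift e1 n) + shannon μ (coarse e K (n + N)) :=
          shannon_prod_le hf1 hf2
      _ ≤ n * shannon μ e1 + shannon μ (coarse e K (n + N + M)) :=
          add_le_add (itinerary_growth hμ he1f n) (coarse_mono e K (by omega))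
      _ ≤ n * (δ / 2) + (shannon μ (coarse e K M) + ((n + N : ℕ) : ℝ) * shannon μ e0) :=
          add_le_add (mul_le_mul_of_nonneg_left hent1 hn0)
            (coarse_growth hμ e K M ψ e0 (fun x => rfl) he0f (n + N))
      _ ≤ n * (δ / 2) + (shannon μ (coarse e K M) + ((n + N : ℕ) : ℝ) * (δ / 2)) := by
          gcongr
      _ = shannon μ (coarse e K M) + N * (δ / 2) + n * δ := by push_cast; ring
  unfold partitionEntropy
  refine le_antisymm ?_ (zero_le (a := _))
  apply le_of_forall_pos_le_add
  intro δ' hδ'
  rw [zero_add]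
  by_cases htop : δ' = ⊤
  · rw [htop]; exact le_top
  set δ := δ'.toReal with hδ
  have hδpos : 0 < δ := ENNReal.toReal_pos hδ'.ne' htop
  obtain ⟨C, hC⟩ := key δ hδpos
  have hlim : Tendsto (fun n : ℕ => ENNReal.ofReal (C / n + δ)) atTop (𝓝 (ENNReal.ofReal (0 + δ))) := by
    apply ENNReal.tendsto_ofReal
    exact (tendsto_const_div_atTop_nhds_zero_nat C).add_const δ
  calc limsup (fun n : ℕ => ENNReal.ofReal (shannon μ (itinerary shift Q n) / n)) atTop
      ≤ limsup (fun n : ℕ => ENNReal.ofReal (C / n + δ)) atTop := by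
        refine limsup_le_limsup ?_ (by isBoundedDefault) (by isBoundedDefault)
        filter_upwards [eventually_gt_atTop 0] with n hn
        apply ENNReal.ofReal_le_ofReal
        have hn' : (0 : ℝ) < n := by exact_mod_cast hn
        rw [div_add' _ _ _ hn'.ne']
        apply div_le_div_of_nonneg_right _ hn'.le
        have := hC n
        linarith
    _ = ENNReal.ofReal (0 + δ) := hlim.limsup_eq
    _ = δ' := by rw [zero_add, hδ, ENNReal.ofReal_toReal htop]

end growth

end Pool.Agent.Work.MP_0c7e55_an
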