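import Mathlib
import Pool.Agent.Work.MP_0c7e55_an.Entropy

open MeasureTheory Filter Topology
open scoped ENNReal symmDiff

namespace Pool.Agent.Work.MP_0c7e55_an

/-- positive entropy gives a symbol correlated with a function centred given the future -/
theorem exists_centred {Λ : Type*} [Countable Λ] [MeasurableSpace Λ] [DiscreteMeasurableSpace Λ]
    {μ : Measure (ℕ → Λ)} [IsProbabilityMeasure μ] (hμ : MeasurePreserving shift μ μ)
    (hpos : 0 < ksEntropy μ shift) :
    ∃ (m : ℕ) (π : Λ → Fin m) (a : Λ), (∀ c, π c = π a ↔ c = a) ∧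
      ∃ v : (ℕ → Fin m) → ℝ, Measurable v ∧ (∀ z, |v z| ≤ 1) ∧
        Centred (μ.map (pr π)) shift v ∧ ∫ z, v z * sym (π a) z ∂(μ.map (pr π)) ≠ 0 := by
  classical
  by_contra hcon
  have hcon' : ∀ (m : ℕ) (π : Λ → Fin m) (a : Λ), (∀ c, π c = π a ↔ c = a) →
      ∀ v : (ℕ → Fin m) → ℝ, Measurable v → (∀ z, |v z| ≤ 1) →
        Centred (μ.map (pr π)) shift v → ∫ z, v z * sym (π a) z ∂(μ.map (pr π)) = 0 := by
    intro m π a ha v hv hv1 hc
    by_contra h
    exact hcon ⟨m, π, a, ha, v, hv, hv1, hc, h⟩
  obtain ⟨e, he⟩ := exists_injective_nat Λ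
  have H : ∀ K : ℕ, ∀ j : Fin (K + 1), ∃ A : Set (ℕ → Fin (K + 1)), MeasurableSet A ∧
      ∀ᵐ z ∂(μ.map (pr (trunc e K))), (z 0 = j ↔ shift z ∈ A) := by
    intro K
    have hmπ : Measurable (trunc e K) := Measurable.of_discrete
    have hpr := pr_preserving μ hmπ
    have iP : IsProbabilityMeasure (μ.map (pr (trunc e K))) :=
      Measure.isProbabilityMeasure_map hpr.measurable.aemeasurable
    have hσ := shift_preserving_map hμ hmπ
    have hlt : ∀ j : Fin (K + 1), (j : ℕ) < K → ∃ A : Set (ℕ → Fin (K + 1)), MeasurableSet A ∧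
        ∀ᵐ z ∂(μ.map (pr (trunc e K))), (z 0 = j ↔ shift z ∈ A) := by
      intro j hj
      by_cases hex : ∃ c, e c = j
      · obtain ⟨c, hc⟩ := hex
        have hcj : trunc e K c = j := by
          apply Fin.ext
          simp only [trunc]
          omega
        have ha : ∀ c', trunc e K c' = trunc e K c ↔ c' = c := by
          intro c'
          constructor
          · intro h
            apply he
            have h' := congrArg Fin.val h
            simp only [trunc] at h'
            omega
          · rintro rfl; rfl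
        have := determined_of_no_v (μ.map (pr (trunc e K))) hσ (trunc e K c)
          (fun v hv hv1 hc => hcon' (K + 1) (trunc e K) c ha v hv hv1 hc)
        rw [hcj] at this
        exact this
      · refine ⟨∅, MeasurableSet.empty, ?_⟩
        have hms : MeasurableSet {z : ℕ → Fin (K + 1) | z 0 = j ↔ shift z ∈ (∅ : Set (ℕ → Fin (K + 1)))} := by
          have : {z : ℕ → Fin (K + 1) | z 0 = j ↔ shift z ∈ (∅ : Set (ℕ → Fin (K + 1)))} =
              {z | z 0 = j}ᶜ := by
            ext z; simp
          rw [this]
          exact (measurable_pi_apply (X := fun _ : ℕ => Fin (K + 1)) 0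
            (measurableSet_singleton j)).compl
        rw [ae_map_iff hpr.measurable.aemeasurable hms]
        apply Eventually.of_forall
        intro x
        have h1 : pr (trunc e K) x 0 = trunc e K (x 0) := rfl
        rw [h1]
        constructor
        · intro h
          exfalso
          apply hex
          refine ⟨x 0, ?_⟩
          have h' := congrArg Fin.val h
          simp only [trunc] at h'
          omega
        · intro h; exact absurd h (Set.notMem_empty _)
    intro j
    rcases lt_or_ge (j : ℕ) K with hj | hj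
    · exact hlt j hj
    · have hjK : (j : ℕ) = K := by have := j.2; omega
      choose A hA hAe using hlt
      refine ⟨(⋃ i : {i : Fin (K + 1) // (i : ℕ) < K}, A i.1 i.2)ᶜ,
        (MeasurableSet.iUnion fun i : {i : Fin (K + 1) // (i : ℕ) < K} => hA i.1 i.2).compl, ?_⟩
      have hall : ∀ᵐ z ∂(μ.map (pr (trunc e K))), ∀ i : {i : Fin (K + 1) // (i : ℕ) < K},
          (z 0 = i.1 ↔ shift z ∈ A i.1 i.2) := ae_all_iff.2 fun i => hAe i.1 i.2
      filter_upwards [hall] with z hz
      rw [Set.mem_compl_iff, Set.mem_iUnion]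
      constructor
      · rintro h ⟨i, hi⟩
        have h1 := (hz i).2 hi
        rw [h] at h1
        have h2 := i.2
        rw [← h1] at h2
        omega
      · intro h
        by_contra h1
        have h2 : (z 0 : ℕ) < K := by
          have h3 := (z 0).2
          have h4 : (z 0 : ℕ) ≠ K := fun h5 => h1 (Fin.ext (by rw [h5, hjK]))
          omega
        exact h ⟨⟨z 0, h2⟩, (hz ⟨z 0, h2⟩).1 rfl⟩
  have hzero : ksEntropy μ shift = 0 := by
    unfold ksEntropy
    simp only [ENNReal.iSup_eq_zero]
    intro k Q hQ
    exact partitionEntropy_zero hμ he H Q hQ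
  rw [hzero] at hpos
  exact lt_irrefl _ hpos

end Pool.Agent.Work.MP_0c7e55_an
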