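import Mathlib
import Pool.Agent.Work.MP_0c7e55_an.Single

open MeasureTheory Filter Topology
open scoped ENNReal

namespace Pool.Agent.Work.MP_0c7e55_an

lemma wordSet_isClopen (L : ℕ) (i : Fin L → Bool) :
    IsClopen {z : ℕ → Bool | ∀ k : Fin L, z k = i k} := by
  have : {z : ℕ → Bool | ∀ k : Fin L, z k = i k} =
      ⋂ k : Fin L, (fun z : ℕ → Bool => z k) ⁻¹' {i k} := by
    ext z; simp
  rw [this]
  exact isClopen_iInter_of_finite fun k => (isClopen_discrete _).preimage (continuous_apply _)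

lemma empirical_real (y : ℕ → Bool) (L : ℕ) (i : Fin L → Bool) (N : ℕ) :
    ((empirical y N : ProbabilityMeasure (ℕ → Bool)) : Measure (ℕ → Bool)).real
      {z : ℕ → Bool | ∀ k : Fin L, z k = i k} * ((N + 1 : ℕ) : ℝ) = cw y L i (N + 1) := by
  classical
  set E := {z : ℕ → Bool | ∀ k : Fin L, z k = i k} with hE
  have hEm : MeasurableSet E := (wordSet_isClopen L i).isOpen.measurableSet
  have h1 : ((empirical y N : ProbabilityMeasure (ℕ → Bool)) : Measure (ℕ → Bool)) =
      ((N + 1 : ℕ) : ℝ≥0∞)⁻¹ • ∑ n ∈ Finset.range (N + 1), Measure.dirac (shift^[n] y) := rfl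
  rw [h1, measureReal_def, Measure.smul_apply, Measure.finsetSum_apply, smul_eq_mul,
    ENNReal.toReal_mul, ENNReal.toReal_inv, ENNReal.toReal_natCast, ENNReal.toReal_sum]
  · have h2 : ∀ n ∈ Finset.range (N + 1), ((Measure.dirac (shift^[n] y)) E).toReal =
        if word y L n = i then 1 else 0 := by
      intro n _
      rw [Measure.dirac_apply' _ hEm]
      have h3 : shift^[n] y ∈ E ↔ word y L n = i := by
        simp only [hE, Set.mem_ofPred_eq, shift_iter, word, funext_iff]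
        apply forall_congr'
        intro k
        rw [add_comm]
      by_cases h : word y L n = i
      · rw [if_pos h, Set.indicator_of_mem (h3.2 h)]; simp
      · rw [if_neg h, Set.indicator_of_notMem (fun h' => h (h3.1 h'))]; simp
    rw [Finset.sum_congr rfl h2, cw]
    have h4 : (((N + 1 : ℕ) : ℝ)) ≠ 0 := by positivity
    rw [mul_comm _ (((N + 1 : ℕ) : ℝ)), ← mul_assoc, mul_inv_cancel₀ h4, one_mul]
    apply Finset.sum_congr rfl
    intro n _
    congr
  · intro n _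
    exact measure_ne_top _ _

lemma freq_of_cluster (y : ℕ → Bool) (ν : ProbabilityMeasure (ℕ → Bool))
    (h : MapClusterPt ν atTop (empirical y)) (L : ℕ) (ξ : ℝ) (hξ : 0 < ξ) (N0 : ℕ) :
    ∃ N : ℕ, N0 ≤ N ∧ ∀ i : Fin L → Bool,
      |cw y L i N - N * (ν : Measure (ℕ → Bool)).real {z : ℕ → Bool | ∀ k : Fin L, z k = i k}| ≤
        ξ * N := by
  have h1 : ∀ i : Fin L → Bool, ∀ᶠ ρ : ProbabilityMeasure (ℕ → Bool) in 𝓝 ν,
      |(ρ : Measure (ℕ → Bool)).real {z : ℕ → Bool | ∀ k : Fin L, z k = i k} -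
        (ν : Measure (ℕ → Bool)).real {z : ℕ → Bool | ∀ k : Fin L, z k = i k}| ≤ ξ := by
    intro i
    have h2 : Tendsto (fun ρ : ProbabilityMeasure (ℕ → Bool) =>
        (ρ : Measure (ℕ → Bool)).real {z : ℕ → Bool | ∀ k : Fin L, z k = i k}) (𝓝 ν)
        (𝓝 ((ν : Measure (ℕ → Bool)).real {z : ℕ → Bool | ∀ k : Fin L, z k = i k})) := by
      have h3 := ProbabilityMeasure.tendsto_measure_of_null_frontier_of_tendsto'
        (μs := fun ρ : ProbabilityMeasure (ℕ → Bool) => ρ) (L := 𝓝 ν) (μ := ν) tendsto_id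
        (E := {z : ℕ → Bool | ∀ k : Fin L, z k = i k}) (by
          rw [(wordSet_isClopen L i).frontier_eq]; simp)
      exact (ENNReal.tendsto_toReal (measure_ne_top _ _)).comp h3
    have h4 := h2.eventually (Metric.closedBall_mem_nhds _ hξ)
    filter_upwards [h4] with ρ hρ
    exact hρ
  have h5 : ∀ᶠ ρ : ProbabilityMeasure (ℕ → Bool) in 𝓝 ν, ∀ i : Fin L → Bool,
      |(ρ : Measure (ℕ → Bool)).real {z : ℕ → Bool | ∀ k : Fin L, z k = i k} -
        (ν : Measure (ℕ → Bool)).real {z : ℕ → Bool | ∀ k : Fin L, z k = i k}| ≤ ξ :=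
    eventually_all.2 h1
  have h6 := (mapClusterPt_iff_frequently.1 h _ h5)
  obtain ⟨N, hN, hN'⟩ := (frequently_atTop.1 h6) N0
  refine ⟨N + 1, by omega, fun i => ?_⟩
  rw [← empirical_real]
  have h7 := hN' i
  have hpos : (0 : ℝ) ≤ ((N + 1 : ℕ) : ℝ) := Nat.cast_nonneg _
  rw [mul_comm (((N + 1 : ℕ) : ℝ)) _, ← sub_mul, abs_mul, abs_of_nonneg hpos]
  exact mul_le_mul_of_nonneg_right h7 hpos

end Pool.Agent.Work.MP_0c7e55_an
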