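import Mathlib
import Pool.Agent.Work.MP_0c7e55_an.ExistsV
import Pool.Agent.Work.MP_0c7e55_an.Freq
import Pool.Agent.Work.MP_0c7e55_an.Concat

open MeasureTheory Filter Topology
open scoped ENNReal

namespace Pool.Agent.Work.MP_0c7e55_an

lemma occ_sub_blockCount {Λ : Type*} (B : List Λ) (x : ℕ → Λ) (N : ℕ) :
    |occ B N x - blockCount B x N| ≤ B.length := by
  classical
  have h1 : (blockCount B x N : ℝ) = ∑ k ∈ Finset.range N,
      if k + B.length ≤ N ∧ shift^[k] x ∈ cyl B then (1 : ℝ) else 0 := by
    unfold blockCount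
    rw [Finset.card_filter]
    push_cast
    apply Finset.sum_congr rfl
    intro k _
    congr
  have h2 : occ B N x = ∑ k ∈ Finset.range N, if shift^[k] x ∈ cyl B then (1 : ℝ) else 0 := by
    unfold occ
    apply Finset.sum_congr rfl
    intro k _
    congr
  rw [h1, h2, ← Finset.sum_sub_distrib]
  refine (Finset.abs_sum_le_sum_abs _ _).trans ?_
  refine (Finset.sum_le_sum (g := fun k => if N < k + B.length then (1 : ℝ) else 0)
    fun k _ => ?_).trans (count_tail N B.length)
  by_cases h3 : N < k + B.length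
  · rw [if_pos h3]
    split_ifs <;> simp
  · rw [if_neg h3]
    have h4 : k + B.length ≤ N := by omega
    simp [h4]

lemma generic_of_occ {Λ : Type*} [MeasurableSpace Λ] {μ : Measure (ℕ → Λ)} {x : ℕ → Λ}
    (h : ∀ B : List Λ, Tendsto (fun N : ℕ => occ B N x / N) atTop (𝓝 (μ.real (cyl B)))) :
    IsGeneric μ x := by
  intro B
  have h1 : Tendsto (fun N : ℕ => occ B N x / N - (blockCount B x N : ℝ) / N) atTop (𝓝 0) := by
    rw [tendsto_zero_iff_abs_tendsto_zero]
    refine squeeze_zero (fun N => abs_nonneg _) (g := fun N : ℕ => (B.length : ℝ) / N) ?_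
      (tendsto_const_div_atTop_nhds_zero_nat _)
    intro N
    rw [Function.comp_apply, ← sub_div, abs_div, Nat.abs_cast]
    exact div_le_div_of_nonneg_right (occ_sub_blockCount B x N) (Nat.cast_nonneg _)
  have h2 := (h B).sub h1
  simpa using h2

lemma mem_cyl_singleton {Λ : Type*} (a : Λ) (x : ℕ → Λ) : x ∈ cyl [a] ↔ x 0 = a := by
  simp only [cyl, Set.mem_ofPred_eq]
  constructor
  · intro h
    have := h 0 (by simp)
    simpa using this
  · intro h i hi
    have hi' : i = 0 := by simpa using hi
    subst hi'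
    simpa using h

open Classical in
lemma sum_gc_true {Λ : Type*} (S : Set ℕ) (x : ℕ → Λ) (a : Λ) (c : ℝ) (N : ℕ) :
    ∑ t ∈ Finset.range N, gc a true c (indicatorSeq S) x t =
      blockCount [a] (restrictTo S x) (Nat.count (fun n => n ∈ S) N) -
        c * Nat.count (fun n => n ∈ S) N := by
  have hbc : ∀ M, (blockCount [a] (restrictTo S x) M : ℝ) =
      ∑ k ∈ Finset.range M, if restrictTo S x k = a then (1 : ℝ) else 0 := by
    intro M
    unfold blockCount
    rw [Finset.card_filter]
    push_cast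
    apply Finset.sum_congr rfl
    intro k hk
    rw [Finset.mem_range] at hk
    have h1 : (k + [a].length ≤ M ∧ shift^[k] (restrictTo S x) ∈ cyl [a]) ↔
        restrictTo S x k = a := by
      rw [mem_cyl_singleton, shift_iter, Nat.zero_add]
      constructor
      · rintro ⟨-, h⟩; exact h
      · intro h; exact ⟨by simpa using hk, h⟩
    by_cases h : restrictTo S x k = a
    · rw [if_pos h, if_pos (h1.2 h)]
    · rw [if_neg h, if_neg (fun h' => h (h1.1 h'))]
  induction N with
  | zero => simp
  | succ N ih =>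
    rw [Finset.sum_range_succ, ih, Nat.count_succ]
    by_cases hN : N ∈ S
    · have h1 : restrictTo S x (Nat.count (fun n => n ∈ S) N) = x N := by
        unfold restrictTo
        rw [Nat.nth_count (p := fun n => n ∈ S) hN]
      have h2 : gc a true c (indicatorSeq S) x N = (if x N = a then (1 : ℝ) else 0) - c := by
        unfold gc indicatorSeq
        simp [hN]
      rw [if_pos hN, h2, hbc, hbc, Finset.sum_range_succ, h1]
      push_cast
      ring
    · have h2 : gc a true c (indicatorSeq S) x N = 0 := by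
        unfold gc indicatorSeq
        simp [hN]
      rw [if_neg hN, h2]
      simp

open Classical in
lemma gc_small {Λ : Type*} [MeasurableSpace Λ] {μ : Measure (ℕ → Λ)} (S : Set ℕ) (hS : S.Infinite)
    (x : ℕ → Λ) (a : Λ) (b : Bool)
    (hx : Tendsto (fun N : ℕ => occ [a] N x / N) atTop (𝓝 (μ.real (cyl [a]))))
    (hz : IsSimplyNormal μ (restrictTo S x)) {ε : ℝ} (hε : 0 < ε) :
    ∀ᶠ N : ℕ in atTop,
      |∑ t ∈ Finset.range N, gc a b (μ.real (cyl [a])) (indicatorSeq S) x t| ≤ ε * N := by
  set c := μ.real (cyl [a]) with hc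
  have hcount : Tendsto (fun N => Nat.count (fun n => n ∈ S) N) atTop atTop := by
    rw [tendsto_atTop]
    intro M
    filter_upwards [eventually_ge_atTop (Nat.nth (fun n => n ∈ S) M)] with N hN
    have h1 := Nat.count_monotone (fun n => n ∈ S) hN
    rw [Nat.count_nth_of_infinite (p := fun n => n ∈ S) hS M] at h1
    exact h1
  have htrue : ∀ ε : ℝ, 0 < ε → ∀ᶠ N : ℕ in atTop,
      |∑ t ∈ Finset.range N, gc a true c (indicatorSeq S) x t| ≤ ε * N := by
    intro ε hε
    have h1 : ∀ᶠ M : ℕ in atTop,
        |(blockCount [a] (restrictTo S x) M : ℝ) - c * M| ≤ ε * M := by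
      have h2 := (hz a).eventually (Metric.closedBall_mem_nhds _ hε)
      filter_upwards [h2, eventually_gt_atTop 0] with M h2 hM
      have hM' : (0 : ℝ) < M := by exact_mod_cast hM
      rw [Real.dist_eq] at h2
      have h3 : (blockCount [a] (restrictTo S x) M : ℝ) - c * M =
          ((blockCount [a] (restrictTo S x) M : ℝ) / M - c) * M := by field_simp
      rw [h3, abs_mul, abs_of_pos hM']
      exact mul_le_mul_of_nonneg_right h2 hM'.le
    filter_upwards [hcount.eventually h1] with N hN
    rw [sum_gc_true S]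
    refine hN.trans ?_
    apply mul_le_mul_of_nonneg_left _ hε.le
    have h4 : Nat.count (fun n => n ∈ S) N ≤ N := Nat.count_le _
    exact_mod_cast h4
  cases b
  · have h1 : ∀ᶠ N : ℕ in atTop, |occ [a] N x - c * N| ≤ ε / 2 * N := by
      have h2 := hx.eventually (Metric.closedBall_mem_nhds _ (half_pos hε))
      filter_upwards [h2, eventually_gt_atTop 0] with M h2 hM
      have hM' : (0 : ℝ) < M := by exact_mod_cast hM
      rw [Real.dist_eq] at h2
      have h3 : occ [a] M x - c * M = (occ [a] M x / M - c) * M := by field_simp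
      rw [h3, abs_mul, abs_of_pos hM']
      exact mul_le_mul_of_nonneg_right h2 hM'.le
    filter_upwards [h1, htrue (ε / 2) (half_pos hε)] with N hN1 hN2
    have h2 : ∑ t ∈ Finset.range N, gc a false c (indicatorSeq S) x t =
        (occ [a] N x - c * N) - ∑ t ∈ Finset.range N, gc a true c (indicatorSeq S) x t := by
      have h3 : occ [a] N x - c * N =
          ∑ t ∈ Finset.range N, ((if x t = a then (1 : ℝ) else 0) - c) := by
        rw [Finset.sum_sub_distrib, Finset.sum_const, Finset.card_range, nsmul_eq_mul]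
        unfold occ
        rw [mul_comm]
        congr 1
        apply Finset.sum_congr rfl
        intro t _
        have h4 : shift^[t] x ∈ cyl [a] ↔ x t = a := by
          rw [mem_cyl_singleton, shift_iter, Nat.zero_add]
        by_cases h : x t = a
        · rw [if_pos h, if_pos (h4.2 h)]
        · rw [if_neg h, if_neg (fun h' => h (h4.1 h'))]
      rw [h3, ← Finset.sum_sub_distrib]
      apply Finset.sum_congr rfl
      intro t _
      unfold gc
      cases h : indicatorSeq S t <;> simp
    rw [h2]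
    calc |(occ [a] N x - c * N) - ∑ t ∈ Finset.range N, gc a true c (indicatorSeq S) x t|
        ≤ |occ [a] N x - c * N| + |∑ t ∈ Finset.range N, gc a true c (indicatorSeq S) x t| :=
          abs_sub _ _
      _ ≤ ε / 2 * N + ε / 2 * N := add_le_add hN1 hN2
      _ = ε * N := by ring
  · exact htrue ε hε

theorem main {Λ : Type*} [Countable Λ] [MeasurableSpace Λ] [DiscreteMeasurableSpace Λ]
    (μ : Measure (ℕ → Λ)) [IsProbabilityMeasure μ] (hinv : MeasurePreserving shift μ μ)
    (hpos : 0 < ksEntropy μ shift) (S : Set ℕ) (hS : S.Infinite) (hnd : ¬ IsDeterministic S) :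
    ¬ PreservesSimpleNormality μ S := by
  classical
  intro hpres
  unfold IsDeterministic at hnd
  push Not at hnd
  obtain ⟨ν, ⟨hνinv, hcl⟩, hνpos⟩ := hnd
  have hνpos' : 0 < ksEntropy (ν : Measure (ℕ → Bool)) shift := pos_iff_ne_zero.2 hνpos
  obtain ⟨m, π, a, ha, v, hv, hv1, hc, hva⟩ := exists_centred hinv hpos
  obtain ⟨m', π', b, hb, w, hw, hw1, hc', hwb⟩ := exists_centred hνinv hνpos'
  obtain ⟨δ, hδ, s, hs, H⟩ := kernel_lemma hinv hνinv ha hb hv hv1 hc hva hw hw1 hc' hwb
  set y := indicatorSeq S with hy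
  set c := μ.real (cyl [a]) with hcdef
  have hc0 : 0 ≤ c := measureReal_nonneg
  have hc1 : c ≤ 1 := measureReal_le_one
  obtain ⟨x, hx1, hx2⟩ := concat y a b hc0 hc1 (fun B => μ.real (cyl B))
    (fun B => measureReal_nonneg) (fun B => measureReal_le_one) (half_pos hδ) hs (by
      intro 𝓑 η hη
      have hη3 : 0 < η / 3 := by positivity
      obtain ⟨L0, hL0⟩ : ∃ L0 : ℕ, ∀ B ∈ 𝓑, (B.length : ℝ) ≤ L0 * (η / 3) := by
        obtain ⟨L0, hL0⟩ := exists_nat_gt (((𝓑.sup List.length : ℕ) : ℝ) / (η / 3))
        refine ⟨L0, fun B hB => ?_⟩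
        rw [div_lt_iff₀ hη3] at hL0
        have h1 : B.length ≤ 𝓑.sup List.length := Finset.le_sup (f := List.length) hB
        have h2 : (B.length : ℝ) ≤ ((𝓑.sup List.length : ℕ) : ℝ) := by exact_mod_cast h1
        linarith
      obtain ⟨L, hLL0, hL, κ, hκ, hB, hcorr⟩ := H 𝓑 (η / 3) hη3 L0
      obtain ⟨x, h1, h2⟩ := single_scale y hL a b hc0 hc1 κ hκ 𝓑 (fun B => μ.real (cyl B))
        (fun B => measureReal_nonneg) (fun B => measureReal_le_one) hη3 hB
        (fun B hBm => (hL0 B hBm).trans (by
          apply mul_le_mul_of_nonneg_right _ hη3.le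
          exact_mod_cast hLL0))
        (fun i => (ν : Measure (ℕ → Bool)).real {y | ∀ k : Fin L, y k = i k}) hδ hs hcorr
        (fun ξ hξ N0 => freq_of_cluster y ν hcl L ξ hξ N0)
      refine ⟨x, fun B hBm => ?_, h2⟩
      obtain ⟨C, hC⟩ := h1 B hBm
      refine ⟨C, fun N => (hC N).trans (le_of_eq ?_)⟩
      ring)
  have hgen : IsGeneric μ x := generic_of_occ hx1
  have hsn := hpres x hgen
  have hsmall := gc_small S hS x a b (hx1 [a]) hsn (ε := δ / 8) (by positivity)
  obtain ⟨N1, hN1⟩ := eventually_atTop.1 hsmall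
  obtain ⟨N, hN, hN'⟩ := hx2 (max N1 1)
  have h1 := hN1 N (le_trans (le_max_left _ _) hN)
  have h2 : (1 : ℝ) ≤ N := by exact_mod_cast le_trans (le_max_right _ _) hN
  have h3 : s * ∑ t ∈ Finset.range N, gc a b c y x t ≤
      |∑ t ∈ Finset.range N, gc a b c y x t| := by
    rcases hs with h | h
    · rw [h, one_mul]; exact le_abs_self _
    · rw [h, neg_one_mul]; exact neg_le_abs _
  nlinarith

end Pool.Agent.Work.MP_0c7e55_an
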